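import Mathlib

/-!
Definitions for MP_12fa5c_lc: fields separated by real embeddings over a subfield, rank-stable
elliptic curves.
-/

set_option autoImplicit false

open WeierstrassCurve WeierstrassCurve.Affine

namespace Pool.Agent.H60.UDef

/-- The Weierstrass curve `y² = x³ + a x + b`. -/
def shortW {F : Type} [Field F] (a b : F) : WeierstrassCurve F := ⟨0, 0, 0, a, b⟩

/-- Every `x` in `K` outside `F` is separated by two real embeddings of `K` that agree on `F`. -/
def RealSeparated (F K : Type) [Field F] [Field K] [Algebra F K] : Prop :=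
  ∀ x : K, (¬ ∃ c : F, algebraMap F K c = x) →
    ∃ ρ τ : K →+* ℝ, (∀ c : F, ρ (algebraMap F K c) = τ (algebraMap F K c)) ∧ ρ x ≠ τ x

open scoped Classical in
/-- There is an elliptic curve `E : y² = x³ + a x + b` over `F` with a point of infinite order in
`E(F)` and an `m > 0` with `m P ∈ E(F)` for all `P ∈ E(K)`. -/
def RankStable (F K : Type) [Field F] [Field K] [Algebra F K] : Prop :=
  ∃ a b : F, 4 * a ^ 3 + 27 * b ^ 2 ≠ 0 ∧
    (∃ P : ((shortW a b)⁄F).Point, ∀ n : ℕ, 0 < n → n • P ≠ 0) ∧
    ∃ m : ℕ, 0 < m ∧ ∀ P : ((shortW a b)⁄K).Point, ∃ Q : ((shortW a b)⁄F).Point,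
      m • P = Point.baseChange F K Q

end Pool.Agent.H60.UDef
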