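import Pool.Agent.Lib.H60.UDef.Main
import Pool.Agent.Lib.H42.Ternary

/-!
The general criterion.
-/

set_option autoImplicit false

open FirstOrder Module

namespace Pool.Agent.H60.UDef

theorem nonres_of_jacobi {p l : ℕ} (hp : p.Prime) (h : jacobiSym l p = -1) :
    ∀ z : ZMod p, z ^ 2 ≠ (l : ZMod p) := by
  have : Fact p.Prime := ⟨hp⟩
  intro z hz
  rw [← jacobiSym.legendreSym.to_jacobiSym, legendreSym.eq_neg_one_iff] at h
  exact h ⟨z, by rw [← pow_two, hz]; simp⟩

theorem exists_goodPrime (p : ℕ) (hp : p.Prime) (hp2 : p ≠ 2) : ∃ l₁ l₂ : ℕ, GoodPrime p l₁ l₂ := by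
  obtain ⟨l₁, -, h1, -, h2, h3⟩ := H42.exists_aux_prime p hp hp2 0
  obtain ⟨l₂, h0, h4, -, h5, h6⟩ := H42.exists_aux_prime p hp hp2 l₁
  exact ⟨l₁, l₂, nonres_of_jacobi hp h2, nonres_of_jacobi hp h5, h3, h6, h1, h4, h0.ne⟩

/-- The complement of a rank-stable subfield is Diophantine (with parameters). -/
theorem dioP_of_rankStable {F K : Type} [Field F] [Field K] [NumberField K] [Algebra F K]
    (h : RankStable F K) : DioP K (fun x => ¬ ∃ c : F, algebraMap F K c = x) :=
  aux_of_rankStable exists_goodPrime h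

/-- The complement of `ℚ` is Diophantine without parameters. -/
theorem dio_not_rat (K L : Type) [Field K] [NumberField K] [Field L] [NumberField L] [Algebra K L]
    (h : ∀ x : K, (∀ (F : Type) [Field F] [Algebra F L], RankStable F L →
      ∃ c : F, algebraMap F L c = algebraMap K L x) → ∃ q : ℚ, (q : K) = x) :
    Dio K (fun v : Fin 1 → K => ¬ ∃ q : ℚ, (q : K) = v 0) :=
  dio_not_rat_aux exists_goodPrime K L h

/-- `X` is defined in `K` by a universal formula of the language of rings. -/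
def UnivDef (K : Type) [Field K] [Ring.CompatibleRing K] (X : K → Prop) : Prop :=
  ∃ φ : Language.ring.Formula (Fin 1),
    Language.BoundedFormula.IsUniversal φ ∧ ∀ a : K, φ.Realize (fun _ : Fin 1 => a) ↔ X a

theorem univDef_of_dio {K : Type} [Field K] [Ring.CompatibleRing K] {X : K → Prop}
    (h : Dio K (fun v : Fin 1 → K => ¬ X (v 0))) : UnivDef K X := by
  obtain ⟨φ, hφ, h⟩ := h.exists_universal
  exact ⟨φ, hφ, fun a => by rw [h]; exact not_not⟩

theorem dio_of_univDef {K : Type} [Field K] [Ring.CompatibleRing K] {X : K → Prop}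
    (h : UnivDef K X) : Dio K (fun v : Fin 1 → K => ¬ X (v 0)) := by
  obtain ⟨φ, hφ, h⟩ := h
  have h1 := (dio_of_isUniversal (K := K) hφ).comp
    (Sum.elim id (fun i : Fin 0 => i.elim0) : Fin 1 ⊕ Fin 0 → Fin 1)
  refine h1.congr fun v => ?_
  rw [← h (v 0), not_iff_not]
  have e1 : (v ∘ (Sum.elim id (fun i : Fin 0 => i.elim0) : Fin 1 ⊕ Fin 0 → Fin 1)) ∘ Sum.inl
      = fun _ => v 0 := by
    ext i; rw [Subsingleton.elim i 0]; rfl
  rw [e1]
  have e2 : ((v ∘ (Sum.elim id (fun i : Fin 0 => i.elim0) : Fin 1 ⊕ Fin 0 → Fin 1)) ∘ Sum.inr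
      : Fin 0 → K) = default := Subsingleton.elim _ _
  rw [e2]
  rfl

theorem univDef_int_of {K : Type} [Field K] [NumberField K] [Ring.CompatibleRing K]
    (hQ : UnivDef K (fun a => ∃ q : ℚ, (q : K) = a)) (hO : UnivDef K (fun a => IsIntegral ℤ a)) :
    UnivDef K (fun a => ∃ n : ℤ, (n : K) = a) := by
  apply univDef_of_dio
  refine ((dio_of_univDef hQ).or (dio_of_univDef hO)).congr fun v => ?_
  rw [← not_and_or, not_iff_not]
  constructor
  · rintro ⟨⟨q, hq⟩, h⟩
    rw [← hq] at h ⊢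
    have h1 : IsIntegral ℤ q := by
      have h2 : (q : K) = algebraMap ℚ K q := by simp
      rw [h2] at h
      exact (isIntegral_algebraMap_iff (algebraMap ℚ K).injective).1 h
    obtain ⟨n, hn⟩ := IsIntegrallyClosed.isIntegral_iff.1 h1
    refine ⟨n, ?_⟩
    rw [← hn]
    simp
  · rintro ⟨n, hn⟩
    rw [← hn]
    refine ⟨⟨n, by simp⟩, ?_⟩
    exact isIntegral_algebraMap (R := ℤ) (A := K) (x := n)

/-- The general criterion. -/
theorem criterion (K L : Type) [Field K] [NumberField K] [Field L] [NumberField L] [Algebra K L]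
    [Ring.CompatibleRing K]
    (h : ∀ x : K, (∀ (F : Type) [Field F] [Algebra F L], RankStable F L →
      ∃ c : F, algebraMap F L c = algebraMap K L x) → ∃ q : ℚ, (q : K) = x) :
    UnivDef K (fun a => ∃ q : ℚ, (q : K) = a) ∧
      (UnivDef K (fun a => IsIntegral ℤ a) → UnivDef K (fun a => ∃ n : ℤ, (n : K) = a)) := by
  have h1 := univDef_of_dio (X := fun a : K => ∃ q : ℚ, (q : K) = a) (dio_not_rat K L h)
  exact ⟨h1, univDef_int_of h1⟩

end Pool.Agent.H60.UDef
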