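import Pool.Agent.Lib.H60.UDef.Dio

/-!
Diophantine sets with parameters in a number field; elimination of the parameters for sets that
are invariant under automorphisms.
-/

set_option autoImplicit false

namespace Pool.Agent.H60.UDef

section basic

variable {K : Type} [Field K] {α : Type}

theorem Dio.forall_mem {ι : Type} (s : Finset ι) {P : ι → (α → K) → Prop}
    (h : ∀ i ∈ s, Dio K (P i)) : Dio K (fun v => ∀ i ∈ s, P i v) := by
  classical
  induction s using Finset.induction_on with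
  | empty => exact Dio.true.congr fun v => by simp
  | insert a s ha ih =>
    have h1 := (h a (Finset.mem_insert_self a s)).and
      (ih fun i hi => h i (Finset.mem_insert_of_mem hi))
    refine h1.congr fun v => ?_
    simp

theorem Dio.forall_fintype {ι : Type} [Finite ι] {P : ι → (α → K) → Prop}
    (h : ∀ i, Dio K (P i)) : Dio K (fun v => ∀ i, P i v) := by
  classical
  have := Fintype.ofFinite ι
  exact (Dio.forall_mem Finset.univ fun i _ => h i).congr fun v => by simp

/-- Diophantine with parameters. -/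
def DioP (K : Type) [Field K] (X : K → Prop) : Prop :=
  ∃ (γ : Type) (_ : Finite γ) (D : (Fin 1 ⊕ γ → K) → Prop) (c : γ → K),
    Dio K D ∧ ∀ x, X x ↔ D (Sum.elim (fun _ => x) c)

theorem DioP.congr {X Y : K → Prop} (h : DioP K X) (hXY : ∀ x, X x ↔ Y x) : DioP K Y := by
  obtain ⟨γ, hγ, D, c, hD, hX⟩ := h
  exact ⟨γ, hγ, D, c, hD, fun x => (hXY x).symm.trans (hX x)⟩

theorem DioP.exists_fintype {ι : Type} [Finite ι] {X : ι → K → Prop} (h : ∀ i, DioP K (X i)) :
    DioP K (fun x => ∃ i, X i x) := by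
  choose γ hγ D c hD hX using h
  refine ⟨Σ i, γ i, inferInstance,
    fun v => ∃ i, D i (fun j => v (Sum.map id (fun g => (⟨i, g⟩ : Σ i, γ i)) j)),
    fun g => c g.1 g.2, ?_, ?_⟩
  · exact Dio.exists_fintype fun i => (hD i).comp (Sum.map id (fun g => (⟨i, g⟩ : Σ i, γ i)))
  · intro x
    refine exists_congr fun i => ?_
    rw [hX i x]
    have : (Sum.elim (fun _ => x) (c i) : Fin 1 ⊕ γ i → K)
        = fun j => (Sum.elim (fun _ => x) (fun g : Σ i, γ i => c g.1 g.2))
          (Sum.map id (fun g => (⟨i, g⟩ : Σ i, γ i)) j) := by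
      ext (j | g) <;> simp
    rw [this]

end basic

section elim

variable {K : Type} [Field K] [NumberField K]

open Polynomial

theorem exists_int_poly (f : ℚ[X]) :
    ∃ (N : ℤ) (G : ℤ[X]), N ≠ 0 ∧ G.map (algebraMap ℤ ℚ) = (N : ℚ) • f := by
  obtain ⟨b, hb, hG⟩ := IsLocalization.integerNormalization_spec (nonZeroDivisors ℤ) f
  refine ⟨b, IsLocalization.integerNormalization (nonZeroDivisors ℤ) f,
    nonZeroDivisors.ne_zero hb, ?_⟩
  rw [hG]
  simp only [Algebra.smul_def, eq_intCast]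
  simp

theorem aeval_int_poly {f : ℚ[X]} {N : ℤ} {G : ℤ[X]} (h : G.map (algebraMap ℤ ℚ) = (N : ℚ) • f)
    (θ : K) : aeval θ G = (N : K) * aeval θ f := by
  have h1 : aeval θ G = aeval θ (G.map (algebraMap ℤ ℚ)) := (aeval_map_algebraMap ℚ θ G).symm
  rw [h1, h, map_smul, Algebra.smul_def]
  simp

omit [NumberField K] in
theorem lift_aeval {β : Type} (v : β → K) (j : β) (G : ℤ[X]) :
    FreeCommRing.lift v (aeval (FreeCommRing.of j) G) = aeval (v j) G := by
  have := Polynomial.aeval_algHom_apply (FreeCommRing.lift v).toIntAlgHom (FreeCommRing.of j) G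
  simpa using this.symm

theorem DioP.elim {X : K → Prop} (hX : DioP K X) (hinv : ∀ (σ : K ≃+* K) (x : K), X x → X (σ x)) :
    Dio K (fun v : Fin 1 → K => X (v 0)) := by
  classical
  obtain ⟨γ, hγ, D, c, hD, hXD⟩ := hX
  set pb := Field.powerBasisOfFiniteOfSeparable ℚ K with hpb
  have hc : ∀ g, ∃ f : ℚ[X], c g = aeval pb.gen f := fun g => pb.exists_eq_aeval' (c g)
  choose f hf using hc
  choose N G hN hG using fun g => exists_int_poly (f g)
  obtain ⟨Nm, M, hNm, hM⟩ := exists_int_poly (minpoly ℚ pb.gen)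
  -- the parameter free definition
  have h1 : Dio K (fun v : Fin 1 ⊕ (Unit ⊕ γ) → K => aeval (v (Sum.inr (Sum.inl ()))) M = 0) :=
    (Dio.eq0 (K := K) (aeval (FreeCommRing.of (Sum.inr (Sum.inl ()))) M)).congr
      fun v => by rw [lift_aeval]
  have h2 : Dio K (fun v : Fin 1 ⊕ (Unit ⊕ γ) → K => ∀ g : γ,
      (N g : K) * v (Sum.inr (Sum.inr g)) = aeval (v (Sum.inr (Sum.inl ()))) (G g)) :=
    Dio.forall_fintype fun g => (Dio.eq (K := K) ((N g : FreeCommRing _) *
      FreeCommRing.of (Sum.inr (Sum.inr g)))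
      (aeval (FreeCommRing.of (Sum.inr (Sum.inl ()))) (G g))).congr
      fun v => by rw [lift_aeval, map_mul, map_intCast, FreeCommRing.lift_of]
  have h3 : Dio K (fun v : Fin 1 ⊕ (Unit ⊕ γ) → K =>
      D (v ∘ (Sum.map id Sum.inr : Fin 1 ⊕ γ → Fin 1 ⊕ (Unit ⊕ γ)))) := hD.comp _
  refine (h1.and (h2.and h3)).ex.congr fun v => ?_
  constructor
  · rintro ⟨w, hw1, hw2, hw3⟩
    simp only [Sum.elim_inr] at hw1 hw2
    set θ' := w (Sum.inl ()) with hθ'
    have hroot : aeval θ' (minpoly ℚ pb.gen) = 0 := by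
      rw [aeval_int_poly hM] at hw1
      rcases mul_eq_zero.1 hw1 with h | h
      · exact absurd (by exact_mod_cast h) hNm
      · exact h
    let σ₀ : K →ₐ[ℚ] K := pb.lift θ' hroot
    have hσ₀ : σ₀ pb.gen = θ' := pb.lift_gen θ' hroot
    have hbij : Function.Bijective σ₀ := Algebra.IsAlgebraic.algHom_bijective σ₀
    let σ : K ≃ₐ[ℚ] K := AlgEquiv.ofBijective σ₀ hbij
    have hσ : ∀ x, σ x = σ₀ x := fun x => rfl
    have hcw : ∀ g, w (Sum.inr g) = σ (c g) := by
      intro g
      have e1 := hw2 g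
      have e2 : aeval θ' (G g) = (N g : K) * σ (c g) := by
        rw [aeval_int_poly (hG g), hf g, hσ, ← hσ₀, Polynomial.aeval_algHom_apply]
      rw [e2] at e1
      exact mul_left_cancel₀ (by exact_mod_cast hN g) e1
    have h4 := hD.map_equiv (σ.symm : K ≃+* K) hw3
    have h5 : (fun a => (σ.symm : K ≃+* K)
        (((Sum.elim v w : Fin 1 ⊕ (Unit ⊕ γ) → K) ∘
          (Sum.map id Sum.inr : Fin 1 ⊕ γ → Fin 1 ⊕ (Unit ⊕ γ))) a))
        = Sum.elim (fun _ => σ.symm (v 0)) c := by
      ext (j | g)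
      · have : j = 0 := Subsingleton.elim _ _
        subst this
        simp
      · simp [hcw g]
    rw [h5] at h4
    have h6 := (hXD _).2 h4
    have h7 := hinv (σ : K ≃+* K) _ h6
    simpa using h7
  · intro hx
    refine ⟨Sum.elim (fun _ => pb.gen) c, ?_, ?_, ?_⟩
    · simp only [Sum.elim_inr, Sum.elim_inl]
      rw [aeval_int_poly hM, minpoly.aeval, mul_zero]
    · intro g
      simp only [Sum.elim_inr, Sum.elim_inl]
      rw [aeval_int_poly (hG g), ← hf g]
    · have h4 := (hXD _).1 hx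
      have h5 : ((Sum.elim v (Sum.elim (fun _ => pb.gen) c) : Fin 1 ⊕ (Unit ⊕ γ) → K) ∘
          (Sum.map id Sum.inr : Fin 1 ⊕ γ → Fin 1 ⊕ (Unit ⊕ γ)))
          = Sum.elim (fun _ => v 0) c := by
        ext (j | g)
        · have : j = 0 := Subsingleton.elim _ _
          subst this
          simp
        · simp
      rw [h5]
      exact h4

end elim

end Pool.Agent.H60.UDef
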