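import Pool.Agent.Lib.H60.UDef.PadicEmb
import Pool.Agent.Lib.H60.UDef.Params

/-!
Every number field has infinitely many completely split primes.
-/

set_option autoImplicit false

open Module Polynomial

namespace Pool.Agent.H60.UDef

theorem exists_prime_dvd_eval (G : ℤ[X]) (hG : 0 < G.natDegree) (R : ℤ) (hR : R ≠ 0) :
    ∃ p : ℕ, p.Prime ∧ ¬ (p : ℤ) ∣ R ∧ ∃ m : ℤ, (p : ℤ) ∣ G.eval m := by
  set c := G.coeff 0 with hc
  have hsplit : ∀ x : ℤ, G.eval x = c + x * G.divX.eval x := by
    intro x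
    conv_lhs => rw [← Polynomial.divX_mul_X_add G]
    simp only [eval_add, eval_mul, eval_X, eval_C]
    ring
  by_cases hc0 : c = 0
  · obtain ⟨p, hp1, hp2⟩ := Nat.exists_infinite_primes (R.natAbs + 1)
    refine ⟨p, hp2, ?_, 0, ?_⟩
    · intro h
      have := Int.le_of_dvd (abs_pos.2 hR) ((dvd_abs _ _).2 h)
      rw [Int.abs_eq_natAbs] at this
      omega
    · rw [hsplit, hc0]; simp
  · have h1 : ∀ e : ℤ, (G - C e) ≠ 0 := by
      intro e h
      have := congrArg natDegree h
      rw [natDegree_sub_C, natDegree_zero] at this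
      omega
    have hfin : ((G - C c) * (G + C c)).roots.toFinset.Nonempty ∨ True := Or.inr trivial
    have hne : (G - C c) * (G + C c) ≠ 0 := by
      refine mul_ne_zero (h1 c) ?_
      have := h1 (-c)
      rwa [C_neg, sub_neg_eq_add] at this
    obtain ⟨t, ht⟩ : ∃ t : ℤ, c * R * t ∉ ((G - C c) * (G + C c)).roots.toFinset := by
      by_contra hcon
      push Not at hcon
      have hinj : Function.Injective (fun t : ℤ => c * R * t) := by
        intro a b hab
        exact mul_left_cancel₀ (mul_ne_zero hc0 hR) hab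
      have hinf := Set.infinite_range_of_injective hinj
      apply hinf
      refine (Finset.finite_toSet ((G - C c) * (G + C c)).roots.toFinset).subset ?_
      rintro _ ⟨t, rfl⟩
      exact hcon t
    rw [Multiset.mem_toFinset, mem_roots hne, IsRoot.def, eval_mul, eval_sub, eval_add, eval_C] at ht
    set u : ℤ := 1 + R * t * G.divX.eval (c * R * t) with hu
    have hval : G.eval (c * R * t) = c * u := by
      rw [hsplit, hu]; ring
    rw [hval] at ht
    have hu1 : u.natAbs ≠ 1 := by
      intro h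
      rcases Int.natAbs_eq_iff.1 h with h | h
      · apply ht; rw [h]; simp
      · apply ht; rw [h]; simp
    obtain ⟨p, hp, hpu⟩ := Nat.exists_prime_and_dvd hu1
    have hpu' : (p : ℤ) ∣ u := Int.natCast_dvd.2 hpu
    refine ⟨p, hp, ?_, c * R * t, ?_⟩
    · intro h
      have h2 : (p : ℤ) ∣ 1 := by
        have h3 : (p : ℤ) ∣ R * t * G.divX.eval (c * R * t) := (h.mul_right _).mul_right _
        have h4 := dvd_sub hpu' h3
        rwa [hu, add_sub_cancel_right] at h4
      have := Int.eq_one_of_dvd_one (by positivity) h2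
      have := hp.one_lt
      omega
    · rw [hval]; exact hpu'.mul_left c

theorem exists_bezout (f : ℚ[X]) (hf : f.Separable) {N : ℤ} (hN : N ≠ 0) {G : ℤ[X]}
    (hG : G.map (algebraMap ℤ ℚ) = (N : ℚ) • f) :
    ∃ (U V : ℤ[X]) (R : ℤ), R ≠ 0 ∧ U * G + V * derivative G = C R := by
  obtain ⟨a, b, hab⟩ := hf
  obtain ⟨Na, A, hNa, hA⟩ := exists_int_poly a
  obtain ⟨Nb, B, hNb, hB⟩ := exists_int_poly b
  refine ⟨C Nb * A, C Na * B, Na * Nb * N, mul_ne_zero (mul_ne_zero hNa hNb) hN, ?_⟩
  apply Polynomial.map_injective (algebraMap ℤ ℚ) (algebraMap ℤ ℚ).injective_int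
  have hG' : (derivative G).map (algebraMap ℤ ℚ) = (N : ℚ) • derivative f := by
    rw [← derivative_map, hG, derivative_smul]
  rw [Polynomial.map_add, Polynomial.map_mul, Polynomial.map_mul, Polynomial.map_mul,
    Polynomial.map_mul, hA, hB, hG, hG', map_C, map_C, map_C]
  have e : C ((algebraMap ℤ ℚ) Nb) * (Na : ℚ) • a * (N : ℚ) • f
      + C ((algebraMap ℤ ℚ) Na) * (Nb : ℚ) • b * (N : ℚ) • derivative f
      = C ((Na : ℚ) * Nb * N) * (a * f + b * derivative f) := by
    simp only [smul_eq_C_mul, C_mul, algebraMap_int_eq, eq_intCast]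
    ring
  rw [e, hab, mul_one]
  simp

theorem exists_hom_padic (L : Type) [Field L] [NumberField L] (N₀ : ℕ) :
    ∃ (p : ℕ) (_ : Fact p.Prime), N₀ < p ∧ Nonempty (L →+* ℚ_[p]) := by
  set pb := Field.powerBasisOfFiniteOfSeparable ℚ L with hpb
  set f := minpoly ℚ pb.gen with hf
  obtain ⟨N, G, hN, hG⟩ := exists_int_poly f
  have hirr : Irreducible f := minpoly.irreducible (Algebra.IsIntegral.isIntegral _)
  have hsep : f.Separable := hirr.separable
  obtain ⟨U, V, R, hR, hUV⟩ := exists_bezout f hsep hN hG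
  have hdeg : 0 < G.natDegree := by
    have h1 : (G.map (algebraMap ℤ ℚ)).natDegree = G.natDegree :=
      natDegree_map_eq_of_injective (algebraMap ℤ ℚ).injective_int G
    rw [← h1, hG, natDegree_smul f (by exact_mod_cast hN)]
    exact hirr.natDegree_pos
  have hfac : ((N₀.factorial : ℕ) : ℤ) ≠ 0 := by exact_mod_cast N₀.factorial_ne_zero
  obtain ⟨p, hp, hpR, m, hm⟩ := exists_prime_dvd_eval G hdeg (R * N₀.factorial) (mul_ne_zero hR hfac)
  have : Fact p.Prime := ⟨hp⟩
  have hpR1 : ¬ (p : ℤ) ∣ R := fun h => hpR (h.mul_right _)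
  have hpN : N₀ < p := by
    by_contra hle
    push Not at hle
    apply hpR
    refine Dvd.dvd.mul_left ?_ R
    exact_mod_cast (Nat.dvd_factorial hp.pos hle)
  refine ⟨p, this, hpN, ?_⟩
  -- Hensel
  have e1 : aeval (m : ℤ_[p]) G = ((G.eval m : ℤ) : ℤ_[p]) := by
    have := Polynomial.aeval_algebraMap_apply ℤ_[p] m G
    simpa using this
  have e2 : aeval (m : ℤ_[p]) (derivative G) = (((derivative G).eval m : ℤ) : ℤ_[p]) := by
    have := Polynomial.aeval_algebraMap_apply ℤ_[p] m (derivative G)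
    simpa using this
  have hn1 : ‖aeval (m : ℤ_[p]) G‖ < 1 := by
    rw [e1, PadicInt.norm_int_lt_one_iff_dvd]
    exact hm
  have hn2 : ‖aeval (m : ℤ_[p]) (derivative G)‖ = 1 := by
    rw [e2]
    have h1 : ¬ ‖(((derivative G).eval m : ℤ) : ℤ_[p])‖ < 1 := by
      rw [PadicInt.norm_int_lt_one_iff_dvd]
      intro h
      apply hpR1
      have h2 := congrArg (eval m) hUV
      rw [eval_add, eval_mul, eval_mul, eval_C] at h2
      rw [← h2]
      exact dvd_add (hm.mul_left _) (h.mul_left _)
    exact le_antisymm (PadicInt.norm_le_one _) (not_lt.1 h1)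
  obtain ⟨z, hz, -⟩ := hensels_lemma (F := G) (a := (m : ℤ_[p])) (by rw [hn2]; simpa using hn1)
  have hroot : aeval (z : ℚ_[p]) f = 0 := by
    have h1 : aeval (z : ℚ_[p]) G = 0 := by
      have := Polynomial.aeval_algebraMap_apply ℚ_[p] z G
      rw [hz, map_zero] at this
      exact this
    rw [← aeval_map_algebraMap ℚ, hG, map_smul, Algebra.smul_def] at h1
    rcases mul_eq_zero.1 h1 with h2 | h2
    · exfalso
      have : (algebraMap ℚ ℚ_[p]) (N : ℚ) = ((N : ℚ) : ℚ_[p]) := by simp
      rw [this] at h2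
      apply hN
      exact_mod_cast h2
    · exact h2
  exact ⟨(pb.lift (z : ℚ_[p]) hroot).toRingHom⟩

theorem exists_splits (K : Type) [Field K] [NumberField K] (N₀ : ℕ) :
    ∃ (p : ℕ) (_ : Fact p.Prime), N₀ < p ∧ Splits p K := by
  set pb := Field.powerBasisOfFiniteOfSeparable ℚ K with hpb
  set f := minpoly ℚ pb.gen with hf
  let L := f.SplittingField
  have hL0 : CharZero L := charZero_of_injective_algebraMap (algebraMap ℚ L).injective
  have hL : NumberField L := ⟨⟩
  obtain ⟨p, hp, hN, ⟨ι⟩⟩ := exists_hom_padic L N₀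
  refine ⟨p, hp, hN, le_antisymm (card_emb_le p K) ?_⟩
  have hirr : Irreducible f := minpoly.irreducible (Algebra.IsIntegral.isIntegral _)
  have h1 : Nat.card (K →ₐ[ℚ] L) = pb.dim :=
    AlgHom.natCard_of_powerBasis pb hirr.separable (SplittingField.splits f)
  rw [pb.finrank, ← h1]
  refine Nat.card_le_card_of_injective (fun g : K →ₐ[ℚ] L => ι.comp (g : K →+* L)) ?_
  intro g g' h
  ext y
  have := RingHom.congr_fun h y
  exact ι.injective this

end Pool.Agent.H60.UDef
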