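import Mathlib

/-!
Diophantine predicates (existentially definable, no parameters) over a field, in the form of a
finite system of polynomial equations with integer coefficients, their closure properties, and the
universal first-order formula defining the complement.
-/

set_option autoImplicit false

open FirstOrder FirstOrder.Ring

namespace Pool.Agent.H60.UDef

/-- `P` is Diophantine: `P v` iff a finite system of integer polynomial equations in `v` and
finitely many further unknowns is solvable. -/
def Dio (K : Type) [CommRing K] {α : Type} (P : (α → K) → Prop) : Prop :=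
  ∃ (m : ℕ) (L : List (FreeCommRing (α ⊕ Fin m))),
    ∀ v : α → K, P v ↔ ∃ y : Fin m → K, ∀ p ∈ L, FreeCommRing.lift (Sum.elim v y) p = 0

section basic

variable {K : Type} [CommRing K] {α β : Type}

theorem lift_lift (v : β → K) (q : α → FreeCommRing β) (p : FreeCommRing α) :
    FreeCommRing.lift v (FreeCommRing.lift q p)
      = FreeCommRing.lift (fun a => FreeCommRing.lift v (q a)) p := by
  have : (FreeCommRing.lift v).comp (FreeCommRing.lift q)
      = FreeCommRing.lift (fun a => FreeCommRing.lift v (q a)) := by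
    apply FreeCommRing.hom_ext
    intro a
    simp
  exact RingHom.congr_fun this p

theorem lift_map (v : β → K) (f : α → β) (p : FreeCommRing α) :
    FreeCommRing.lift v (FreeCommRing.map f p) = FreeCommRing.lift (v ∘ f) p := by
  have : (FreeCommRing.lift v).comp (FreeCommRing.map f) = FreeCommRing.lift (v ∘ f) := by
    apply FreeCommRing.hom_ext
    intro a
    simp
  exact RingHom.congr_fun this p

theorem Dio.congr {P Q : (α → K) → Prop} (h : Dio K P) (hPQ : ∀ v, P v ↔ Q v) : Dio K Q := by
  obtain ⟨m, L, hL⟩ := h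
  exact ⟨m, L, fun v => (hPQ v).symm.trans (hL v)⟩

theorem Dio.eq0 (p : FreeCommRing α) : Dio K (fun v : α → K => FreeCommRing.lift v p = 0) := by
  refine ⟨0, [FreeCommRing.map Sum.inl p], fun v => ?_⟩
  constructor
  · intro h
    refine ⟨Fin.elim0, ?_⟩
    intro q hq
    rw [List.mem_singleton] at hq
    subst hq
    rw [lift_map]
    simpa using! h
  · rintro ⟨y, hy⟩
    have := hy _ (List.mem_singleton.2 rfl)
    rw [lift_map] at this
    simpa using! this

theorem Dio.eq (p q : FreeCommRing α) :
    Dio K (fun v : α → K => FreeCommRing.lift v p = FreeCommRing.lift v q) :=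
  (Dio.eq0 (p - q)).congr fun v => by rw [map_sub, sub_eq_zero]

/-- Diophantine predicates are invariant under ring automorphisms. -/
theorem Dio.map_equiv {P : (α → K) → Prop} (h : Dio K P) (σ : K ≃+* K) {v : α → K} (hv : P v) :
    P (fun a => σ (v a)) := by
  obtain ⟨m, L, hL⟩ := h
  obtain ⟨y, hy⟩ := (hL v).1 hv
  refine (hL _).2 ⟨fun i => σ (y i), fun p hp => ?_⟩
  have h1 : FreeCommRing.lift (Sum.elim (fun a => σ (v a)) (fun i => σ (y i))) p
      = σ (FreeCommRing.lift (Sum.elim v y) p) := by
    have : FreeCommRing.lift (Sum.elim (fun a => σ (v a)) (fun i => σ (y i)))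
        = (σ : K →+* K).comp (FreeCommRing.lift (Sum.elim v y)) := by
      apply FreeCommRing.hom_ext
      rintro (a | i) <;> simp
    rw [this]; rfl
  rw [h1, hy p hp, map_zero]

theorem Dio.and {P Q : (α → K) → Prop} (hP : Dio K P) (hQ : Dio K Q) :
    Dio K (fun v => P v ∧ Q v) := by
  obtain ⟨m, L, hL⟩ := hP
  obtain ⟨n, M, hM⟩ := hQ
  refine ⟨m + n, L.map (FreeCommRing.map (Sum.map id (Fin.castAdd n))) ++
    M.map (FreeCommRing.map (Sum.map id (Fin.natAdd m))), fun v => ?_⟩
  beta_reduce
  rw [hL v, hM v]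
  constructor
  · rintro ⟨⟨y, hy⟩, ⟨z, hz⟩⟩
    refine ⟨Fin.append y z, ?_⟩
    intro p hp
    rw [List.mem_append, List.mem_map, List.mem_map] at hp
    rcases hp with ⟨q, hq, rfl⟩ | ⟨q, hq, rfl⟩
    · rw [lift_map]
      convert hy q hq using 3
      ext (a | i) <;> simp
    · rw [lift_map]
      convert hz q hq using 3
      ext (a | i) <;> simp
  · rintro ⟨w, hw⟩
    refine ⟨⟨fun i => w (Fin.castAdd n i), fun q hq => ?_⟩,
      ⟨fun i => w (Fin.natAdd m i), fun q hq => ?_⟩⟩
    · have := hw (FreeCommRing.map (Sum.map id (Fin.castAdd n)) q)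
        (List.mem_append.2 (Or.inl (List.mem_map.2 ⟨q, hq, rfl⟩)))
      rw [lift_map] at this
      convert this using 3
      ext (a | i) <;> simp
    · have := hw (FreeCommRing.map (Sum.map id (Fin.natAdd m)) q)
        (List.mem_append.2 (Or.inr (List.mem_map.2 ⟨q, hq, rfl⟩)))
      rw [lift_map] at this
      convert this using 3
      ext (a | i) <;> simp

theorem Dio.exFin {k : ℕ} {P : (α ⊕ Fin k → K) → Prop} (hP : Dio K P) :
    Dio K (fun v : α → K => ∃ w : Fin k → K, P (Sum.elim v w)) := by
  obtain ⟨m, L, hL⟩ := hP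
  refine ⟨k + m, L.map (FreeCommRing.map
    (Sum.elim (Sum.map id (Fin.castAdd m)) (fun i => Sum.inr (Fin.natAdd k i)))), fun v => ?_⟩
  constructor
  · rintro ⟨w, hw⟩
    obtain ⟨y, hy⟩ := (hL _).1 hw
    refine ⟨Fin.append w y, ?_⟩
    intro p hp
    rw [List.mem_map] at hp
    obtain ⟨q, hq, rfl⟩ := hp
    rw [lift_map]
    convert hy q hq using 3
    ext ((a | i) | i) <;> simp
  · rintro ⟨z, hz⟩
    refine ⟨fun i => z (Fin.castAdd m i), (hL _).2 ⟨fun i => z (Fin.natAdd k i), fun q hq => ?_⟩⟩
    have := hz _ (List.mem_map.2 ⟨q, hq, rfl⟩)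
    rw [lift_map] at this
    convert this using 3
    ext ((a | i) | i) <;> simp

theorem Dio.ex {γ : Type} [Finite γ] {P : (α ⊕ γ → K) → Prop} (hP : Dio K P) :
    Dio K (fun v : α → K => ∃ w : γ → K, P (Sum.elim v w)) := by
  obtain ⟨k, ⟨e⟩⟩ := Finite.exists_equiv_fin γ
  obtain ⟨m, L, hL⟩ := hP
  have h1 : Dio K (fun v : α ⊕ Fin k → K => P (Sum.elim (v ∘ Sum.inl) (fun c => v (Sum.inr (e c)))))
      := by
    refine ⟨m, L.map (FreeCommRing.map (Sum.map (Sum.map id e) id)), fun v => ?_⟩
    beta_reduce
    rw [hL]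
    refine exists_congr fun y => ?_
    simp only [List.mem_map, forall_exists_index, and_imp, forall_apply_eq_imp_iff₂]
    refine forall_congr' fun p => forall_congr' fun _ => ?_
    rw [lift_map]
    have : (Sum.elim (Sum.elim (v ∘ Sum.inl) fun c => v (Sum.inr (e c))) y)
        = (Sum.elim v y ∘ Sum.map (Sum.map id e) id) := by
      ext ((a | i) | i) <;> simp
    rw [this]
  refine h1.exFin.congr fun v => ?_
  constructor
  · rintro ⟨w, hw⟩
    exact ⟨fun c => w (e c), by simpa using! hw⟩
  · rintro ⟨w, hw⟩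
    refine ⟨fun i => w (e.symm i), ?_⟩
    simpa using! hw

theorem Dio.subst {P : (α → K) → Prop} (hP : Dio K P) (q : α → FreeCommRing β) :
    Dio K (fun v : β → K => P (fun a => FreeCommRing.lift v (q a))) := by
  obtain ⟨m, L, hL⟩ := hP
  refine ⟨m, L.map (FreeCommRing.lift
    (Sum.elim (fun a => FreeCommRing.map Sum.inl (q a)) (fun i => FreeCommRing.of (Sum.inr i)))),
    fun v => ?_⟩
  beta_reduce
  rw [hL]
  refine exists_congr fun y => ?_
  simp only [List.mem_map, forall_exists_index, and_imp, forall_apply_eq_imp_iff₂]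
  refine forall_congr' fun p => forall_congr' fun _ => ?_
  rw [lift_lift]
  have : (Sum.elim (fun a => FreeCommRing.lift v (q a)) y)
      = (fun a => FreeCommRing.lift (Sum.elim v y)
        (Sum.elim (fun a => FreeCommRing.map Sum.inl (q a)) (fun i => FreeCommRing.of (Sum.inr i)) a))
      := by
    ext (a | i)
    · simp only [Sum.elim_inl]
      rw [lift_map]
      rfl
    · simp
  rw [this]

theorem Dio.comp {P : (α → K) → Prop} (hP : Dio K P) (f : α → β) :
    Dio K (fun v : β → K => P (v ∘ f)) :=
  (hP.subst (fun a => FreeCommRing.of (f a))).congr fun v => by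
    simp only [FreeCommRing.lift_of]; rfl

theorem Dio.true : Dio K (fun _ : α → K => True) :=
  (Dio.eq (K := K) (α := α) 0 0).congr fun v => by simp

end basic

section domain

variable {K : Type} [Field K] {α : Type}

theorem Dio.ne0 (p : FreeCommRing α) : Dio K (fun v : α → K => FreeCommRing.lift v p ≠ 0) := by
  have h := (Dio.eq (K := K) (α := α ⊕ Fin 1)
    (FreeCommRing.map Sum.inl p * FreeCommRing.of (Sum.inr 0)) 1).exFin
  refine h.congr fun v => ?_
  constructor
  · rintro ⟨w, hw⟩ h0
    rw [map_mul, lift_map, map_one] at hw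
    have h2 : (Sum.elim v w ∘ Sum.inl) = v := by ext a; simp
    rw [h2, h0, zero_mul] at hw
    exact zero_ne_one hw
  · intro h0
    refine ⟨fun _ => (FreeCommRing.lift v p)⁻¹, ?_⟩
    rw [map_mul, lift_map, map_one]
    have h2 : (Sum.elim v (fun _ : Fin 1 => (FreeCommRing.lift v p)⁻¹) ∘ Sum.inl) = v := by
      ext a; simp
    rw [h2]
    simp [mul_inv_cancel₀ h0]

theorem Dio.false : Dio K (fun _ : α → K => False) :=
  (Dio.eq (K := K) (α := α) 0 1).congr fun v => by simp

theorem Dio.or {P Q : (α → K) → Prop} (hP : Dio K P) (hQ : Dio K Q) :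
    Dio K (fun v => P v ∨ Q v) := by
  obtain ⟨m, L, hL⟩ := hP
  obtain ⟨n, M, hM⟩ := hQ
  refine ⟨m + n, (L.product M).map (fun pq =>
    FreeCommRing.map (Sum.map id (Fin.castAdd n)) pq.1 *
    FreeCommRing.map (Sum.map id (Fin.natAdd m)) pq.2), fun v => ?_⟩
  beta_reduce
  rw [hL v, hM v]
  constructor
  · rintro (⟨y, hy⟩ | ⟨z, hz⟩)
    · refine ⟨Fin.append y (fun _ => 0), ?_⟩
      intro p hp
      rw [List.mem_map] at hp
      obtain ⟨⟨q, r⟩, hq, rfl⟩ := hp
      rw [List.pair_mem_product] at hq
      rw [map_mul, lift_map]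
      have h1 : (Sum.elim v (Fin.append y fun _ : Fin n => (0 : K)) ∘ Sum.map id (Fin.castAdd n))
          = Sum.elim v y := by
        ext (a | i) <;> simp
      rw [h1, hy q hq.1, zero_mul]
    · refine ⟨Fin.append (fun _ => 0) z, ?_⟩
      intro p hp
      rw [List.mem_map] at hp
      obtain ⟨⟨q, r⟩, hq, rfl⟩ := hp
      rw [List.pair_mem_product] at hq
      rw [map_mul, lift_map, lift_map]
      have h1 : (Sum.elim v (Fin.append (fun _ : Fin m => (0 : K)) z) ∘ Sum.map id (Fin.natAdd m))
          = Sum.elim v z := by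
        ext (a | i) <;> simp
      rw [h1, hz r hq.2, mul_zero]
  · rintro ⟨w, hw⟩
    by_contra hcon
    rw [not_or] at hcon
    obtain ⟨h1, h2⟩ := hcon
    have h3 : ¬ ∀ p ∈ L, FreeCommRing.lift (Sum.elim v (fun i => w (Fin.castAdd n i))) p = 0 :=
      fun h => h1 ⟨_, h⟩
    have h4 : ¬ ∀ p ∈ M, FreeCommRing.lift (Sum.elim v (fun i => w (Fin.natAdd m i))) p = 0 :=
      fun h => h2 ⟨_, h⟩
    push Not at h3 h4
    obtain ⟨p, hp, hp0⟩ := h3
    obtain ⟨q, hq, hq0⟩ := h4
    have := hw _ (List.mem_map.2 ⟨(p, q), List.pair_mem_product.2 ⟨hp, hq⟩, rfl⟩)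
    rw [map_mul, lift_map, lift_map] at this
    have e1 : (Sum.elim v w ∘ Sum.map id (Fin.castAdd n))
        = Sum.elim v (fun i => w (Fin.castAdd n i)) := by
      ext (a | i) <;> simp
    have e2 : (Sum.elim v w ∘ Sum.map id (Fin.natAdd m))
        = Sum.elim v (fun i => w (Fin.natAdd m i)) := by
      ext (a | i) <;> simp
    rw [e1, e2] at this
    exact (mul_ne_zero hp0 hq0) this

theorem Dio.exists_mem {ι : Type} (s : Finset ι) {P : ι → (α → K) → Prop}
    (h : ∀ i ∈ s, Dio K (P i)) : Dio K (fun v => ∃ i ∈ s, P i v) := by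
  classical
  induction s using Finset.induction_on with
  | empty => exact Dio.false.congr fun v => by simp
  | insert a s ha ih =>
    have h1 := (h a (Finset.mem_insert_self a s)).or
      (ih fun i hi => h i (Finset.mem_insert_of_mem hi))
    refine h1.congr fun v => ?_
    simp

theorem Dio.exists_fintype {ι : Type} [Finite ι] {P : ι → (α → K) → Prop}
    (h : ∀ i, Dio K (P i)) : Dio K (fun v => ∃ i, P i v) := by
  classical
  have := Fintype.ofFinite ι
  exact (Dio.exists_mem Finset.univ fun i _ => h i).congr fun v => by simp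

end domain

section formula

variable {K : Type} [Field K] [CompatibleRing K]

/-- The conjunction of the equations `p = 0`, `p ∈ L`. -/
noncomputable def eqs {α : Type} {m : ℕ} :
    List (FreeCommRing (α ⊕ Fin m)) → Language.ring.BoundedFormula α m
  | [] => ⊤
  | p :: L => (Language.Term.bdEqual (termOfFreeCommRing p) 0) ⊓ eqs L

theorem isQF_eqs {α : Type} {m : ℕ} (L : List (FreeCommRing (α ⊕ Fin m))) : (eqs L).IsQF := by
  induction L with
  | nil => exact Language.BoundedFormula.IsQF.top
  | cons p L ih =>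
    exact (Language.BoundedFormula.IsQF.of_isAtomic
      (Language.BoundedFormula.IsAtomic.equal _ _)).inf ih

theorem realize_eqs {α : Type} {m : ℕ} (L : List (FreeCommRing (α ⊕ Fin m))) (v : α → K)
    (y : Fin m → K) :
    (eqs L).Realize v y ↔ ∀ p ∈ L, FreeCommRing.lift (Sum.elim v y) p = 0 := by
  induction L with
  | nil => simp [eqs]
  | cons p L ih =>
    rw [eqs, Language.BoundedFormula.realize_inf, ih, Language.BoundedFormula.realize_bdEqual]
    simp

theorem isUniversal_alls {α : Type} : ∀ {m : ℕ} (φ : Language.ring.BoundedFormula α m),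
    φ.IsUniversal → Language.BoundedFormula.IsUniversal φ.alls
  | 0, _, h => h
  | _ + 1, φ, h => isUniversal_alls φ.all (Language.BoundedFormula.IsUniversal.all h)

/-- The complement of a Diophantine set is defined by a universal formula. -/
theorem Dio.exists_universal {α : Type} {P : (α → K) → Prop} (hP : Dio K P) :
    ∃ φ : Language.ring.Formula α, Language.BoundedFormula.IsUniversal φ ∧
      ∀ v : α → K, φ.Realize v ↔ ¬ P v := by
  obtain ⟨m, L, hL⟩ := hP
  refine ⟨(eqs L).not.alls,
    isUniversal_alls _ (Language.BoundedFormula.IsUniversal.of_isQF (isQF_eqs L).not), fun v => ?_⟩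
  rw [Language.Formula.Realize]
  rw [show (Language.BoundedFormula.Realize ((eqs L).not.alls) v default)
    = ((eqs L).not.alls : Language.ring.Formula α).Realize v from rfl]
  rw [Language.BoundedFormula.realize_alls, hL v]
  push Not
  refine forall_congr' fun y => ?_
  rw [Language.BoundedFormula.realize_not, realize_eqs]
  push Not
  rfl

end formula

end Pool.Agent.H60.UDef
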