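import Pool.Agent.Lib.H60.UDef.Formulas
import Pool.Agent.Lib.H60.UDef.Dio

/-!
The graph of multiplication by `n + 1` on `y² = x³ + A x + B`, restricted to generic steps, is
Diophantine.
-/

set_option autoImplicit false

open WeierstrassCurve WeierstrassCurve.Affine

namespace Pool.Agent.H60.UDef

/-- `(x', y')` is obtained from `(x, y)` by `n` generic addition steps. -/
def MulRel {K : Type} [Field K] (A : K) : ℕ → K → K → K → K → Prop
  | 0, x, y, x', y' => x' = x ∧ y' = y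
  | n + 1, x, y, x', y' => ∃ u w l : K, MulRel A n x y u w ∧
      ((u ≠ x ∧ l * (u - x) = w - y) ∨ (u = x ∧ w = y ∧ y ≠ 0 ∧ l * (2 * y) = 3 * x ^ 2 + A)) ∧
      x' = l ^ 2 - u - x ∧ y' = l * (u - x') - w

section

variable {F K : Type} [Field F] [Field K] [Algebra F K] [CharZero K] [DecidableEq K] {a b : F}
  {P : ((shortW a b)⁄K).Point} {x y : K}

theorem MulRel.sound (h : IsAt P x y) : ∀ (n : ℕ) {x' y' : K},
    MulRel (algebraMap F K a) n x y x' y' → IsAt ((n + 1) • P) x' y'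
  | 0, x', y', hr => by
    obtain ⟨rfl, rfl⟩ := hr
    simpa using h
  | n + 1, x', y', hr => by
    obtain ⟨u, w, l, h1, h2, hx', hy'⟩ := hr
    have ih := MulRel.sound h n h1
    rcases h2 with ⟨hne, hl⟩ | ⟨hu, hw, hy, hl⟩
    · have h3 := ih.add h hne
      rw [← succ_nsmul] at h3
      have hl' : (w - y) / (u - x) = l := by
        rw [div_eq_iff (sub_ne_zero.2 hne), hl]
      rw [hl'] at h3
      rw [hx'] at hy'
      rw [hx', hy']
      exact h3
    · rw [hu, hw] at ih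
      have h4 : (n + 1) • P = P := ih.ext h
      have h3 := h.dbl hy
      have hl' : (3 * x ^ 2 + algebraMap F K a) / (2 * y) = l := by
        rw [div_eq_iff (mul_ne_zero two_ne_zero hy), hl]
      rw [hl'] at h3
      rw [hu, hw] at hy'
      rw [hu] at hx'
      rw [hx'] at hy'
      rw [succ_nsmul, h4, hx', hy']
      exact h3

theorem MulRel.exists (hP : ∀ n : ℕ, 0 < n → n • P ≠ 0) (h : IsAt P x y) : ∀ n : ℕ,
    ∃ x' y' : K, MulRel (algebraMap F K a) n x y x' y'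
  | 0 => ⟨x, y, rfl, rfl⟩
  | n + 1 => by
    obtain ⟨u, w, hr⟩ := MulRel.exists hP h n
    have h1 := MulRel.sound h n hr
    by_cases hux : u = x
    · have hw : w = y := by
        have e1 := h1.eqn
        have e2 := h.eqn
        rw [hux] at e1
        have e3 : (w - y) * (w + y) = 0 := by linear_combination e1 - e2
        rcases mul_eq_zero.1 e3 with h3 | h3
        · exact sub_eq_zero.1 h3
        · exfalso
          have h4 : w = -y := by linear_combination h3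
          rw [hux, h4] at h1
          have h5 : (n + 1) • P = -P := h1.ext h.neg
          apply hP (n + 2) (by omega)
          rw [show n + 2 = (n + 1) + 1 by ring, succ_nsmul, h5, neg_add_cancel]
      have hy : y ≠ 0 := by
        intro h0
        rw [h0] at h
        apply hP 2 (by norm_num)
        rw [two_nsmul]
        exact h.dbl_zero
      exact ⟨_, _, u, w, (3 * x ^ 2 + algebraMap F K a) / (2 * y), hr,
        Or.inr ⟨hux, hw, hy, div_mul_cancel₀ _ (mul_ne_zero two_ne_zero hy)⟩, rfl, rfl⟩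
    · exact ⟨_, _, u, w, (w - y) / (u - x), hr,
        Or.inl ⟨hux, div_mul_cancel₀ _ (sub_ne_zero.2 hux)⟩, rfl, rfl⟩

end

section dio

variable {K : Type} [Field K]

open FreeCommRing in
theorem dio_mulRel : ∀ n : ℕ, Dio K (fun v : Fin 5 → K => MulRel (v 0) n (v 1) (v 2) (v 3) (v 4))
  | 0 => by
    have h := (Dio.eq (K := K) (α := Fin 5) (of 3) (of 1)).and (Dio.eq (of 4) (of 2))
    refine h.congr fun v => ?_
    simp [MulRel]
  | n + 1 => by
    have hR : Dio K (fun v : Fin 5 ⊕ Fin 3 → K =>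
        MulRel (v (Sum.inl 0)) n (v (Sum.inl 1)) (v (Sum.inl 2)) (v (Sum.inr 0)) (v (Sum.inr 1))) :=
      (dio_mulRel n).comp (fun i : Fin 5 =>
        (![Sum.inl 0, Sum.inl 1, Sum.inl 2, Sum.inr 0, Sum.inr 1] : Fin 5 → Fin 5 ⊕ Fin 3) i)
    have h1 : Dio K (fun v : Fin 5 ⊕ Fin 3 → K => v (Sum.inr 0) ≠ v (Sum.inl 1)) :=
      (Dio.ne0 (K := K) (of (Sum.inr 0) - of (Sum.inl 1) : FreeCommRing (Fin 5 ⊕ Fin 3))).congr
        fun v => by simp [sub_eq_zero]
    have h2 : Dio K (fun v : Fin 5 ⊕ Fin 3 → K =>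
        v (Sum.inr 2) * (v (Sum.inr 0) - v (Sum.inl 1)) = v (Sum.inr 1) - v (Sum.inl 2)) :=
      (Dio.eq (K := K) (of (Sum.inr 2) * (of (Sum.inr 0) - of (Sum.inl 1)) :
        FreeCommRing (Fin 5 ⊕ Fin 3)) (of (Sum.inr 1) - of (Sum.inl 2))).congr fun v => by simp
    have h3 : Dio K (fun v : Fin 5 ⊕ Fin 3 → K => v (Sum.inr 0) = v (Sum.inl 1)) :=
      (Dio.eq (K := K) (of (Sum.inr 0) : FreeCommRing (Fin 5 ⊕ Fin 3)) (of (Sum.inl 1))).congr
        fun v => by simp
    have h4 : Dio K (fun v : Fin 5 ⊕ Fin 3 → K => v (Sum.inr 1) = v (Sum.inl 2)) :=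
      (Dio.eq (K := K) (of (Sum.inr 1) : FreeCommRing (Fin 5 ⊕ Fin 3)) (of (Sum.inl 2))).congr
        fun v => by simp
    have h5 : Dio K (fun v : Fin 5 ⊕ Fin 3 → K => v (Sum.inl 2) ≠ 0) :=
      (Dio.ne0 (K := K) (of (Sum.inl 2) : FreeCommRing (Fin 5 ⊕ Fin 3))).congr
        fun v => by simp
    have h6 : Dio K (fun v : Fin 5 ⊕ Fin 3 → K =>
        v (Sum.inr 2) * (2 * v (Sum.inl 2)) = 3 * v (Sum.inl 1) ^ 2 + v (Sum.inl 0)) :=
      (Dio.eq (K := K) (of (Sum.inr 2) * (2 * of (Sum.inl 2)) : FreeCommRing (Fin 5 ⊕ Fin 3))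
        (3 * of (Sum.inl 1) ^ 2 + of (Sum.inl 0))).congr fun v => by
          rw [map_mul, map_mul, map_add, map_mul, map_pow, map_ofNat, map_ofNat]; simp
    have h7 : Dio K (fun v : Fin 5 ⊕ Fin 3 → K =>
        v (Sum.inl 3) = v (Sum.inr 2) ^ 2 - v (Sum.inr 0) - v (Sum.inl 1)) :=
      (Dio.eq (K := K) (of (Sum.inl 3) : FreeCommRing (Fin 5 ⊕ Fin 3))
        (of (Sum.inr 2) ^ 2 - of (Sum.inr 0) - of (Sum.inl 1))).congr fun v => by simp
    have h8 : Dio K (fun v : Fin 5 ⊕ Fin 3 → K =>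
        v (Sum.inl 4) = v (Sum.inr 2) * (v (Sum.inr 0) - v (Sum.inl 3)) - v (Sum.inr 1)) :=
      (Dio.eq (K := K) (of (Sum.inl 4) : FreeCommRing (Fin 5 ⊕ Fin 3))
        (of (Sum.inr 2) * (of (Sum.inr 0) - of (Sum.inl 3)) - of (Sum.inr 1))).congr
          fun v => by simp
    have h := (hR.and (((h1.and h2).or (h3.and (h4.and (h5.and h6)))).and (h7.and h8))).exFin
    refine h.congr fun v => ?_
    simp only [MulRel, Sum.elim_inl, Sum.elim_inr]
    constructor
    · rintro ⟨w, h⟩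
      exact ⟨w 0, w 1, w 2, h⟩
    · rintro ⟨u, w, l, h⟩
      exact ⟨![u, w, l], h⟩

end dio

end Pool.Agent.H60.UDef
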