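import Pool.Agent.Lib.H60.UDef.Defs

/-!
Explicit coordinates for the group law on `y² = x³ + a x + b`.
-/

set_option autoImplicit false

open WeierstrassCurve WeierstrassCurve.Affine

namespace Pool.Agent.H60.UDef

section coords

variable {F K : Type} [Field F] [Field K] [Algebra F K] {a b : F}

theorem shortW_a₁ : ((shortW a b)⁄K).a₁ = 0 := by simp [shortW]
theorem shortW_a₂ : ((shortW a b)⁄K).a₂ = 0 := by simp [shortW]
theorem shortW_a₃ : ((shortW a b)⁄K).a₃ = 0 := by simp [shortW]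
theorem shortW_a₄ : ((shortW a b)⁄K).a₄ = algebraMap F K a := by simp [shortW]
theorem shortW_a₆ : ((shortW a b)⁄K).a₆ = algebraMap F K b := by simp [shortW]

theorem shortW_eqn (x y : K) : ((shortW a b)⁄K).Equation x y ↔
    y ^ 2 = x ^ 3 + algebraMap F K a * x + algebraMap F K b := by
  rw [equation_iff, shortW_a₁, shortW_a₂, shortW_a₃, shortW_a₄, shortW_a₆]
  constructor <;> intro h <;> linear_combination h

theorem shortW_Δ : ((shortW a b)⁄K).Δ
    = -16 * algebraMap F K (4 * a ^ 3 + 27 * b ^ 2) := by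
  rw [WeierstrassCurve.Δ, b₂, b₄, b₆, b₈, shortW_a₁, shortW_a₂, shortW_a₃, shortW_a₄, shortW_a₆]
  simp only [map_add, map_mul, map_pow, map_ofNat]
  ring

/-- `P` is the affine point `(x, y)`. -/
def IsAt (P : ((shortW a b)⁄K).Point) (x y : K) : Prop :=
  ∃ h, P = Point.some x y h

variable {P Q : ((shortW a b)⁄K).Point} {x y x₁ y₁ x₂ y₂ : K}

theorem isAt_some {x y x' y' : K} (h : ((shortW a b)⁄K).Nonsingular x y) (hx : x = x')
    (hy : y = y') : IsAt (Point.some x y h) x' y' := by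
  subst hx hy
  exact ⟨h, rfl⟩

theorem IsAt.eqn (h : IsAt P x y) : y ^ 2 = x ^ 3 + algebraMap F K a * x + algebraMap F K b := by
  obtain ⟨h, -⟩ := h
  exact (shortW_eqn x y).1 h.1

theorem IsAt.ne_zero (h : IsAt P x y) : P ≠ 0 := by
  obtain ⟨h, rfl⟩ := h
  exact Point.some_ne_zero h

theorem exists_isAt (h : P ≠ 0) : ∃ x y, IsAt P x y := by
  cases P with
  | zero => exact absurd rfl h
  | some x y h' => exact ⟨x, y, h', rfl⟩

theorem IsAt.unique (h : IsAt P x₁ y₁) (h' : IsAt P x₂ y₂) : x₁ = x₂ ∧ y₁ = y₂ := by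
  obtain ⟨h, rfl⟩ := h
  obtain ⟨h', he⟩ := h'
  simpa using he

theorem IsAt.ext (h : IsAt P x y) (h' : IsAt Q x y) : P = Q := by
  obtain ⟨h, rfl⟩ := h
  obtain ⟨h', rfl⟩ := h'
  rfl

theorem IsAt.neg (h : IsAt P x y) : IsAt (-P) x (-y) := by
  obtain ⟨h, rfl⟩ := h
  have h1 : ((shortW a b)⁄K).negY x y = -y := by
    rw [negY, shortW_a₁, shortW_a₃]; ring
  rw [Point.neg_some]
  exact isAt_some _ rfl h1

theorem isAt_of_eqn (hab : 4 * a ^ 3 + 27 * b ^ 2 ≠ 0) [CharZero K]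
    (h : y ^ 2 = x ^ 3 + algebraMap F K a * x + algebraMap F K b) :
    ∃ P : ((shortW a b)⁄K).Point, IsAt P x y := by
  have h1 : ((shortW a b)⁄K).Nonsingular x y := by
    rw [← equation_iff_nonsingular_of_Δ_ne_zero]
    · exact (shortW_eqn x y).2 h
    · rw [shortW_Δ]
      refine mul_ne_zero (by norm_num) ?_
      exact (map_ne_zero (algebraMap F K)).2 hab
  exact ⟨.some x y h1, h1, rfl⟩

variable [DecidableEq K]

theorem IsAt.add (h₁ : IsAt P x₁ y₁) (h₂ : IsAt Q x₂ y₂) (hx : x₁ ≠ x₂) :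
    IsAt (P + Q) (((y₁ - y₂) / (x₁ - x₂)) ^ 2 - x₁ - x₂)
      ((y₁ - y₂) / (x₁ - x₂) * (x₁ - (((y₁ - y₂) / (x₁ - x₂)) ^ 2 - x₁ - x₂)) - y₁) := by
  obtain ⟨h₁, rfl⟩ := h₁
  obtain ⟨h₂, rfl⟩ := h₂
  have e := Point.add_of_X_ne (h₁ := h₁) (h₂ := h₂) hx
  have hs : ((shortW a b)⁄K).slope x₁ x₂ y₁ y₂ = (y₁ - y₂) / (x₁ - x₂) := slope_of_X_ne hx
  have hX : ((shortW a b)⁄K).addX x₁ x₂ (((shortW a b)⁄K).slope x₁ x₂ y₁ y₂)
      = ((y₁ - y₂) / (x₁ - x₂)) ^ 2 - x₁ - x₂ := by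
    rw [addX, hs, shortW_a₁, shortW_a₂]; ring
  have hY : ((shortW a b)⁄K).addY x₁ x₂ y₁ (((shortW a b)⁄K).slope x₁ x₂ y₁ y₂)
      = (y₁ - y₂) / (x₁ - x₂) * (x₁ - (((y₁ - y₂) / (x₁ - x₂)) ^ 2 - x₁ - x₂)) - y₁ := by
    rw [addY, negAddY, negY, hX, hs, shortW_a₁, shortW_a₃]; ring
  rw [e]
  exact isAt_some _ hX hY

theorem IsAt.dbl [CharZero K] (h₁ : IsAt P x y) (hy : y ≠ 0) :
    IsAt (P + P) (((3 * x ^ 2 + algebraMap F K a) / (2 * y)) ^ 2 - x - x)
      ((3 * x ^ 2 + algebraMap F K a) / (2 * y) *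
        (x - (((3 * x ^ 2 + algebraMap F K a) / (2 * y)) ^ 2 - x - x)) - y) := by
  obtain ⟨h₁, rfl⟩ := h₁
  have hn : ((shortW a b)⁄K).negY x y = -y := by
    rw [negY, shortW_a₁, shortW_a₃]; ring
  have hy' : y ≠ ((shortW a b)⁄K).negY x y := by
    rw [hn]
    intro h
    apply hy
    have : 2 * y = 0 := by linear_combination h
    simpa using this
  have e := Point.add_self_of_Y_ne (h₁ := h₁) hy'
  have hs : ((shortW a b)⁄K).slope x x y y = (3 * x ^ 2 + algebraMap F K a) / (2 * y) := by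
    rw [slope_of_Y_ne rfl hy', hn, shortW_a₁, shortW_a₂, shortW_a₄]
    congr 1 <;> ring
  have hX : ((shortW a b)⁄K).addX x x (((shortW a b)⁄K).slope x x y y)
      = ((3 * x ^ 2 + algebraMap F K a) / (2 * y)) ^ 2 - x - x := by
    rw [addX, hs, shortW_a₁, shortW_a₂]; ring
  have hY : ((shortW a b)⁄K).addY x x y (((shortW a b)⁄K).slope x x y y)
      = (3 * x ^ 2 + algebraMap F K a) / (2 * y) *
        (x - (((3 * x ^ 2 + algebraMap F K a) / (2 * y)) ^ 2 - x - x)) - y := by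
    rw [addY, negAddY, negY, hX, hs, shortW_a₁, shortW_a₃]; ring
  rw [e]
  exact isAt_some _ hX hY

theorem IsAt.dbl_zero (h₁ : IsAt P x 0) : P + P = 0 := by
  obtain ⟨h₁, rfl⟩ := h₁
  apply Point.add_self_of_Y_eq
  rw [negY, shortW_a₁, shortW_a₃]; ring

end coords

end Pool.Agent.H60.UDef
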