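import Pool.Agent.Lib.H60.UDef.ParamRel

/-!
Restriction of scalars for Diophantine sets in finite extensions.
-/

set_option autoImplicit false

open Module

namespace Pool.Agent.H60.UDef

section

variable {K L : Type} [Field K] [Field L] [Algebra K L] {n : ℕ} (e : Basis (Fin n) K L)
  {α β : Type}

/-- The point with given coordinates. -/
noncomputable def asm (v : β × Fin n → K) (b : β) : L := ∑ i, v (b, i) • e i

theorem repr_asm (v : β × Fin n → K) (b : β) (i : Fin n) : e.repr (asm e v b) i = v (b, i) := by
  simp [asm, Finsupp.single_apply]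

theorem asm_repr (y : β → L) : asm e (fun bi => e.repr (y bi.1) bi.2) = y := by
  ext b
  exact e.sum_repr (y b)

theorem pf_coord (q : FreeCommRing β) (j : Fin n) :
    PF (fun v : β × Fin n → K => e.repr (FreeCommRing.lift (asm e v) q) j) := by
  induction q using FreeCommRing.induction_on generalizing j with
  | neg_one => exact (PF.const (e.repr (-1) j)).congr fun v => by simp
  | of b => exact (PF.var (b, j)).congr fun v => by rw [FreeCommRing.lift_of, repr_asm]
  | add x y hx hy => exact ((hx j).add (hy j)).congr fun v => by simp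
  | mul x y hx hy =>
    have h : PF (fun v : β × Fin n → K => ∑ k, ∑ l, e.repr (FreeCommRing.lift (asm e v) x) k *
        e.repr (FreeCommRing.lift (asm e v) y) l * e.repr (e k * e l) j) :=
      PF.sum _ fun k => PF.sum _ fun l => ((hx k).mul (hy l)).mul (PF.const _)
    refine h.congr fun v => ?_
    rw [map_mul]
    conv_rhs => rw [← e.sum_repr (FreeCommRing.lift (asm e v) x),
      ← e.sum_repr (FreeCommRing.lift (asm e v) y)]
    rw [Finset.sum_mul_sum, map_sum, Finsupp.coe_finsetSum, Finset.sum_apply]
    refine Finset.sum_congr rfl fun k _ => ?_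
    rw [map_sum, Finsupp.coe_finsetSum, Finset.sum_apply]
    refine Finset.sum_congr rfl fun l _ => ?_
    rw [smul_mul_smul_comm, map_smul, Finsupp.smul_apply, smul_eq_mul]

theorem dioR_eq0 (q : FreeCommRing β) :
    DioR K (fun v : β × Fin n → K => FreeCommRing.lift (asm e v) q = 0) := by
  have h : DioR K (fun v : β × Fin n → K => ∀ j, e.repr (FreeCommRing.lift (asm e v) q) j = 0) :=
    DioR.forall_fintype fun j => DioR.eq (pf_coord e q j) (PF.const 0)
  refine h.congr fun v => ?_
  constructor
  · intro h
    apply e.repr.injective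
    ext j
    rw [h j, map_zero, Finsupp.zero_apply]
  · intro h j
    rw [h, map_zero, Finsupp.zero_apply]

theorem dioR_list (Q : List (FreeCommRing β)) :
    DioR K (fun v : β × Fin n → K => ∀ q ∈ Q, FreeCommRing.lift (asm e v) q = 0) := by
  induction Q with
  | nil => exact DioR.true.congr fun v => by simp
  | cons q Q ih => exact ((dioR_eq0 e q).and ih).congr fun v => by simp

theorem Dio.restrict {P : (α → L) → Prop} (h : Dio L P) :
    DioR K (fun v : α × Fin n → K => P (asm e v)) := by
  obtain ⟨m, Q, hQ⟩ := h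
  let r : (α ⊕ Fin m) × Fin n → (α × Fin n) ⊕ (Fin m × Fin n) := fun x =>
    x.1.elim (fun a => Sum.inl (a, x.2)) (fun i => Sum.inr (i, x.2))
  have h1 := ((dioR_list e Q).comp r).ex
  refine h1.congr fun v => ?_
  rw [hQ]
  have key : ∀ w : Fin m × Fin n → K, asm e ((Sum.elim v w : (α × Fin n) ⊕ (Fin m × Fin n) → K) ∘ r)
      = Sum.elim (asm e v) (asm e w) := by
    intro w
    ext (a | i) <;> simp [asm, r]
  constructor
  · rintro ⟨w, hw⟩
    refine ⟨asm e w, ?_⟩
    rw [← key]
    exact hw
  · rintro ⟨y, hy⟩
    refine ⟨fun bi => e.repr (y bi.1) bi.2, ?_⟩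
    rw [key, asm_repr]
    exact hy

include e in
theorem DioP.restrict_aux {X : L → Prop} (h : DioP L X) :
    DioP K (fun x => X (algebraMap K L x)) := by
  obtain ⟨γ, hγ, D, c, hD, hX⟩ := h
  have h1 := (hD.restrict e).subst (α := Fin 1) (φ := fun bi v =>
    bi.1.elim (fun _ => v 0 * e.repr 1 bi.2) (fun g => e.repr (c g) bi.2)) (by
    rintro ⟨(a | g), i⟩
    · exact (PF.var 0).mul (PF.const _)
    · exact PF.const _)
  refine h1.dioP.congr fun x => ?_
  rw [hX]
  have : asm e (fun b : (Fin 1 ⊕ γ) × Fin n =>
      (Sum.elim (fun _ => x * e.repr 1 b.2) (fun g => e.repr (c g) b.2) b.1 : K))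
      = Sum.elim (fun _ => algebraMap K L x) c := by
    ext (a | g)
    · simp only [asm, Sum.elim_inl]
      have h2 : algebraMap K L x = x • (1 : L) := Algebra.algebraMap_eq_smul_one x
      rw [h2]
      conv_rhs => rw [← e.sum_repr (1 : L)]
      rw [Finset.smul_sum]
      exact Finset.sum_congr rfl fun i _ => by rw [mul_smul]
    · simp only [asm, Sum.elim_inr]
      exact e.sum_repr (c g)
  rw [← this]

end

theorem DioP.restrict (K L : Type) [Field K] [Field L] [Algebra K L] [FiniteDimensional K L]
    {X : L → Prop} (h : DioP L X) : DioP K (fun x => X (algebraMap K L x)) :=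
  DioP.restrict_aux (finBasis K L) h

end Pool.Agent.H60.UDef
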