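import Pool.Agent.Lib.H60.UDef.Subfield
import Pool.Agent.Lib.H60.UDef.Restrict
import Pool.Agent.Lib.H60.UDef.SplitPrime

/-!
The rational numbers are universally definable in number fields with enough rank-stable subfields.
-/

set_option autoImplicit false

open FirstOrder Module

namespace Pool.Agent.H60.UDef

section

variable {K : Type} [Field K]

instance [NumberField K] : Finite (Subfield K) := by
  have : Finite (IntermediateField ℚ K) :=
    Field.finite_intermediateField_of_exists_primitive_element ℚ K
      (Field.exists_primitive_element ℚ K)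
  let f : Subfield K → IntermediateField ℚ K := fun S =>
    S.toIntermediateField fun q => by simp
  have hf : Function.Injective f := by
    intro S T h
    ext x
    have : x ∈ f S ↔ x ∈ f T := by rw [h]
    exact this
  exact Finite.of_injective f hf

theorem aux_of_rankStable (hA : ∀ p : ℕ, p.Prime → p ≠ 2 → ∃ l₁ l₂ : ℕ, GoodPrime p l₁ l₂)
    [NumberField K] {F : Type} [Field F] [Algebra F K] (h : RankStable F K) :
    DioP K (fun x => ¬ ∃ c : F, algebraMap F K c = x) := by
  obtain ⟨p, hp, h2, hs⟩ := exists_splits K 2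
  obtain ⟨l₁, l₂, hg⟩ := hA p hp.out (by omega)
  exact RankStable.dioP_aux h hs hg

theorem dio_not_rat_aux (hA : ∀ p : ℕ, p.Prime → p ≠ 2 → ∃ l₁ l₂ : ℕ, GoodPrime p l₁ l₂)
    (K L : Type) [Field K] [NumberField K] [Field L] [NumberField L] [Algebra K L]
    (h : ∀ x : K, (∀ (F : Type) [Field F] [Algebra F L], RankStable F L →
      ∃ c : F, algebraMap F L c = algebraMap K L x) → ∃ q : ℚ, (q : K) = x) :
    Dio K (fun v : Fin 1 → K => ¬ ∃ q : ℚ, (q : K) = v 0) := by
  classical
  let Good : Subfield L → Prop := fun E => ∃ (F : Type) (_ : Field F) (_ : Algebra F L),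
    RankStable F L ∧ ∀ y : L, (∃ c : F, algebraMap F L c = y) ↔ y ∈ E
  have h1 : ∀ E : Subfield L, DioP L (fun y => Good E ∧ y ∉ E) := by
    intro E
    by_cases hE : Good E
    · obtain ⟨F, _, _, hF, hmem⟩ := id hE
      refine (aux_of_rankStable hA hF).congr fun y => ?_
      rw [hmem y]
      exact ⟨fun hy => ⟨hE, hy⟩, fun hy => hy.2⟩
    · exact (DioR.false.dioP).congr fun y => by simp [hE]
  have h2 : DioP L (fun y => ∃ E : Subfield L, Good E ∧ y ∉ E) := DioP.exists_fintype h1
  have h3 := DioP.restrict K L h2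
  have h4 : DioP K (fun x => ¬ ∃ q : ℚ, (q : K) = x) := by
    refine h3.congr fun x => ?_
    constructor
    · rintro ⟨E, -, hE⟩ ⟨q, rfl⟩
      apply hE
      rw [map_ratCast]
      exact SubfieldClass.ratCast_mem E q
    · intro hx
      by_contra hcon
      push Not at hcon
      apply hx
      apply h x
      intro F _ _ hF
      have hgood : Good (algebraMap F L).fieldRange := ⟨F, _, _, hF, fun y => by simp⟩
      have h5 := hcon _ hgood
      exact RingHom.mem_fieldRange.1 h5
  exact h4.elim fun σ x hx ⟨q, hq⟩ => hx ⟨q, σ.injective (by rw [map_ratCast, hq])⟩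

end

section formula

variable {K : Type} [Field K] [FirstOrder.Ring.CompatibleRing K]

/-- Terms are polynomials. -/
theorem exists_poly_of_term {α : Type} (t : Language.ring.Term α) :
    ∃ g : FreeCommRing α, ∀ v : α → K, t.realize v = FreeCommRing.lift v g := by
  induction t with
  | var a => exact ⟨FreeCommRing.of a, fun v => by simp⟩
  | func f ts ih =>
    choose g hg using ih
    cases f with
    | add =>
      refine ⟨g 0 + g 1, fun v => ?_⟩
      simp only [Language.Term.realize, map_add, ← hg]
      rw [FirstOrder.Ring.CompatibleRing.funMap_add]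
    | mul =>
      refine ⟨g 0 * g 1, fun v => ?_⟩
      simp only [Language.Term.realize, map_mul, ← hg]
      rw [FirstOrder.Ring.CompatibleRing.funMap_mul]
    | neg =>
      refine ⟨-g 0, fun v => ?_⟩
      simp only [Language.Term.realize, map_neg, ← hg]
      rw [FirstOrder.Ring.CompatibleRing.funMap_neg]
    | zero =>
      refine ⟨0, fun v => ?_⟩
      simp only [Language.Term.realize, map_zero]
      rw [FirstOrder.Ring.CompatibleRing.funMap_zero]
    | one =>
      refine ⟨1, fun v => ?_⟩
      simp only [Language.Term.realize, map_one]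
      rw [FirstOrder.Ring.CompatibleRing.funMap_one]

theorem dio_of_isQF {α : Type} {m : ℕ} {φ : Language.ring.BoundedFormula α m} (h : φ.IsQF) :
    Dio K (fun v : α ⊕ Fin m → K => φ.Realize (v ∘ Sum.inl) (v ∘ Sum.inr)) ∧
      Dio K (fun v : α ⊕ Fin m → K => ¬ φ.Realize (v ∘ Sum.inl) (v ∘ Sum.inr)) := by
  induction h with
  | falsum =>
    exact ⟨Dio.false.congr fun v => by simp [Language.BoundedFormula.Realize],
      Dio.true.congr fun v => by simp [Language.BoundedFormula.Realize]⟩
  | of_isAtomic h =>
    cases h with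
    | equal t₁ t₂ =>
      obtain ⟨g₁, hg₁⟩ := exists_poly_of_term (K := K) t₁
      obtain ⟨g₂, hg₂⟩ := exists_poly_of_term (K := K) t₂
      have e : ∀ v : α ⊕ Fin m → K, Sum.elim (v ∘ Sum.inl) (v ∘ Sum.inr) = v := fun v => by
        ext (a | i) <;> rfl
      constructor
      · refine (Dio.eq (K := K) g₁ g₂).congr fun v => ?_
        rw [Language.BoundedFormula.realize_bdEqual, e, hg₁, hg₂]
      · refine (Dio.ne0 (K := K) (g₁ - g₂)).congr fun v => ?_
        rw [Language.BoundedFormula.realize_bdEqual, e, hg₁, hg₂, map_sub, sub_ne_zero]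
    | rel R ts => exact R.elim
  | imp _ _ h1 h2 =>
    constructor
    · refine (h1.2.or h2.1).congr fun v => ?_
      rw [Language.BoundedFormula.realize_imp]
      tauto
    · refine (h1.1.and h2.2).congr fun v => ?_
      rw [Language.BoundedFormula.realize_imp]
      tauto

theorem dio_of_isUniversal {α : Type} {m : ℕ} {φ : Language.ring.BoundedFormula α m}
    (h : φ.IsUniversal) :
    Dio K (fun v : α ⊕ Fin m → K => ¬ φ.Realize (v ∘ Sum.inl) (v ∘ Sum.inr)) := by
  induction h with
  | of_isQF h => exact (dio_of_isQF h).2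
  | all h ih =>
    rename_i n ψ
    let r : α ⊕ Fin (n + 1) → (α ⊕ Fin n) ⊕ Fin 1 :=
      Sum.elim (fun a => Sum.inl (Sum.inl a))
        (Fin.lastCases (Sum.inr 0) (fun i => Sum.inl (Sum.inr i)))
    have h1 := (ih.comp r).exFin
    refine h1.congr fun v => ?_
    have key : ∀ w : Fin 1 → K, (((Sum.elim v w : (α ⊕ Fin n) ⊕ Fin 1 → K) ∘ r) ∘ Sum.inl = v ∘ Sum.inl)
        ∧ (((Sum.elim v w : (α ⊕ Fin n) ⊕ Fin 1 → K) ∘ r) ∘ Sum.inr
          = Fin.snoc (α := fun _ => K) (v ∘ Sum.inr) (w 0)) := by
      intro w
      constructor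
      · ext a; simp [r]
      · ext i
        refine Fin.lastCases ?_ (fun i => ?_) i
        · simp [r]
        · simp [r]
    simp only [Language.BoundedFormula.realize_all]
    push Not
    constructor
    · rintro ⟨w, hw⟩
      refine ⟨w 0, ?_⟩
      rw [(key w).1, (key w).2] at hw
      exact hw
    · rintro ⟨a, ha⟩
      refine ⟨fun _ => a, ?_⟩
      rw [(key _).1, (key _).2]
      exact ha

end formula

end Pool.Agent.H60.UDef
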