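import Pool.Agent.Lib.H60.UDef.Formulas

/-!
Multiples of a point of infinite order come arbitrarily close to the origin, over any locally
compact field of characteristic zero.
-/

set_option autoImplicit false

open WeierstrassCurve WeierstrassCurve.Affine Filter Topology

namespace Pool.Agent.H60.UDef

section

variable {F : Type} [Field F] [DecidableEq F] {𝕜 : Type} [NontriviallyNormedField 𝕜]
  [CharZero 𝕜] (ρ : F →+* 𝕜) {a b : F}

omit [DecidableEq F] [CharZero 𝕜] in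
theorem norm_eqn {Q : ((shortW a b)⁄F).Point} {x y : F} (h : IsAt Q x y) :
    ρ y ^ 2 = ρ x ^ 3 + ρ a * ρ x + ρ b := by
  have := congrArg ρ h.eqn
  simpa using this

theorem unbounded_multiples_norm [ProperSpace 𝕜] (hab : 4 * a ^ 3 + 27 * b ^ 2 ≠ 0)
    (P : ((shortW a b)⁄F).Point) (hP : ∀ n : ℕ, 0 < n → n • P ≠ 0) (M : ℝ) :
    ∃ n : ℕ, 0 < n ∧ ∃ x y : F, IsAt (n • P) x y ∧ M < ‖ρ x‖ := by
  classical
  have hc : CharZero F := RingHom.charZero ρ
  by_contra hcon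
  push Not at hcon
  have hex : ∀ n : ℕ, ∃ xy : F × F, IsAt ((n + 1) • P) xy.1 xy.2 := fun n => by
    obtain ⟨x, y, h⟩ := exists_isAt (hP (n + 1) n.succ_pos)
    exact ⟨(x, y), h⟩
  choose xy hxy using hex
  set A : 𝕜 := ρ a with hA
  set B : 𝕜 := ρ b with hB
  have heq : ∀ {Q : ((shortW a b)⁄F).Point} {x y : F}, IsAt Q x y →
      ρ y ^ 2 = ρ x ^ 3 + A * ρ x + B := fun h => norm_eqn ρ h
  have hbX : ∀ n, ‖ρ (xy n).1‖ ≤ M := fun n => hcon (n + 1) n.succ_pos _ _ (hxy n)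
  have hM0 : 0 ≤ M := (norm_nonneg _).trans (hbX 0)
  set E : ℝ := M ^ 3 + ‖A‖ * M + ‖B‖ with hE
  have hE0 : 0 ≤ E := by positivity
  have hbY : ∀ n, ‖ρ (xy n).2‖ ≤ E + 1 := by
    intro n
    have h1 := heq (hxy n)
    have h2 : ‖ρ (xy n).1 ^ 3 + A * ρ (xy n).1 + B‖ ≤ E := by
      refine (norm_add_le _ _).trans ?_
      refine add_le_add ((norm_add_le _ _).trans ?_) le_rfl
      rw [norm_pow, norm_mul]
      exact add_le_add (pow_le_pow_left₀ (norm_nonneg _) (hbX n) 3)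
        (mul_le_mul_of_nonneg_left (hbX n) (norm_nonneg _))
    rw [← h1, norm_pow] at h2
    nlinarith [norm_nonneg (ρ (xy n).2)]
  have hcomp : IsCompact (Metric.closedBall (0 : 𝕜 × 𝕜) (max M (E + 1))) :=
    isCompact_closedBall _ _
  obtain ⟨L, -, φ, hφ, hlim⟩ := hcomp.tendsto_subseq (x := fun n => (ρ (xy n).1, ρ (xy n).2)) (by
    intro n
    rw [mem_closedBall_zero_iff, Prod.norm_def]
    exact max_le_max (hbX n) (hbY n))
  have hX : Tendsto (fun k => ρ (xy (φ k)).1) atTop (𝓝 L.1) :=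
    (continuous_fst.tendsto L).comp hlim
  have hY : Tendsto (fun k => ρ (xy (φ k)).2) atTop (𝓝 L.2) :=
    (continuous_snd.tendsto L).comp hlim
  have hX' : Tendsto (fun k => ρ (xy (φ (k + 1))).1) atTop (𝓝 L.1) :=
    (tendsto_add_atTop_iff_nat (f := fun k => ρ (xy (φ k)).1) 1).2 hX
  have hY' : Tendsto (fun k => ρ (xy (φ (k + 1))).2) atTop (𝓝 L.2) :=
    (tendsto_add_atTop_iff_nat (f := fun k => ρ (xy (φ k)).2) 1).2 hY
  by_cases hL : L.2 = 0
  · -- doubling
    have hineq : ∀ k, ‖3 * ρ (xy (φ k)).1 ^ 2 + A‖ ^ 2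
        ≤ (M + ‖ρ (xy (φ k)).1‖ + ‖ρ (xy (φ k)).1‖) * ‖2 * ρ (xy (φ k)).2‖ ^ 2 := by
      intro k
      have hat := hxy (φ k)
      have hy0 : (xy (φ k)).2 ≠ 0 := by
        intro h0
        rw [h0] at hat
        have h1 := hat.dbl_zero
        rw [← two_nsmul, smul_smul] at h1
        exact hP (2 * (φ k + 1)) (by omega) h1
      have h2 := hat.dbl hy0
      rw [← two_nsmul, smul_smul] at h2
      have h3 := hcon _ (by omega) _ _ h2
      simp only [map_sub, map_pow, map_div₀, map_add, map_mul, map_ofNat, Algebra.algebraMap_self,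
        RingHom.id_apply] at h3
      have hy1 : ρ (xy (φ k)).2 ≠ 0 := (map_ne_zero ρ).2 hy0
      have hy2 : 0 < ‖2 * ρ (xy (φ k)).2‖ ^ 2 := by
        have : 2 * ρ (xy (φ k)).2 ≠ 0 := mul_ne_zero two_ne_zero hy1
        positivity
      have h4 : ‖((3 * ρ (xy (φ k)).1 ^ 2 + A) / (2 * ρ (xy (φ k)).2)) ^ 2‖
          ≤ M + ‖ρ (xy (φ k)).1‖ + ‖ρ (xy (φ k)).1‖ := by
        have e : ((3 * ρ (xy (φ k)).1 ^ 2 + A) / (2 * ρ (xy (φ k)).2)) ^ 2
            = (((3 * ρ (xy (φ k)).1 ^ 2 + A) / (2 * ρ (xy (φ k)).2)) ^ 2 - ρ (xy (φ k)).1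
              - ρ (xy (φ k)).1) + ρ (xy (φ k)).1 + ρ (xy (φ k)).1 := by ring
        rw [e]
        refine (norm_add_le _ _).trans (add_le_add ((norm_add_le _ _).trans
          (add_le_add h3 le_rfl)) le_rfl)
      rw [norm_pow, norm_div, div_pow, div_le_iff₀ hy2] at h4
      exact h4
    have hlim2 : ‖3 * L.1 ^ 2 + A‖ ^ 2 ≤ (M + ‖L.1‖ + ‖L.1‖) * ‖2 * L.2‖ ^ 2 := by
      refine le_of_tendsto_of_tendsto' (f := fun k => ‖3 * ρ (xy (φ k)).1 ^ 2 + A‖ ^ 2)
        (g := fun k => (M + ‖ρ (xy (φ k)).1‖ + ‖ρ (xy (φ k)).1‖) * ‖2 * ρ (xy (φ k)).2‖ ^ 2)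
        (b := atTop) ?_ ?_ hineq
      · exact ((((hX.pow 2).const_mul 3).add_const A).norm).pow 2
      · exact ((hX.norm.const_add M).add hX.norm).mul (((hY.const_mul 2).norm).pow 2)
    have heqlim : L.2 ^ 2 = L.1 ^ 3 + A * L.1 + B := by
      refine tendsto_nhds_unique (f := fun k => ρ (xy (φ k)).2 ^ 2) (hY.pow 2) ?_
      have : (fun k => ρ (xy (φ k)).2 ^ 2)
          = fun k => ρ (xy (φ k)).1 ^ 3 + A * ρ (xy (φ k)).1 + B := by
        ext k
        exact heq (hxy (φ k))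
      rw [this]
      exact ((hX.pow 3).add (hX.const_mul A)).add_const B
    rw [hL] at hlim2 heqlim
    have h1 : ‖3 * L.1 ^ 2 + A‖ ^ 2 = 0 := by
      refine le_antisymm ?_ (sq_nonneg _)
      simpa using hlim2
    have h2 : A = -3 * L.1 ^ 2 := by
      have h3 := pow_eq_zero_iff (two_ne_zero) |>.1 h1
      rw [norm_eq_zero] at h3
      linear_combination h3
    have h3 : B = 2 * L.1 ^ 3 := by
      rw [h2] at heqlim
      linear_combination -heqlim
    apply hab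
    apply ρ.injective
    simp only [map_add, map_mul, map_pow, map_ofNat, map_zero]
    rw [← hA, ← hB, h2, h3]
    ring
  · -- differences
    have hev : ∀ᶠ k in atTop, ρ (xy (φ (k + 1))).2 + ρ (xy (φ k)).2 ≠ 0 := by
      have h1 : Tendsto (fun k => ρ (xy (φ (k + 1))).2 + ρ (xy (φ k)).2) atTop (𝓝 (L.2 + L.2)) :=
        hY'.add hY
      exact h1.eventually_ne (by
        intro h
        apply hL
        have h2 : (2 : 𝕜) * L.2 = 0 := by linear_combination h
        exact (mul_eq_zero.1 h2).resolve_left two_ne_zero)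
    have hineq : ∀ᶠ k in atTop, ‖ρ (xy (φ (k + 1))).2 + ρ (xy (φ k)).2‖ ^ 2
        ≤ (M + ‖ρ (xy (φ (k + 1))).1‖ + ‖ρ (xy (φ k)).1‖)
          * ‖ρ (xy (φ (k + 1))).1 - ρ (xy (φ k)).1‖ ^ 2 := by
      filter_upwards [hev] with k hk
      have hlt : φ k < φ (k + 1) := hφ (Nat.lt_succ_self k)
      have hat1 := hxy (φ (k + 1))
      have hat2 := (hxy (φ k)).neg
      have hsum : (φ (k + 1) + 1) • P + -((φ k + 1) • P) = (φ (k + 1) - φ k) • P := by
        rw [← sub_eq_add_neg, sub_eq_iff_eq_add, ← add_smul]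
        congr 1
        omega
      have hxne : (xy (φ (k + 1))).1 ≠ (xy (φ k)).1 := by
        intro hx
        have e1 := hat1.eqn
        have e2 := (hxy (φ k)).eqn
        rw [hx] at e1
        have e3 : ((xy (φ (k + 1))).2 - (xy (φ k)).2) * ((xy (φ (k + 1))).2 + (xy (φ k)).2) = 0 := by
          linear_combination e1 - e2
        rcases mul_eq_zero.1 e3 with h | h
        · have h4 : IsAt ((φ k + 1) • P) (xy (φ (k + 1))).1 (xy (φ (k + 1))).2 := by
            have := hxy (φ k)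
            rw [← hx, ← sub_eq_zero.1 h] at this
            exact this
          have h5 := hat1.ext h4
          have h6 : (φ (k + 1) - φ k) • P = 0 := by
            rw [← hsum, h5, add_neg_cancel]
          exact hP _ (by omega) h6
        · apply hk
          rw [← map_add, h, map_zero]
      have h2 := hat1.add hat2 hxne
      rw [hsum] at h2
      have h3 := hcon _ (by omega) _ _ h2
      simp only [map_sub, map_pow, map_div₀, sub_neg_eq_add, map_add] at h3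
      have hne : ρ (xy (φ (k + 1))).1 - ρ (xy (φ k)).1 ≠ 0 := by
        rw [← map_sub]
        exact (map_ne_zero ρ).2 (sub_ne_zero.2 hxne)
      have hpos : 0 < ‖ρ (xy (φ (k + 1))).1 - ρ (xy (φ k)).1‖ ^ 2 := by positivity
      have h4 : ‖((ρ (xy (φ (k + 1))).2 + ρ (xy (φ k)).2) /
          (ρ (xy (φ (k + 1))).1 - ρ (xy (φ k)).1)) ^ 2‖
          ≤ M + ‖ρ (xy (φ (k + 1))).1‖ + ‖ρ (xy (φ k)).1‖ := by
        have e : ((ρ (xy (φ (k + 1))).2 + ρ (xy (φ k)).2) /
            (ρ (xy (φ (k + 1))).1 - ρ (xy (φ k)).1)) ^ 2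
            = (((ρ (xy (φ (k + 1))).2 + ρ (xy (φ k)).2) /
            (ρ (xy (φ (k + 1))).1 - ρ (xy (φ k)).1)) ^ 2 - ρ (xy (φ (k + 1))).1
              - ρ (xy (φ k)).1) + ρ (xy (φ (k + 1))).1 + ρ (xy (φ k)).1 := by ring
        rw [e]
        refine (norm_add_le _ _).trans (add_le_add ((norm_add_le _ _).trans
          (add_le_add h3 le_rfl)) le_rfl)
      rw [norm_pow, norm_div, div_pow, div_le_iff₀ hpos] at h4
      exact h4
    have hlim2 : ‖L.2 + L.2‖ ^ 2 ≤ (M + ‖L.1‖ + ‖L.1‖) * ‖L.1 - L.1‖ ^ 2 := by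
      refine le_of_tendsto_of_tendsto
        (f := fun k => ‖ρ (xy (φ (k + 1))).2 + ρ (xy (φ k)).2‖ ^ 2)
        (g := fun k => (M + ‖ρ (xy (φ (k + 1))).1‖ + ‖ρ (xy (φ k)).1‖)
          * ‖ρ (xy (φ (k + 1))).1 - ρ (xy (φ k)).1‖ ^ 2) (b := atTop) ?_ ?_ hineq
      · exact ((hY'.add hY).norm).pow 2
      · exact ((hX'.norm.const_add M).add hX.norm).mul ((hX'.sub hX).norm.pow 2)
    rw [sub_self, norm_zero] at hlim2
    apply hL
    have h5 : ‖L.2 + L.2‖ ^ 2 = 0 := le_antisymm (by simpa using hlim2) (sq_nonneg _)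
    have h6 := pow_eq_zero_iff (two_ne_zero) |>.1 h5
    rw [norm_eq_zero] at h6
    have h2 : (2 : 𝕜) * L.2 = 0 := by linear_combination h6
    exact (mul_eq_zero.1 h2).resolve_left two_ne_zero

end

end Pool.Agent.H60.UDef
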