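import Pool.Agent.Lib.H60.UDef.NormDensity

/-!
Asymptotics of the multiples of points near infinity and density of ratios of x-coordinates, over
a locally compact field of characteristic zero in which the rationals are dense.
-/

set_option autoImplicit false

open WeierstrassCurve WeierstrassCurve.Affine Filter Topology

namespace Pool.Agent.H60.UDef

theorem tendsto_inv_norm {𝕜 : Type} [NontriviallyNormedField 𝕜] {f : ℕ → 𝕜}
    (hf : Tendsto (fun i => ‖f i‖) atTop atTop) : Tendsto (fun i => (f i)⁻¹) atTop (𝓝 0) := by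
  rw [tendsto_zero_iff_norm_tendsto_zero]
  simp only [norm_inv]
  exact tendsto_inv_atTop_zero.comp hf

theorem eventually_ne_norm {𝕜 : Type} [NontriviallyNormedField 𝕜] {f : ℕ → 𝕜}
    (hf : Tendsto (fun i => ‖f i‖) atTop atTop) : ∀ᶠ i in atTop, f i ≠ 0 := by
  filter_upwards [hf.eventually_gt_atTop 0] with i hi
  exact norm_pos_iff.1 hi

section

variable {F : Type} [Field F] [DecidableEq F] {𝕜 : Type} [NontriviallyNormedField 𝕜]
  [CharZero 𝕜] (ρ : F →+* 𝕜) {a b : F}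

variable {P : ℕ → ((shortW a b)⁄F).Point} {x y : ℕ → F}

omit [DecidableEq F] [CharZero 𝕜] in
theorem ratio_sq_norm (hP : ∀ i, IsAt (P i) (x i) (y i))
    (hx : Tendsto (fun i => ‖ρ (x i)‖) atTop atTop) :
    Tendsto (fun i => ρ (y i) ^ 2 / ρ (x i) ^ 3) atTop (𝓝 1) := by
  have hinv : Tendsto (fun i => (ρ (x i))⁻¹) atTop (𝓝 0) := tendsto_inv_norm hx
  have h1 : Tendsto (fun i => 1 + ρ a * ((ρ (x i))⁻¹) ^ 2 + ρ b * ((ρ (x i))⁻¹) ^ 3) atTop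
      (𝓝 (1 + ρ a * 0 ^ 2 + ρ b * 0 ^ 3)) :=
    (((hinv.pow 2).const_mul (ρ a)).const_add 1).add ((hinv.pow 3).const_mul (ρ b))
  have h2 : (1 : 𝕜) + ρ a * 0 ^ 2 + ρ b * 0 ^ 3 = 1 := by ring
  rw [h2] at h1
  refine h1.congr' ?_
  filter_upwards [eventually_ne_norm hx] with i hi
  rw [norm_eqn ρ (hP i)]
  field_simp

/-- Multiples of points tending to infinity. -/
theorem multiples_asymp_norm (hP : ∀ i, IsAt (P i) (x i) (y i))
    (hx : Tendsto (fun i => ‖ρ (x i)‖) atTop atTop) (hy : ∀ᶠ i in atTop, ρ (y i) ≠ 0) :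
    ∀ k : ℕ, 1 ≤ k → ∃ x' y' : ℕ → F, (∀ᶠ i in atTop, IsAt (k • P i) (x' i) (y' i)) ∧
      Tendsto (fun i => ρ (x' i) / ρ (x i)) atTop (𝓝 (1 / (k : 𝕜) ^ 2)) ∧
      Tendsto (fun i => ρ (y' i) / ρ (y i)) atTop (𝓝 (1 / (k : 𝕜) ^ 3)) := by
  have hc : CharZero F := RingHom.charZero ρ
  have hxpos : ∀ᶠ i in atTop, ρ (x i) ≠ 0 := eventually_ne_norm hx
  have hinv : Tendsto (fun i => (ρ (x i))⁻¹) atTop (𝓝 0) := tendsto_inv_norm hx
  have hr := ratio_sq_norm ρ hP hx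
  have hr' : Tendsto (fun i => ρ (x i) ^ 3 / ρ (y i) ^ 2) atTop (𝓝 1) := by
    have := hr.inv₀ one_ne_zero
    rw [inv_one] at this
    exact this.congr fun i => by rw [inv_div]
  intro k hk
  induction k, hk using Nat.le_induction with
  | base =>
    refine ⟨x, y, Eventually.of_forall fun i => by simpa using hP i, ?_, ?_⟩
    · rw [Nat.cast_one, one_pow, div_one]
      refine tendsto_const_nhds.congr' ?_
      filter_upwards [hxpos] with i hi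
      rw [div_self hi]
    · rw [Nat.cast_one, one_pow, div_one]
      refine tendsto_const_nhds.congr' ?_
      filter_upwards [hy] with i hi
      rw [div_self hi]
  | succ k hk ih =>
    obtain ⟨x', y', hat, hX, hY⟩ := ih
    rcases Nat.eq_or_lt_of_le hk with h1 | h1
    · -- doubling
      subst h1
      refine ⟨fun i => ((3 * x i ^ 2 + a) / (2 * y i)) ^ 2 - x i - x i,
        fun i => (3 * x i ^ 2 + a) / (2 * y i) *
          (x i - (((3 * x i ^ 2 + a) / (2 * y i)) ^ 2 - x i - x i)) - y i, ?_, ?_, ?_⟩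
      · filter_upwards [hy] with i hi
        have hyi : y i ≠ 0 := fun h => hi (by rw [h, map_zero])
        have := (hP i).dbl hyi
        rw [← two_nsmul] at this
        simpa only [Algebra.algebraMap_self, RingHom.id_apply] using this
      · have h2 : Tendsto (fun i => (3 + ρ a * ((ρ (x i))⁻¹) ^ 2) ^ 2 / 4
            * (ρ (x i) ^ 3 / ρ (y i) ^ 2) - 2) atTop (𝓝 ((3 + ρ a * 0 ^ 2) ^ 2 / 4 * 1 - 2)) :=
          ((((((hinv.pow 2).const_mul (ρ a)).const_add 3).pow 2).div_const 4).mul hr').sub_const 2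
        have h3 : ((3 + ρ a * 0 ^ 2) ^ 2 / 4 * 1 - 2 : 𝕜) = 1 / ((1 + 1 : ℕ) : 𝕜) ^ 2 := by
          norm_num
        rw [h3] at h2
        refine h2.congr' ?_
        filter_upwards [hxpos, hy] with i hi hyi
        simp only [map_sub, map_pow, map_div₀, map_add, map_mul, map_ofNat]
        field_simp
        ring
      · have hX2 : Tendsto (fun i => (3 + ρ a * ((ρ (x i))⁻¹) ^ 2) ^ 2 / 4
            * (ρ (x i) ^ 3 / ρ (y i) ^ 2) - 2) atTop (𝓝 ((3 + ρ a * 0 ^ 2) ^ 2 / 4 * 1 - 2)) :=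
          ((((((hinv.pow 2).const_mul (ρ a)).const_add 3).pow 2).div_const 4).mul hr').sub_const 2
        have h2 : Tendsto (fun i => (3 + ρ a * ((ρ (x i))⁻¹) ^ 2) / 2
            * (ρ (x i) ^ 3 / ρ (y i) ^ 2) * (1 - ((3 + ρ a * ((ρ (x i))⁻¹) ^ 2) ^ 2 / 4
            * (ρ (x i) ^ 3 / ρ (y i) ^ 2) - 2)) - 1) atTop
            (𝓝 ((3 + ρ a * 0 ^ 2) / 2 * 1 * (1 - ((3 + ρ a * 0 ^ 2) ^ 2 / 4 * 1 - 2)) - 1)) :=
          ((((((hinv.pow 2).const_mul (ρ a)).const_add 3).div_const 2).mul hr').mul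
            (hX2.const_sub 1)).sub_const 1
        have h3 : ((3 + ρ a * 0 ^ 2) / 2 * 1 * (1 - ((3 + ρ a * 0 ^ 2) ^ 2 / 4 * 1 - 2)) - 1 : 𝕜)
            = 1 / ((1 + 1 : ℕ) : 𝕜) ^ 3 := by
          norm_num
        rw [h3] at h2
        refine h2.congr' ?_
        filter_upwards [hxpos, hy] with i hi hyi
        simp only [map_sub, map_pow, map_div₀, map_add, map_mul, map_ofNat]
        field_simp
        ring
    · -- chord
      have hk0 : (k : 𝕜) ≠ 0 := by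
        have : k ≠ 0 := by omega
        exact_mod_cast this
      have hk1 : (k : 𝕜) + 1 ≠ 0 := by exact_mod_cast Nat.succ_ne_zero k
      have hksq : (1 : 𝕜) - (k : 𝕜) ^ 2 ≠ 0 := by
        intro h
        have h4 : (k : 𝕜) ^ 2 = 1 := by linear_combination -h
        have h5 : k ^ 2 = 1 := by exact_mod_cast h4
        have h6 : k = 1 := by
          rcases Nat.eq_zero_or_pos k with h7 | h7
          · simp [h7] at h5
          · nlinarith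
        omega
      have hlt : (1 : 𝕜) / (k : 𝕜) ^ 2 - 1 ≠ 0 := by
        intro h
        apply hksq
        have h4 : (1 : 𝕜) / (k : 𝕜) ^ 2 = 1 := by linear_combination h
        rw [div_eq_one_iff_eq (pow_ne_zero 2 hk0)] at h4
        linear_combination h4
      have hne : ∀ᶠ i in atTop, ρ (x' i) / ρ (x i) - 1 ≠ 0 :=
        (hX.sub_const 1).eventually_ne hlt
      refine ⟨fun i => ((y' i - y i) / (x' i - x i)) ^ 2 - x' i - x i,
        fun i => (y' i - y i) / (x' i - x i) *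
          (x' i - (((y' i - y i) / (x' i - x i)) ^ 2 - x' i - x i)) - y' i, ?_, ?_, ?_⟩
      · filter_upwards [hat, hne, hxpos] with i h2 h3 h4
        have hxne : x' i ≠ x i := by
          intro h
          apply h3
          rw [h, div_self h4, sub_self]
        have := h2.add (hP i) hxne
        rwa [← succ_nsmul] at this
      · have h2 : Tendsto (fun i => ((ρ (y' i) / ρ (y i) - 1) / (ρ (x' i) / ρ (x i) - 1)) ^ 2
            * (ρ (y i) ^ 2 / ρ (x i) ^ 3) - ρ (x' i) / ρ (x i) - 1) atTop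
            (𝓝 (((1 / (k : 𝕜) ^ 3 - 1) / (1 / (k : 𝕜) ^ 2 - 1)) ^ 2 * 1 - 1 / (k : 𝕜) ^ 2 - 1)) :=
          ((((((hY.sub_const 1).div (hX.sub_const 1) hlt).pow 2).mul hr).sub hX)).sub_const 1
        have h3 : ((1 / (k : 𝕜) ^ 3 - 1) / (1 / (k : 𝕜) ^ 2 - 1)) ^ 2 * 1 - 1 / (k : 𝕜) ^ 2 - 1
            = 1 / ((k + 1 : ℕ) : 𝕜) ^ 2 := by
          have h7 : (1 / (k : 𝕜) ^ 3 - 1) / (1 / (k : 𝕜) ^ 2 - 1)
              = ((k : 𝕜) ^ 2 + k + 1) / (k * (k + 1)) := by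
            rw [div_eq_div_iff hlt (mul_ne_zero hk0 hk1)]
            field_simp
            ring
          rw [h7]
          push_cast
          field_simp
          ring
        rw [h3] at h2
        refine h2.congr' ?_
        filter_upwards [hxpos, hy, hne] with i hi hyi hnei
        have h8 : ρ (x' i) - ρ (x i) ≠ 0 := by
          intro h
          apply hnei
          rw [sub_eq_zero.1 h, div_self hi, sub_self]
        have h9 : (ρ (y' i) / ρ (y i) - 1) / (ρ (x' i) / ρ (x i) - 1)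
            = (ρ (y' i) - ρ (y i)) / (ρ (x' i) - ρ (x i)) * (ρ (x i) / ρ (y i)) := by
          rw [div_eq_iff hnei]
          field_simp
        rw [h9]
        simp only [map_sub, map_pow, map_div₀]
        field_simp
      · have hX2 : Tendsto (fun i => ((ρ (y' i) / ρ (y i) - 1) / (ρ (x' i) / ρ (x i) - 1)) ^ 2
            * (ρ (y i) ^ 2 / ρ (x i) ^ 3) - ρ (x' i) / ρ (x i) - 1) atTop
            (𝓝 (((1 / (k : 𝕜) ^ 3 - 1) / (1 / (k : 𝕜) ^ 2 - 1)) ^ 2 * 1 - 1 / (k : 𝕜) ^ 2 - 1)) :=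
          ((((((hY.sub_const 1).div (hX.sub_const 1) hlt).pow 2).mul hr).sub hX)).sub_const 1
        have h2 : Tendsto (fun i => (ρ (y' i) / ρ (y i) - 1) / (ρ (x' i) / ρ (x i) - 1)
            * (ρ (x' i) / ρ (x i) - (((ρ (y' i) / ρ (y i) - 1) / (ρ (x' i) / ρ (x i) - 1)) ^ 2
            * (ρ (y i) ^ 2 / ρ (x i) ^ 3) - ρ (x' i) / ρ (x i) - 1)) - ρ (y' i) / ρ (y i)) atTop
            (𝓝 ((1 / (k : 𝕜) ^ 3 - 1) / (1 / (k : 𝕜) ^ 2 - 1)
            * (1 / (k : 𝕜) ^ 2 - (((1 / (k : 𝕜) ^ 3 - 1) / (1 / (k : 𝕜) ^ 2 - 1)) ^ 2 * 1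
              - 1 / (k : 𝕜) ^ 2 - 1)) - 1 / (k : 𝕜) ^ 3)) :=
          ((((hY.sub_const 1).div (hX.sub_const 1) hlt).mul (hX.sub hX2)).sub hY)
        have h3 : (1 / (k : 𝕜) ^ 3 - 1) / (1 / (k : 𝕜) ^ 2 - 1)
            * (1 / (k : 𝕜) ^ 2 - (((1 / (k : 𝕜) ^ 3 - 1) / (1 / (k : 𝕜) ^ 2 - 1)) ^ 2 * 1
              - 1 / (k : 𝕜) ^ 2 - 1)) - 1 / (k : 𝕜) ^ 3
            = 1 / ((k + 1 : ℕ) : 𝕜) ^ 3 := by
          have h7 : (1 / (k : 𝕜) ^ 3 - 1) / (1 / (k : 𝕜) ^ 2 - 1)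
              = ((k : 𝕜) ^ 2 + k + 1) / (k * (k + 1)) := by
            rw [div_eq_div_iff hlt (mul_ne_zero hk0 hk1)]
            field_simp
            ring
          rw [h7]
          push_cast
          field_simp
          ring
        rw [h3] at h2
        refine h2.congr' ?_
        filter_upwards [hxpos, hy, hne] with i hi hyi hnei
        have h8 : ρ (x' i) - ρ (x i) ≠ 0 := by
          intro h
          apply hnei
          rw [sub_eq_zero.1 h, div_self hi, sub_self]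
        have h9 : (ρ (y' i) / ρ (y i) - 1) / (ρ (x' i) / ρ (x i) - 1)
            = (ρ (y' i) - ρ (y i)) / (ρ (x' i) - ρ (x i)) * (ρ (x i) / ρ (y i)) := by
          rw [div_eq_iff hnei]
          field_simp
        rw [h9]
        simp only [map_sub, map_pow, map_div₀, map_mul]
        field_simp


/-- Squares of rationals are limits of ratios of x-coordinates of multiples. -/
theorem ratio_tendsto (Q : ((shortW a b)⁄F).Point) (S : Set F)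
    (hS : ∀ n : ℕ, 0 < n → ∀ x y : F, IsAt (n • Q) x y → x ∈ S)
    {m : ℕ → ℕ} (hm : ∀ i, 0 < m i) (hP : ∀ i, IsAt (m i • Q) (x i) (y i))
    (hx : Tendsto (fun i => ‖ρ (x i)‖) atTop atTop) (hy : ∀ᶠ i in atTop, ρ (y i) ≠ 0)
    (l d : ℕ) (hl : 0 < l) (hd : 0 < d) :
    ∃ s t : ℕ → F, (∀ᶠ i in atTop, s i ∈ S ∧ t i ∈ S ∧ t i ≠ 0) ∧
      Tendsto (fun i => ρ (s i / t i)) atTop (𝓝 (((l : 𝕜) / (d : 𝕜)) ^ 2)) := by
  obtain ⟨x1, y1, hat1, hX1, -⟩ := multiples_asymp_norm ρ hP hx hy d hd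
  obtain ⟨x2, y2, hat2, hX2, -⟩ := multiples_asymp_norm ρ hP hx hy l hl
  have hl0 : (l : 𝕜) ≠ 0 := by exact_mod_cast hl.ne'
  have hd0 : (d : 𝕜) ≠ 0 := by exact_mod_cast hd.ne'
  have hl1 : (1 : 𝕜) / (l : 𝕜) ^ 2 ≠ 0 := by simp [hl0]
  have hne : ∀ᶠ i in atTop, ρ (x2 i) / ρ (x i) ≠ 0 := hX2.eventually_ne hl1
  refine ⟨x1, x2, ?_, ?_⟩
  · filter_upwards [hat1, hat2, hne] with i h1 h2 h3
    rw [smul_smul] at h1 h2
    refine ⟨hS _ (Nat.mul_pos hd (hm i)) _ _ h1, hS _ (Nat.mul_pos hl (hm i)) _ _ h2, ?_⟩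
    intro h0
    apply h3
    rw [h0, map_zero, zero_div]
  · have h1 := hX1.div hX2 hl1
    have h2 : (1 / (d : 𝕜) ^ 2) / (1 / (l : 𝕜) ^ 2) = ((l : 𝕜) / (d : 𝕜)) ^ 2 := by
      field_simp
    rw [h2] at h1
    refine h1.congr' ?_
    filter_upwards [eventually_ne_norm hx] with i hi
    simp only [Pi.div_apply]
    rw [div_div_div_cancel_right₀ hi, map_div₀]

omit [CharZero 𝕜] in
theorem exists_nat_ratio_sq (hdense : DenseRange ((↑) : ℚ → 𝕜)) (w : 𝕜) {ε : ℝ} (hε : 0 < ε) :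
    ∃ l d : ℕ, 0 < l ∧ 0 < d ∧ ‖((l : 𝕜) / (d : 𝕜)) ^ 2 - w ^ 2‖ < ε := by
  have hcont : ContinuousAt (fun z : 𝕜 => z ^ 2 - w ^ 2) w := by fun_prop
  have h0 : (fun z : 𝕜 => z ^ 2 - w ^ 2) w = 0 := by simp
  have hopen : ∀ᶠ z in 𝓝 w, ‖z ^ 2 - w ^ 2‖ < ε := by
    have h1 : Tendsto (fun z : 𝕜 => ‖z ^ 2 - w ^ 2‖) (𝓝 w) (𝓝 0) := by
      have h2 := hcont.norm
      simp only [ContinuousAt, sub_self, norm_zero] at h2
      exact h2
    exact h1.eventually_lt_const hε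
  have hq : ∃ q : ℚ, q ≠ 0 ∧ ‖(q : 𝕜) ^ 2 - w ^ 2‖ < ε := by
    obtain ⟨U, hU1, hU2, hU3⟩ := eventually_nhds_iff.1 hopen
    have hne : (U \ {0}).Nonempty := by
      have hnb : (𝓝[≠] (0 : 𝕜)).NeBot := inferInstance
      by_cases hw : w = 0
      · subst hw
        have : (U ∩ {0}ᶜ) ∈ 𝓝[≠] (0 : 𝕜) :=
          Filter.inter_mem (mem_nhdsWithin_of_mem_nhds (hU2.mem_nhds hU3)) self_mem_nhdsWithin
        obtain ⟨z, hz⟩ := hnb.nonempty_of_mem this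
        exact ⟨z, hz.1, hz.2⟩
      · exact ⟨w, hU3, hw⟩
    obtain ⟨q, hq⟩ := hdense.exists_mem_open (hU2.sdiff isClosed_singleton) hne
    refine ⟨q, ?_, hU1 _ hq.1⟩
    intro h
    apply hq.2
    simp [h]
  obtain ⟨q, hq0, hq1⟩ := hq
  refine ⟨q.num.natAbs, q.den, Int.natAbs_pos.2 (Rat.num_ne_zero.2 hq0), q.den_pos, ?_⟩
  have h1 : ((q.num.natAbs : 𝕜) / (q.den : 𝕜)) ^ 2 = (q : 𝕜) ^ 2 := by
    have h2 : (q : 𝕜) = (q.num : 𝕜) / (q.den : 𝕜) := Rat.cast_def q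
    rw [h2, div_pow, div_pow]
    congr 1
    rw [Nat.cast_natAbs, ← Int.cast_pow, sq_abs, Int.cast_pow]
  rw [h1]
  exact hq1

/-- The set `s₁ / t₁ - s₂ / t₂` is dense. -/
theorem dense_diff_ratio [ProperSpace 𝕜] (hdense : DenseRange ((↑) : ℚ → 𝕜))
    (hab : 4 * a ^ 3 + 27 * b ^ 2 ≠ 0)
    (Q : ((shortW a b)⁄F).Point) (hQ : ∀ n : ℕ, 0 < n → n • Q ≠ 0) (S : Set F)
    (hS : ∀ n : ℕ, 0 < n → ∀ x y : F, IsAt (n • Q) x y → x ∈ S) (u : 𝕜) {ε : ℝ} (hε : 0 < ε) :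
    ∃ s₁ ∈ S, ∃ t₁ ∈ S, ∃ s₂ ∈ S, ∃ t₂ ∈ S, t₁ ≠ 0 ∧ t₂ ≠ 0 ∧
      ‖ρ (s₁ / t₁ - s₂ / t₂) - u‖ < ε := by
  have hc : CharZero F := RingHom.charZero ρ
  obtain ⟨l₁, d₁, hl₁, hd₁, h₁⟩ := exists_nat_ratio_sq hdense ((u + 1) / 2) (half_pos hε)
  obtain ⟨l₂, d₂, hl₂, hd₂, h₂⟩ := exists_nat_ratio_sq hdense ((u - 1) / 2) (half_pos hε)
  have hex : ∀ i : ℕ, ∃ nxy : ℕ × F × F, 0 < nxy.1 ∧ IsAt (nxy.1 • Q) nxy.2.1 nxy.2.2 ∧
      (i : ℝ) < ‖ρ nxy.2.1‖ := fun i => by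
    obtain ⟨n, hn, x, y, h1, h2⟩ := unbounded_multiples_norm ρ hab Q hQ i
    exact ⟨(n, x, y), hn, h1, h2⟩
  choose nxy hn hat hbig using hex
  have hx : Tendsto (fun i => ‖ρ (nxy i).2.1‖) atTop atTop :=
    tendsto_atTop_mono (fun i => (hbig i).le) tendsto_natCast_atTop_atTop
  have hy : ∀ᶠ i in atTop, ρ (nxy i).2.2 ≠ 0 := Eventually.of_forall fun i h => by
    have h0 : (nxy i).2.2 = 0 := (map_eq_zero ρ).1 h
    have h1 := hat i
    rw [h0] at h1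
    have h2 := h1.dbl_zero
    rw [← two_nsmul, smul_smul] at h2
    exact hQ (2 * (nxy i).1) (by have := hn i; omega) h2
  obtain ⟨s₁, t₁, hst₁, hlim₁⟩ := ratio_tendsto ρ Q S hS hn hat hx hy l₁ d₁ hl₁ hd₁
  obtain ⟨s₂, t₂, hst₂, hlim₂⟩ := ratio_tendsto ρ Q S hS hn hat hx hy l₂ d₂ hl₂ hd₂
  have hlim : Tendsto (fun i => ‖ρ (s₁ i / t₁ i - s₂ i / t₂ i) - u‖) atTop
      (𝓝 ‖((l₁ : 𝕜) / (d₁ : 𝕜)) ^ 2 - ((l₂ : 𝕜) / (d₂ : 𝕜)) ^ 2 - u‖) := by
    refine (((hlim₁.sub hlim₂).sub_const u).norm).congr fun i => ?_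
    rw [map_sub]
  have hlt : ‖((l₁ : 𝕜) / (d₁ : 𝕜)) ^ 2 - ((l₂ : 𝕜) / (d₂ : 𝕜)) ^ 2 - u‖ < ε := by
    have e : ((l₁ : 𝕜) / (d₁ : 𝕜)) ^ 2 - ((l₂ : 𝕜) / (d₂ : 𝕜)) ^ 2 - u
        = (((l₁ : 𝕜) / (d₁ : 𝕜)) ^ 2 - ((u + 1) / 2) ^ 2)
          - (((l₂ : 𝕜) / (d₂ : 𝕜)) ^ 2 - ((u - 1) / 2) ^ 2) := by ring
    rw [e]
    refine (norm_sub_le _ _).trans_lt ?_
    linarith
  obtain ⟨i, ⟨a1, a2, a3⟩, ⟨b1, b2, b3⟩, h⟩ :=
    (hst₁.and (hst₂.and (hlim.eventually_lt_const hlt))).exists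
  exact ⟨s₁ i, a1, t₁ i, a2, s₂ i, b1, t₂ i, b2, a3, b3, h⟩

end

end Pool.Agent.H60.UDef
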