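import Mathlib

/-!
Number fields with the maximal number of embeddings in `ℚ_p`: approximation, bounded coordinates,
separation over subfields.
-/

set_option autoImplicit false

open Module

namespace Pool.Agent.H60.UDef

section

variable (p : ℕ) [hp : Fact p.Prime] (K : Type) [Field K] [NumberField K]

/-- `p` splits completely in `K`: there are `[K : ℚ]` embeddings of `K` in `ℚ_p`. -/
def Splits : Prop := Nat.card (K →+* ℚ_[p]) = finrank ℚ K

instance : Finite (K →+* ℚ_[p]) := Finite.of_equiv _ (RingHom.equivRatAlgHom K ℚ_[p]).symm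

theorem card_emb_le : Nat.card (K →+* ℚ_[p]) ≤ finrank ℚ K := by
  rw [Nat.card_congr (RingHom.equivRatAlgHom K ℚ_[p])]
  exact card_algHom_le_finrank ℚ K ℚ_[p]

variable {p K}

theorem emb_expand {ι : Type} [Fintype ι] (b : Basis ι ℚ K) (σ : K →+* ℚ_[p]) (y : K) :
    σ y = ∑ j, ((b.repr y j : ℚ) : ℚ_[p]) * σ (b j) := by
  conv_lhs => rw [← b.sum_repr y]
  rw [map_sum]
  refine Finset.sum_congr rfl fun j _ => ?_
  rw [Algebra.smul_def, map_mul]
  congr 1
  simp

/-- The matrix of the embeddings on a basis is invertible. -/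
theorem Splits.isUnit {n : ℕ} (e : (K →+* ℚ_[p]) ≃ Fin n) (b : Basis (Fin n) ℚ K) :
    IsUnit (Matrix.of fun i j : Fin n => (e.symm i) (b j) : Matrix (Fin n) (Fin n) ℚ_[p]) := by
  rw [← Matrix.vecMul_injective_iff_isUnit]
  rw [← Matrix.coe_vecMulLinear, ← LinearMap.ker_eq_bot, LinearMap.ker_eq_bot']
  intro c hc
  have h1 : ∀ j, ∑ i, c i * (e.symm i) (b j) = 0 := by
    intro j
    have := congrFun hc j
    simpa [Matrix.vecMul, dotProduct] using this
  have h2 : ∀ y : K, ∑ i, c i * (e.symm i) y = 0 := by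
    intro y
    simp_rw [emb_expand b _ y, Finset.mul_sum]
    rw [Finset.sum_comm]
    refine Finset.sum_eq_zero fun j _ => ?_
    have : ∀ i, c i * (((b.repr y j : ℚ) : ℚ_[p]) * (e.symm i) (b j))
        = ((b.repr y j : ℚ) : ℚ_[p]) * (c i * (e.symm i) (b j)) := fun i => by ring
    simp_rw [this]
    rw [← Finset.mul_sum, h1 j, mul_zero]
  have hli := linearIndependent_monoidHom K ℚ_[p]
  have hinj : Function.Injective (fun i : Fin n => ((e.symm i : K →+* ℚ_[p]) : K →* ℚ_[p])) := by
    intro i j hij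
    apply e.symm.injective
    ext y
    exact DFunLike.congr_fun hij y
  have hli2 := hli.comp _ hinj
  rw [Fintype.linearIndependent_iff] at hli2
  ext i
  refine hli2 c ?_ i
  ext y
  simpa using h2 y

theorem Splits.approx (h : Splits p K) (u : (K →+* ℚ_[p]) → ℚ_[p]) {ε : ℝ} (hε : 0 < ε) :
    ∃ y : K, ∀ σ, ‖σ y - u σ‖ < ε := by
  classical
  set n := finrank ℚ K with hn
  let e : (K →+* ℚ_[p]) ≃ Fin n := Finite.equivFinOfCardEq h
  let b : Basis (Fin n) ℚ K := finBasis ℚ K
  have hu := Matrix.mulVec_surjective_iff_isUnit.2 (Splits.isUnit e b)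
  obtain ⟨v, hv⟩ := hu (fun i => u (e.symm i))
  set B : ℝ := ∑ i : Fin n, ∑ j, ‖(e.symm i) (b j)‖ with hB
  have hB0 : 0 ≤ B := by positivity
  have hδ : 0 < ε / (B + 1) := by positivity
  have hex : ∀ j, ∃ q : ℚ, ‖v j - q‖ < ε / (B + 1) := fun j => Padic.rat_dense p (v j) hδ
  choose q hq using hex
  refine ⟨∑ j, q j • b j, fun σ => ?_⟩
  have h1 : u σ = ∑ j, σ (b j) * v j := by
    have := congrFun hv (e σ)
    simpa [Matrix.mulVec, dotProduct] using this.symm
  have h2 : σ (∑ j, q j • b j) = ∑ j, σ (b j) * (q j : ℚ_[p]) := by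
    rw [map_sum]
    refine Finset.sum_congr rfl fun j _ => ?_
    rw [Algebra.smul_def, map_mul, mul_comm]
    congr 1
    simp
  rw [h1, h2, ← Finset.sum_sub_distrib]
  refine (norm_sum_le _ _).trans_lt ?_
  have h3 : ∀ j, ‖σ (b j) * (q j : ℚ_[p]) - σ (b j) * v j‖ ≤ ‖σ (b j)‖ * (ε / (B + 1)) := by
    intro j
    rw [← mul_sub, norm_mul]
    refine mul_le_mul_of_nonneg_left ?_ (norm_nonneg _)
    rw [norm_sub_rev]
    exact (hq j).le
  refine (Finset.sum_le_sum fun j _ => h3 j).trans_lt ?_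
  rw [← Finset.sum_mul]
  have h4 : ∑ j, ‖σ (b j)‖ ≤ B := by
    have := Finset.single_le_sum (f := fun i : Fin n => ∑ j, ‖(e.symm i) (b j)‖)
      (fun i _ => Finset.sum_nonneg fun j _ => norm_nonneg _) (Finset.mem_univ (e σ))
    simpa using this
  calc (∑ j, ‖σ (b j)‖) * (ε / (B + 1)) ≤ B * (ε / (B + 1)) :=
        mul_le_mul_of_nonneg_right h4 hδ.le
    _ < ε := by
        rw [mul_div_assoc', div_lt_iff₀ (by positivity)]
        nlinarith

theorem Splits.bounded (h : Splits p K) : ∃ C : ℝ, ∀ y : K, (∀ σ : K →+* ℚ_[p], ‖σ y‖ ≤ 1) →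
    ∀ j, ‖(((finBasis ℚ K).repr y j : ℚ) : ℚ_[p])‖ ≤ C := by
  classical
  set n := finrank ℚ K with hn
  let e : (K →+* ℚ_[p]) ≃ Fin n := Finite.equivFinOfCardEq h
  let b : Basis (Fin n) ℚ K := finBasis ℚ K
  set N : Matrix (Fin n) (Fin n) ℚ_[p] := Matrix.of fun i j : Fin n => (e.symm i) (b j) with hN
  have hu : IsUnit N := Splits.isUnit e b
  have hdet : IsUnit N.det := (Matrix.isUnit_iff_isUnit_det N).1 hu
  refine ⟨∑ j, ∑ i, ‖N⁻¹ j i‖, fun y hy j => ?_⟩
  set q : Fin n → ℚ_[p] := fun j => ((b.repr y j : ℚ) : ℚ_[p]) with hq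
  have h1 : N.mulVec q = fun i => (e.symm i) y := by
    ext i
    rw [emb_expand b (e.symm i) y]
    simp only [Matrix.mulVec, dotProduct, hN, Matrix.of_apply, hq]
    exact Finset.sum_congr rfl fun j _ => mul_comm _ _
  have h2 : q = N⁻¹.mulVec (fun i => (e.symm i) y) := by
    rw [← h1, Matrix.mulVec_mulVec, Matrix.nonsing_inv_mul _ hdet, Matrix.one_mulVec]
  have h3 : q j = ∑ i, N⁻¹ j i * (e.symm i) y := by
    rw [h2]; rfl
  change ‖q j‖ ≤ _
  rw [h3]
  refine (norm_sum_le _ _).trans ?_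
  refine le_trans (Finset.sum_le_sum (g := fun i => ‖N⁻¹ j i‖) fun i _ => ?_) ?_
  · rw [norm_mul]
    exact mul_le_of_le_one_right (norm_nonneg _) (hy _)
  · exact Finset.single_le_sum (f := fun j => ∑ i, ‖N⁻¹ j i‖)
      (fun j _ => Finset.sum_nonneg fun i _ => norm_nonneg _) (Finset.mem_univ j)

/-- Linear independence over `ℚ` of elements of `K` gives linear independence over `ℚ_p` of the
vectors of their embeddings. -/
theorem Splits.linearIndependent (h : Splits p K) {ι : Type} {t : ι → K}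
    (ht : LinearIndependent ℚ t) :
    LinearIndependent ℚ_[p] (fun k => (fun σ : K →+* ℚ_[p] => σ (t k))) := by
  classical
  set n := finrank ℚ K with hn
  let e : (K →+* ℚ_[p]) ≃ Fin n := Finite.equivFinOfCardEq h
  -- extend to a basis
  have hr : LinearIndepOn ℚ id (Set.range t) := by
    simpa using ht.linearIndepOn_id
  let b₀ := Basis.extend hr
  have hfin : Finite (hr.extend (Set.subset_univ _)) := Module.Finite.finite_basis b₀
  have hcard : Nat.card (hr.extend (Set.subset_univ _)) = n := (finrank_eq_nat_card_basis b₀).symm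
  let f : (hr.extend (Set.subset_univ _)) ≃ Fin n := Finite.equivFinOfCardEq hcard
  let b : Basis (Fin n) ℚ K := b₀.reindex f
  have hu := Splits.isUnit e b
  have hcol := Matrix.linearIndependent_cols_iff_isUnit.2 hu
  have hmem : ∀ k, t k ∈ hr.extend (Set.subset_univ _) := fun k =>
    hr.subset_extend _ ⟨k, rfl⟩
  let g : ι → Fin n := fun k => f ⟨t k, hmem k⟩
  have hg : Function.Injective g := by
    intro k l hkl
    have h1 := f.injective hkl
    have h2 : t k = t l := congrArg Subtype.val h1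
    exact ht.injective h2
  have h3 := hcol.comp g hg
  -- transport along `e`
  have h4 := h3.map' (LinearMap.funLeft ℚ_[p] ℚ_[p] e) (by
    rw [LinearMap.ker_eq_bot]
    exact LinearMap.funLeft_injective_of_surjective _ _ _ e.surjective)
  have hfun : (fun k => (fun σ : K →+* ℚ_[p] => σ (t k)))
      = (LinearMap.funLeft ℚ_[p] ℚ_[p] e) ∘
        ((Matrix.of fun i j : Fin n => (e.symm i) (b j) : Matrix (Fin n) (Fin n) ℚ_[p]).col ∘ g) := by
    ext k σ
    simp [LinearMap.funLeft, b, g, Matrix.col, b₀]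
  rw [hfun]
  exact h4

/-- Elements outside a subfield `F` are separated by two embeddings that agree on `F`. -/
theorem Splits.exists_pair (h : Splits p K) {F : Type} [Field F] [Algebra F K] (x : K)
    (hx : ¬ ∃ c : F, algebraMap F K c = x) :
    ∃ σ τ : K →+* ℚ_[p], (∀ c : F, σ (algebraMap F K c) = τ (algebraMap F K c)) ∧ σ x ≠ τ x := by
  classical
  by_contra hcon
  push Not at hcon
  have hF0 : CharZero F := RingHom.charZero (algebraMap F K)
  let φ : F →ₐ[ℚ] K := (algebraMap F K).toRatAlgHom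
  have hφ : Function.Injective φ := (algebraMap F K).injective
  have hfin : FiniteDimensional ℚ F := FiniteDimensional.of_injective φ.toLinearMap hφ
  set m := finrank ℚ F with hm
  let bF : Basis (Fin m) ℚ F := finBasis ℚ F
  let t : Option (Fin m) → K := fun o => o.elim x fun i => algebraMap F K (bF i)
  have ht : LinearIndependent ℚ t := by
    rw [linearIndependent_option]
    constructor
    · have h1 : (fun i : Fin m => t (some i)) = φ.toLinearMap ∘ bF := rfl
      change LinearIndependent ℚ (fun i : Fin m => t (some i))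
      rw [h1]
      exact bF.linearIndependent.map' _ (LinearMap.ker_eq_bot.2 hφ)
    · intro hmem
      have h1 : Submodule.span ℚ (Set.range (t ∘ (some : Fin m → Option (Fin m))))
          ≤ LinearMap.range φ.toLinearMap := by
        rw [Submodule.span_le]
        rintro _ ⟨i, rfl⟩
        exact ⟨bF i, rfl⟩
      obtain ⟨c, hc⟩ := h1 hmem
      exact hx ⟨c, hc⟩
  have hli := h.linearIndependent ht
  have hFinF : Finite (F →+* ℚ_[p]) := Finite.of_equiv _ (RingHom.equivRatAlgHom F ℚ_[p]).symm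
  have hcardF : Nat.card (F →+* ℚ_[p]) ≤ m := by
    rw [Nat.card_congr (RingHom.equivRatAlgHom F ℚ_[p])]
    exact card_algHom_le_finrank ℚ F ℚ_[p]
  let r : (K →+* ℚ_[p]) → (F →+* ℚ_[p]) := fun σ => σ.comp (algebraMap F K)
  let R : ((F →+* ℚ_[p]) → ℚ_[p]) →ₗ[ℚ_[p]] ((K →+* ℚ_[p]) → ℚ_[p]) :=
    LinearMap.funLeft ℚ_[p] ℚ_[p] r
  let w : Option (Fin m) → ((F →+* ℚ_[p]) → ℚ_[p]) := fun o =>
    o.elim (fun ρ => if hρ : ∃ σ, r σ = ρ then hρ.choose x else 0) fun i => fun ρ => ρ (bF i)
  have hw : (fun k => (fun σ : K →+* ℚ_[p] => σ (t k))) = R ∘ w := by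
    ext k σ
    rcases k with _ | i
    · have hρ : ∃ σ', r σ' = r σ := ⟨σ, rfl⟩
      simp only [t, w, R, Function.comp, LinearMap.funLeft_apply, Option.elim_none]
      rw [dif_pos hρ]
      refine (hcon _ _ fun c => ?_).symm
      exact RingHom.congr_fun hρ.choose_spec c
    · rfl
  rw [hw] at hli
  have hli2 := hli.of_comp
  have hF2 := Fintype.ofFinite (F →+* ℚ_[p])
  have h3 := hli2.fintype_card_le_finrank
  rw [Module.finrank_pi, Fintype.card_option, Fintype.card_fin, ← Nat.card_eq_fintype_card] at h3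
  omega

end

end Pool.Agent.H60.UDef
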