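import Pool.Agent.Lib.H60.UDef.Params

/-!
Polynomial functions and Diophantine relations with parameters.
-/

set_option autoImplicit false

namespace Pool.Agent.H60.UDef

section

variable {K : Type} [Field K] {α β : Type}

/-- Polynomial functions with coefficients in `K`. -/
def PF (φ : (α → K) → K) : Prop :=
  ∃ (γ : Type) (_ : Finite γ) (c : γ → K) (g : FreeCommRing (α ⊕ γ)),
    ∀ v, φ v = FreeCommRing.lift (Sum.elim v c) g

theorem PF.congr {φ ψ : (α → K) → K} (h : PF φ) (hφ : ∀ v, φ v = ψ v) : PF ψ := by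
  obtain ⟨γ, hγ, c, g, hg⟩ := h
  exact ⟨γ, hγ, c, g, fun v => (hφ v).symm.trans (hg v)⟩

theorem PF.var (a : α) : PF (fun v : α → K => v a) :=
  ⟨Empty, inferInstance, Empty.elim, FreeCommRing.of (Sum.inl a), fun v => by simp⟩

theorem PF.const (c : K) : PF (fun _ : α → K => c) :=
  ⟨Unit, inferInstance, fun _ => c, FreeCommRing.of (Sum.inr ()), fun v => by simp⟩

theorem PF.add {φ ψ : (α → K) → K} (h : PF φ) (h' : PF ψ) : PF (fun v => φ v + ψ v) := by
  obtain ⟨γ, hγ, c, g, hg⟩ := h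
  obtain ⟨γ', hγ', c', g', hg'⟩ := h'
  refine ⟨γ ⊕ γ', inferInstance, Sum.elim c c', FreeCommRing.map (Sum.map id Sum.inl) g +
    FreeCommRing.map (Sum.map id Sum.inr) g', fun v => ?_⟩
  beta_reduce
  rw [map_add, lift_map, lift_map, hg, hg']
  congr 3
  · ext (a | i) <;> simp
  · ext (a | i) <;> simp

theorem PF.mul {φ ψ : (α → K) → K} (h : PF φ) (h' : PF ψ) : PF (fun v => φ v * ψ v) := by
  obtain ⟨γ, hγ, c, g, hg⟩ := h
  obtain ⟨γ', hγ', c', g', hg'⟩ := h'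
  refine ⟨γ ⊕ γ', inferInstance, Sum.elim c c', FreeCommRing.map (Sum.map id Sum.inl) g *
    FreeCommRing.map (Sum.map id Sum.inr) g', fun v => ?_⟩
  beta_reduce
  rw [map_mul, lift_map, lift_map, hg, hg']
  congr 3
  · ext (a | i) <;> simp
  · ext (a | i) <;> simp

theorem PF.neg {φ : (α → K) → K} (h : PF φ) : PF (fun v => -φ v) :=
  ((PF.const (-1)).mul h).congr fun v => by ring

theorem PF.sub {φ ψ : (α → K) → K} (h : PF φ) (h' : PF ψ) : PF (fun v => φ v - ψ v) :=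
  (h.add h'.neg).congr fun v => by ring

theorem PF.pow {φ : (α → K) → K} (h : PF φ) : ∀ n : ℕ, PF (fun v => φ v ^ n)
  | 0 => (PF.const 1).congr fun v => by simp
  | n + 1 => ((PF.pow h n).mul h).congr fun v => by ring

theorem PF.sum {ι : Type} (s : Finset ι) {φ : ι → (α → K) → K} (h : ∀ i, PF (φ i)) :
    PF (fun v => ∑ i ∈ s, φ i v) := by
  classical
  induction s using Finset.induction_on with
  | empty => exact (PF.const 0).congr fun v => by simp
  | insert a s ha ih =>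
    exact ((h a).add ih).congr fun v => by rw [Finset.sum_insert ha]

theorem PF.comp {φ : (α → K) → K} (h : PF φ) (f : α → β) : PF (fun v : β → K => φ (v ∘ f)) := by
  obtain ⟨γ, hγ, c, g, hg⟩ := h
  refine ⟨γ, hγ, c, FreeCommRing.map (Sum.map f id) g, fun v => ?_⟩
  beta_reduce
  rw [lift_map, hg]
  congr 2
  ext (a | i) <;> simp

/-- Diophantine relations with parameters. -/
def DioR (K : Type) [Field K] {α : Type} (P : (α → K) → Prop) : Prop :=
  ∃ (γ : Type) (_ : Finite γ) (D : (α ⊕ γ → K) → Prop) (c : γ → K),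
    Dio K D ∧ ∀ v, P v ↔ D (Sum.elim v c)

theorem DioR.congr {P Q : (α → K) → Prop} (h : DioR K P) (hPQ : ∀ v, P v ↔ Q v) : DioR K Q := by
  obtain ⟨γ, hγ, D, c, hD, hP⟩ := h
  exact ⟨γ, hγ, D, c, hD, fun v => (hPQ v).symm.trans (hP v)⟩

theorem Dio.dioR {P : (α → K) → Prop} (h : Dio K P) : DioR K P :=
  ⟨Empty, inferInstance, fun v => P (v ∘ Sum.inl), Empty.elim, h.comp _, fun v => by simp⟩

theorem DioR.dioP {P : (Fin 1 → K) → Prop} (h : DioR K P) : DioP K (fun x => P (fun _ => x)) := by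
  obtain ⟨γ, hγ, D, c, hD, hP⟩ := h
  exact ⟨γ, hγ, D, c, hD, fun x => hP _⟩

theorem DioP.dioR {X : K → Prop} (h : DioP K X) : DioR K (fun v : Fin 1 → K => X (v 0)) := by
  obtain ⟨γ, hγ, D, c, hD, hX⟩ := h
  refine ⟨γ, hγ, D, c, hD, fun v => ?_⟩
  beta_reduce
  rw [hX]
  have : (fun _ => v 0 : Fin 1 → K) = v := by
    ext i; rw [Subsingleton.elim i 0]
  rw [this]

theorem DioR.and {P Q : (α → K) → Prop} (hP : DioR K P) (hQ : DioR K Q) :
    DioR K (fun v => P v ∧ Q v) := by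
  obtain ⟨γ, hγ, D, c, hD, hP⟩ := hP
  obtain ⟨γ', hγ', D', c', hD', hQ⟩ := hQ
  refine ⟨γ ⊕ γ', inferInstance, fun v => D (v ∘ (Sum.map id Sum.inl : α ⊕ γ → α ⊕ (γ ⊕ γ'))) ∧
    D' (v ∘ (Sum.map id Sum.inr : α ⊕ γ' → α ⊕ (γ ⊕ γ'))), Sum.elim c c',
    (hD.comp _).and (hD'.comp _), fun v => ?_⟩
  beta_reduce
  rw [hP, hQ]
  have e1 : (Sum.elim v (Sum.elim c c') : α ⊕ (γ ⊕ γ') → K) ∘
      (Sum.map id Sum.inl : α ⊕ γ → α ⊕ (γ ⊕ γ')) = Sum.elim v c := by
    ext (a | i) <;> simp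
  have e2 : (Sum.elim v (Sum.elim c c') : α ⊕ (γ ⊕ γ') → K) ∘
      (Sum.map id Sum.inr : α ⊕ γ' → α ⊕ (γ ⊕ γ')) = Sum.elim v c' := by
    ext (a | i) <;> simp
  rw [e1, e2]

theorem DioR.or {P Q : (α → K) → Prop} (hP : DioR K P) (hQ : DioR K Q) :
    DioR K (fun v => P v ∨ Q v) := by
  obtain ⟨γ, hγ, D, c, hD, hP⟩ := hP
  obtain ⟨γ', hγ', D', c', hD', hQ⟩ := hQ
  refine ⟨γ ⊕ γ', inferInstance, fun v => D (v ∘ (Sum.map id Sum.inl : α ⊕ γ → α ⊕ (γ ⊕ γ'))) ∨
    D' (v ∘ (Sum.map id Sum.inr : α ⊕ γ' → α ⊕ (γ ⊕ γ'))), Sum.elim c c',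
    (hD.comp _).or (hD'.comp _), fun v => ?_⟩
  beta_reduce
  rw [hP, hQ]
  have e1 : (Sum.elim v (Sum.elim c c') : α ⊕ (γ ⊕ γ') → K) ∘
      (Sum.map id Sum.inl : α ⊕ γ → α ⊕ (γ ⊕ γ')) = Sum.elim v c := by
    ext (a | i) <;> simp
  have e2 : (Sum.elim v (Sum.elim c c') : α ⊕ (γ ⊕ γ') → K) ∘
      (Sum.map id Sum.inr : α ⊕ γ' → α ⊕ (γ ⊕ γ')) = Sum.elim v c' := by
    ext (a | i) <;> simp
  rw [e1, e2]

theorem DioR.true : DioR K (fun _ : α → K => True) := Dio.true.dioR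

theorem DioR.false : DioR K (fun _ : α → K => False) := Dio.false.dioR

theorem DioR.ex {δ : Type} [Finite δ] {P : (α ⊕ δ → K) → Prop} (hP : DioR K P) :
    DioR K (fun v : α → K => ∃ w : δ → K, P (Sum.elim v w)) := by
  obtain ⟨γ, hγ, D, c, hD, hP⟩ := hP
  let r : (α ⊕ δ) ⊕ γ → (α ⊕ γ) ⊕ δ :=
    Sum.elim (Sum.elim (fun a => Sum.inl (Sum.inl a)) Sum.inr) (fun g => Sum.inl (Sum.inr g))
  refine ⟨γ, hγ, fun v => ∃ w : δ → K, D (Sum.elim v w ∘ r), c, (hD.comp r).ex, fun v => ?_⟩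
  refine exists_congr fun w => ?_
  rw [hP]
  have : (Sum.elim (Sum.elim v c) w : (α ⊕ γ) ⊕ δ → K) ∘ r = Sum.elim (Sum.elim v w) c := by
    ext ((a | d) | g) <;> simp [r]
  rw [this]

theorem DioR.comp {P : (α → K) → Prop} (hP : DioR K P) (f : α → β) :
    DioR K (fun v : β → K => P (v ∘ f)) := by
  obtain ⟨γ, hγ, D, c, hD, hP⟩ := hP
  refine ⟨γ, hγ, fun v => D (v ∘ (Sum.map f id : α ⊕ γ → β ⊕ γ)), c, hD.comp _, fun v => ?_⟩
  beta_reduce
  rw [hP]
  have : (Sum.elim v c : β ⊕ γ → K) ∘ (Sum.map f id : α ⊕ γ → β ⊕ γ) = Sum.elim (v ∘ f) c := by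
    ext (a | g) <;> simp
  rw [this]

theorem DioR.subst [Finite β] {P : (β → K) → Prop} (hP : DioR K P) {φ : β → (α → K) → K}
    (hφ : ∀ b, PF (φ b)) : DioR K (fun v : α → K => P (fun b => φ b v)) := by
  obtain ⟨γ, hγ, D, c, hD, hP⟩ := hP
  choose δ hδ d g hg using hφ
  refine ⟨γ ⊕ (Σ b, δ b), inferInstance, fun v => D (fun j => FreeCommRing.lift v
    ((Sum.elim (fun b => FreeCommRing.map (Sum.map id (fun i => Sum.inr ⟨b, i⟩)) (g b))
      (fun i => FreeCommRing.of (Sum.inr (Sum.inl i))) :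
        β ⊕ γ → FreeCommRing (α ⊕ (γ ⊕ (Σ b, δ b)))) j)),
    Sum.elim c (fun i => d i.1 i.2), hD.subst _, fun v => ?_⟩
  beta_reduce
  rw [hP]
  refine iff_of_eq (congrArg D ?_)
  ext (b | i)
  · simp only [Sum.elim_inl]
    rw [lift_map, hg b v]
    congr 2
    ext (a | i) <;> simp
  · simp

theorem DioR.eq {φ ψ : (α → K) → K} (hφ : PF φ) (hψ : PF ψ) : DioR K (fun v => φ v = ψ v) := by
  have h : DioR K (fun v : Fin 2 → K => v 0 = v 1) :=
    ((Dio.eq (K := K) (FreeCommRing.of (0 : Fin 2)) (FreeCommRing.of 1)).congr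
      fun v => by simp).dioR
  refine (h.subst (φ := ![φ, ψ]) ?_).congr fun v => ?_
  · intro b
    fin_cases b
    · exact hφ
    · exact hψ
  · simp

theorem DioR.ne0 {φ : (α → K) → K} (hφ : PF φ) : DioR K (fun v => φ v ≠ 0) := by
  have h : DioR K (fun v : Fin 1 → K => v 0 ≠ 0) :=
    ((Dio.ne0 (K := K) (FreeCommRing.of (0 : Fin 1))).congr fun v => by simp).dioR
  exact (h.subst (φ := fun _ => φ) fun _ => hφ)

theorem DioR.app {X : K → Prop} (hX : DioP K X) {φ : (α → K) → K} (hφ : PF φ) :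
    DioR K (fun v => X (φ v)) :=
  hX.dioR.subst (φ := fun _ => φ) fun _ => hφ

theorem DioR.forall_mem {ι : Type} (s : Finset ι) {P : ι → (α → K) → Prop}
    (h : ∀ i, DioR K (P i)) : DioR K (fun v => ∀ i ∈ s, P i v) := by
  classical
  induction s using Finset.induction_on with
  | empty => exact DioR.true.congr fun v => by simp
  | insert a s ha ih => exact ((h a).and ih).congr fun v => by simp

theorem DioR.forall_fintype {ι : Type} [Finite ι] {P : ι → (α → K) → Prop}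
    (h : ∀ i, DioR K (P i)) : DioR K (fun v => ∀ i, P i v) := by
  have := Fintype.ofFinite ι
  exact (DioR.forall_mem Finset.univ h).congr fun v => by simp

theorem DioR.exists_mem {ι : Type} (s : Finset ι) {P : ι → (α → K) → Prop}
    (h : ∀ i, DioR K (P i)) : DioR K (fun v => ∃ i ∈ s, P i v) := by
  classical
  induction s using Finset.induction_on with
  | empty => exact DioR.false.congr fun v => by simp
  | insert a s ha ih => exact ((h a).or ih).congr fun v => by simp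

theorem DioR.exists_fintype {ι : Type} [Finite ι] {P : ι → (α → K) → Prop}
    (h : ∀ i, DioR K (P i)) : DioR K (fun v => ∃ i, P i v) := by
  have := Fintype.ofFinite ι
  exact (DioR.exists_mem Finset.univ h).congr fun v => by simp

end

end Pool.Agent.H60.UDef
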