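import Mathlib

/-!
Artin's theorem for number fields (an element positive under all real embeddings is a sum of
squares), with a uniform bound on the number of squares (Caratheodory over the rationals and
Lagrange's four square theorem).
-/

set_option autoImplicit false

namespace Pool.Agent.H60.UDef

section artin

variable {K : Type} [Field K]

/-- Preorderings of a field. -/
structure IsPre (P : Set K) : Prop where
  add : ∀ {x y : K}, x ∈ P → y ∈ P → x + y ∈ P
  mul : ∀ {x y : K}, x ∈ P → y ∈ P → x * y ∈ P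
  sq : ∀ x : K, x * x ∈ P
  neg_one : (-1 : K) ∉ P

theorem IsPre.zero {P : Set K} (h : IsPre P) : (0 : K) ∈ P := by simpa using h.sq 0

theorem IsPre.one {P : Set K} (h : IsPre P) : (1 : K) ∈ P := by simpa using h.sq 1

theorem IsPre.extend {P : Set K} (h : IsPre P) {y : K} (hy : y ∉ P) :
    IsPre {z : K | ∃ p ∈ P, ∃ q ∈ P, z = p - y * q} where
  add := by
    rintro a b ⟨p, hp, q, hq, rfl⟩ ⟨p', hp', q', hq', rfl⟩
    exact ⟨p + p', h.add hp hp', q + q', h.add hq hq', by ring⟩
  mul := by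
    rintro a b ⟨p, hp, q, hq, rfl⟩ ⟨p', hp', q', hq', rfl⟩
    exact ⟨p * p' + (y * y) * (q * q'), h.add (h.mul hp hp') (h.mul (h.sq y) (h.mul hq hq')),
      p * q' + q * p', h.add (h.mul hp hq') (h.mul hq hp'), by ring⟩
  sq := fun x => ⟨x * x, h.sq x, 0, h.zero, by ring⟩
  neg_one := by
    rintro ⟨p, hp, q, hq, he⟩
    have hyq : y * q = 1 + p := by linear_combination he
    by_cases hq0 : q = 0
    · apply h.neg_one
      have : (-1 : K) = p := by rw [hq0, mul_zero] at hyq; linear_combination hyq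
      rw [this]; exact hp
    · apply hy
      have : y = ((1 + p) * q) * (q⁻¹ * q⁻¹) := by
        rw [← hyq]; field_simp
      rw [this]
      exact h.mul (h.mul (h.add h.one hp) hq) (h.sq _)

theorem IsPre.exists_total {P : Set K} (h : IsPre P) {y : K} (hy : y ∉ P) :
    ∃ Q : Set K, IsPre Q ∧ P ⊆ Q ∧ -y ∈ Q ∧ ∀ x, x ∈ Q ∨ -x ∈ Q := by
  have hex := h.extend hy
  obtain ⟨Q, hQ1, hQ2⟩ := zorn_subset_nonempty {Q : Set K | IsPre Q} (by
    intro c hc hch hne
    refine ⟨⋃₀ c, ?_, fun s hs => Set.subset_sUnion_of_mem hs⟩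
    refine ⟨?_, ?_, ?_, ?_⟩
    · rintro x z ⟨s, hs, hx⟩ ⟨t, ht, hz⟩
      rcases hch.total hs ht with hst | hst
      · exact ⟨t, ht, (hc ht).add (hst hx) hz⟩
      · exact ⟨s, hs, (hc hs).add hx (hst hz)⟩
    · rintro x z ⟨s, hs, hx⟩ ⟨t, ht, hz⟩
      rcases hch.total hs ht with hst | hst
      · exact ⟨t, ht, (hc ht).mul (hst hx) hz⟩
      · exact ⟨s, hs, (hc hs).mul hx (hst hz)⟩
    · intro x
      obtain ⟨s, hs⟩ := hne
      exact ⟨s, hs, (hc hs).sq x⟩
    · rintro ⟨s, hs, hx⟩
      exact (hc hs).neg_one hx) _ hex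
  refine ⟨Q, hQ2.prop, ?_, ?_, ?_⟩
  · intro p hp
    exact hQ1 ⟨p, hp, 0, h.zero, by ring⟩
  · exact hQ1 ⟨0, h.zero, 1, h.one, by ring⟩
  · intro x
    by_cases hx : x ∈ Q
    · exact Or.inl hx
    · right
      have h1 := IsPre.extend hQ2.prop hx
      have h2 : Q ⊆ {z : K | ∃ p ∈ Q, ∃ q ∈ Q, z = p - x * q} :=
        fun p hp => ⟨p, hp, 0, IsPre.zero hQ2.prop, by ring⟩
      have h3 := hQ2.eq_of_subset h1 h2
      have h4 : -x ∈ {z : K | ∃ p ∈ Q, ∃ q ∈ Q, z = p - x * q} :=
        ⟨0, IsPre.zero hQ2.prop, 1, IsPre.one hQ2.prop, by ring⟩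
      rw [← h3] at h4
      exact h4

/-- The sums of squares. -/
def SqSum (K : Type) [Field K] : Set K := {x | ∃ (n : ℕ) (z : Fin n → K), x = ∑ i, z i ^ 2}

theorem SqSum.add {x y : K} (hx : x ∈ SqSum K) (hy : y ∈ SqSum K) : x + y ∈ SqSum K := by
  obtain ⟨n, z, rfl⟩ := hx
  obtain ⟨m, w, rfl⟩ := hy
  refine ⟨n + m, Fin.append z w, ?_⟩
  rw [Fin.sum_univ_add]
  simp

theorem SqSum.sq_mul {x : K} (a : K) (hx : x ∈ SqSum K) : a ^ 2 * x ∈ SqSum K := by
  obtain ⟨n, z, rfl⟩ := hx
  exact ⟨n, fun i => a * z i, by simp [Finset.mul_sum, mul_pow]⟩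

theorem SqSum.mul {x y : K} (hx : x ∈ SqSum K) (hy : y ∈ SqSum K) : x * y ∈ SqSum K := by
  obtain ⟨n, z, rfl⟩ := hx
  induction n with
  | zero => exact ⟨0, Fin.elim0, by simp⟩
  | succ n ih =>
    rw [Fin.sum_univ_succ, add_mul]
    exact SqSum.add (SqSum.sq_mul _ hy) (ih _)

theorem SqSum.isPre (h : (-1 : K) ∉ SqSum K) : IsPre (SqSum K) where
  add := SqSum.add
  mul := SqSum.mul
  sq := fun x => ⟨1, fun _ => x, by simp [sq]⟩
  neg_one := h

theorem SqSum.all [CharZero K] (h : (-1 : K) ∈ SqSum K) (y : K) : y ∈ SqSum K := by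
  have h2 : (2 : K) ≠ 0 := two_ne_zero
  have e : y = ((y + 1) / 2) ^ 2 + ((y - 1) / 2) ^ 2 * (-1) := by field_simp; ring
  rw [e]
  exact SqSum.add ⟨1, fun _ => (y + 1) / 2, by simp⟩ (SqSum.sq_mul _ h)

end artin

section numberfield

variable {K : Type} [Field K] [CharZero K]

/-- An ordered field algebraic over the rationals is Archimedean. -/
theorem archimedean_of_algebraic [Algebra.IsAlgebraic ℚ K] [LinearOrder K] [IsStrictOrderedRing K] :
    Archimedean K := by
  rw [archimedean_iff_nat_le]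
  intro x
  by_contra hcon
  push Not at hcon
  have hint : IsIntegral ℚ x := (Algebra.IsAlgebraic.isAlgebraic x).isIntegral
  set p := minpoly ℚ x with hp
  have hmon : p.Monic := minpoly.monic hint
  have hroot : Polynomial.aeval x p = 0 := minpoly.aeval ℚ x
  have hdeg : 0 < p.natDegree := minpoly.natDegree_pos hint
  rw [Polynomial.aeval_eq_sum_range, Finset.sum_range_succ, hmon.coeff_natDegree] at hroot
  set C : ℚ := ∑ i ∈ Finset.range p.natDegree, |p.coeff i| with hC
  obtain ⟨n, hn⟩ := exists_nat_gt C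
  have hx1 : (1 : K) < x := by simpa using hcon 1
  have hxn : ((n : ℕ) : K) < x := hcon n
  have hCx : (C : K) < x := by
    have : (C : K) < ((n : ℕ) : K) := by exact_mod_cast hn
    exact this.trans hxn
  have hb : -(∑ i ∈ Finset.range p.natDegree, p.coeff i • x ^ i)
      ≤ (C : K) * x ^ (p.natDegree - 1) := by
    rw [← Finset.sum_neg_distrib, hC]
    push_cast
    rw [Finset.sum_mul]
    refine Finset.sum_le_sum fun i hi => ?_
    rw [Finset.mem_range] at hi
    rw [Algebra.smul_def, eq_ratCast, ← neg_mul]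
    have h1 : -(p.coeff i : K) ≤ |(p.coeff i : K)| := neg_le_abs _
    have h2 : x ^ i ≤ x ^ (p.natDegree - 1) :=
      pow_le_pow_right₀ hx1.le (by omega)
    have h3 : (0 : K) ≤ x ^ i := pow_nonneg (zero_le_one.trans hx1.le) _
    calc -(p.coeff i : K) * x ^ i ≤ |(p.coeff i : K)| * x ^ i :=
          mul_le_mul_of_nonneg_right h1 h3
      _ ≤ |(p.coeff i : K)| * x ^ (p.natDegree - 1) :=
          mul_le_mul_of_nonneg_left h2 (abs_nonneg _)
      _ = _ := by push_cast; rfl
  have hxp : (0 : K) < x ^ (p.natDegree - 1) := pow_pos (zero_lt_one.trans hx1) _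
  have h5 : x ^ p.natDegree = x * x ^ (p.natDegree - 1) := by
    rw [← pow_succ']
    congr 1
    omega
  have h6 : (C : K) * x ^ (p.natDegree - 1) < x * x ^ (p.natDegree - 1) :=
    mul_lt_mul_of_pos_right hCx hxp
  rw [one_smul] at hroot
  linarith

theorem mem_sqSum_of_pos [Algebra.IsAlgebraic ℚ K] (y : K) (hy : ∀ ρ : K →+* ℝ, 0 < ρ y) :
    y ∈ SqSum K := by
  classical
  by_contra hcon
  have hneg : (-1 : K) ∉ SqSum K := fun h => hcon (SqSum.all h y)
  obtain ⟨Q, hQ, hsub, hyQ, htot⟩ := (SqSum.isPre hneg).exists_total hcon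
  have hanti : ∀ x : K, x ∈ Q → -x ∈ Q → x = 0 := by
    intro x hx hnx
    by_contra hx0
    apply hQ.neg_one
    have : (-1 : K) = (x * -x) * (x⁻¹ * x⁻¹) := by field_simp
    rw [this]
    exact hQ.mul (hQ.mul hx hnx) (hQ.sq _)
  let LO : LinearOrder K :=
    { le := fun a b => b - a ∈ Q
      lt := fun a b => b - a ∈ Q ∧ ¬ (a - b ∈ Q)
      le_refl := fun a => by
        change a - a ∈ Q
        rw [sub_self]; exact hQ.zero
      le_trans := fun a b c hab hbc => by
        change c - a ∈ Q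
        have : c - a = (c - b) + (b - a) := by ring
        rw [this]; exact hQ.add hbc hab
      lt_iff_le_not_ge := fun a b => Iff.rfl
      le_antisymm := fun a b hab hba => by
        have h1 : b - a ∈ Q := hab
        have h2 : -(b - a) ∈ Q := by rw [neg_sub]; exact hba
        have := hanti _ h1 h2
        exact (sub_eq_zero.1 this).symm
      le_total := fun a b => by
        rcases htot (b - a) with h | h
        · exact Or.inl h
        · right
          change a - b ∈ Q
          rw [← neg_sub]; exact h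
      toDecidableLE := Classical.decRel _ }
  have hle : ∀ a b : K, a ≤ b ↔ b - a ∈ Q := fun a b => Iff.rfl
  have hOR : IsOrderedRing K :=
    { add_le_add_left := fun a b hab c => by
        rw [hle] at hab ⊢
        have : b + c - (a + c) = b - a := by ring
        rw [this]; exact hab
      zero_le_one := by rw [hle, sub_zero]; exact hQ.one
      mul_le_mul_of_nonneg_left := fun a ha b c hbc => by
        rw [hle] at ha hbc ⊢
        change a * c - a * b ∈ Q
        rw [sub_zero] at ha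
        have : a * c - a * b = a * (c - b) := by ring
        rw [this]; exact hQ.mul ha hbc
      mul_le_mul_of_nonneg_right := fun a ha b c hbc => by
        rw [hle] at ha hbc ⊢
        change c * a - b * a ∈ Q
        rw [sub_zero] at ha
        have : c * a - b * a = (c - b) * a := by ring
        rw [this]; exact hQ.mul hbc ha }
  have hSO : IsStrictOrderedRing K := IsOrderedRing.toIsStrictOrderedRing K
  have hA : Archimedean K := archimedean_of_algebraic
  let f : K →+*o ℝ := LinearOrderedField.inducedOrderRingHom K ℝ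
  have h1 : y ≤ 0 := by rw [hle, zero_sub]; exact hyQ
  have h2 : f y ≤ f 0 := f.monotone' h1
  have h3 := hy (f : K →+* ℝ)
  have h4 : ((f : K →+* ℝ) y) = f y := rfl
  rw [h4] at h3
  rw [map_zero] at h2
  linarith

/-- A nonnegative rational is a sum of four rational squares. -/
theorem rat_four_squares (q : ℚ) (hq : 0 ≤ q) : ∃ z : Fin 4 → ℚ, q = ∑ i, z i ^ 2 := by
  obtain ⟨a, b, c, d, h⟩ := Nat.sum_four_squares (q.num.toNat * q.den)
  have hden : (q.den : ℚ) ≠ 0 := by exact_mod_cast q.den_nz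
  refine ⟨![a / q.den, b / q.den, c / q.den, d / q.den], ?_⟩
  have hnum : ((q.num.toNat : ℕ) : ℚ) = (q.num : ℚ) := by
    have : ((q.num.toNat : ℕ) : ℤ) = q.num := Int.toNat_of_nonneg (Rat.num_nonneg.2 hq)
    exact_mod_cast this
  have h2 : (a : ℚ) ^ 2 + (b : ℚ) ^ 2 + (c : ℚ) ^ 2 + (d : ℚ) ^ 2 = q.num * q.den := by
    rw [← hnum]; exact_mod_cast h
  have h3 : q = q.num / q.den := (Rat.num_div_den q).symm
  simp only [Fin.sum_univ_four, Matrix.cons_val_zero, Matrix.cons_val_one, Matrix.cons_val]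
  field_simp
  rw [h2]
  nth_rewrite 1 [h3]
  field_simp

theorem sum_sq_pad {ι : Type*} [Fintype ι] {N : ℕ} (hN : Fintype.card ι ≤ N) (f : ι → K) :
    ∃ z : Fin N → K, ∑ i, f i ^ 2 = ∑ j, z j ^ 2 := by
  classical
  obtain ⟨e⟩ : Nonempty (ι ↪ Fin N) := by
    rw [← Fintype.card_fin N] at hN
    exact Function.Embedding.nonempty_of_card_le hN
  refine ⟨Function.extend e f 0, ?_⟩
  have h1 : ∑ j ∈ Finset.univ.map e, (Function.extend e f 0 j) ^ 2
      = ∑ j, (Function.extend e f 0 j) ^ 2 := by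
    refine Finset.sum_subset (Finset.subset_univ _) fun j _ hj => ?_
    have : ¬ ∃ i, e i = j := by
      rintro ⟨i, rfl⟩
      exact hj (by simp)
    rw [Function.extend_apply' _ _ _ this]
    simp
  rw [← h1, Finset.sum_map]
  refine Finset.sum_congr rfl fun i _ => ?_
  rw [e.injective.extend_apply]

/-- Totally positive elements of a number field are sums of a bounded number of squares. -/
theorem exists_bound_squares (K : Type) [Field K] [NumberField K] :
    ∃ N : ℕ, ∀ y : K, (∀ ρ : K →+* ℝ, 0 < ρ y) → ∃ z : Fin N → K, y = ∑ i, z i ^ 2 := by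
  refine ⟨(Module.finrank ℚ K + 1) * 4, fun y hy => ?_⟩
  obtain ⟨n, z, hz⟩ := mem_sqSum_of_pos y hy
  rcases Nat.eq_zero_or_pos n with hn | hn
  · subst hn
    exact ⟨fun _ => 0, by rw [hz]; simp⟩
  have hn' : (n : ℚ) ≠ 0 := by exact_mod_cast hn.ne'
  have hmem : (n : ℚ)⁻¹ • y ∈ convexHull ℚ (Set.range (fun x : K => x ^ 2)) := by
    rw [hz, Finset.smul_sum]
    refine (convex_convexHull ℚ _).sum_mem (fun i _ => by positivity) ?_ (fun i _ => ?_)
    · simp [hn']
    · exact subset_convexHull ℚ _ ⟨z i, rfl⟩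
  obtain ⟨ι, hι, w, c, hw, hai, hc0, -, hsum⟩ := eq_pos_convex_span_of_mem_convexHull hmem
  have hcard : Fintype.card ι ≤ Module.finrank ℚ K + 1 := hai.card_le_finrank_succ.trans (by
    have := Submodule.finrank_le (vectorSpan ℚ (Set.range w))
    omega)
  have hx : ∀ i, ∃ x : K, x ^ 2 = w i := fun i => by
    obtain ⟨x, hx⟩ := hw ⟨i, rfl⟩
    exact ⟨x, hx⟩
  choose x hx using hx
  have hr : ∀ i, ∃ r : Fin 4 → ℚ, (n : ℚ) * c i = ∑ j, r j ^ 2 := fun i =>
    rat_four_squares _ (by have := (hc0 i).le; positivity)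
  choose r hr using hr
  have hy2 : y = ∑ ij : ι × Fin 4, (((r ij.1 ij.2 : ℚ) : K) * x ij.1) ^ 2 := by
    have h1 : y = (n : ℚ) • ∑ i, c i • w i := by
      rw [hsum, smul_smul, mul_inv_cancel₀ hn', one_smul]
    rw [h1, Finset.smul_sum, Fintype.sum_prod_type]
    refine Finset.sum_congr rfl fun i _ => ?_
    rw [smul_smul, hr i, ← hx i, Finset.sum_smul]
    refine Finset.sum_congr rfl fun j _ => ?_
    rw [Algebra.smul_def, eq_ratCast]
    push_cast
    ring
  obtain ⟨z', hz'⟩ := sum_sq_pad (N := (Module.finrank ℚ K + 1) * 4) (by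
    rw [Fintype.card_prod, Fintype.card_fin]
    exact Nat.mul_le_mul_right 4 hcard) (fun ij : ι × Fin 4 => ((r ij.1 ij.2 : ℚ) : K) * x ij.1)
  exact ⟨z', hy2.trans hz'⟩

end numberfield

end Pool.Agent.H60.UDef
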