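import Mathlib

/-!
Weak approximation: elements of a number field with prescribed signs at the real embeddings.
-/

set_option autoImplicit false

open NumberField

namespace Pool.Agent.H60.UDef

variable {K : Type} [Field K]

/-- The complex embedding attached to a real embedding. -/
noncomputable def cplx (ρ : K →+* ℝ) : K →+* ℂ := (Complex.ofRealHom : ℝ →+* ℂ).comp ρ

theorem cplx_injective : Function.Injective (cplx : (K →+* ℝ) → (K →+* ℂ)) := by
  intro ρ τ h
  ext x
  have := RingHom.congr_fun h x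
  simpa [cplx] using this

theorem conj_cplx (ρ : K →+* ℝ) : ComplexEmbedding.conjugate (cplx ρ) = cplx ρ := by
  ext x
  simp [cplx]

instance [NumberField K] : Finite (K →+* ℝ) := Finite.of_injective _ cplx_injective

theorem mk_cplx_injective [NumberField K] :
    Function.Injective (fun ρ : K →+* ℝ => InfinitePlace.mk (cplx ρ)) := by
  intro ρ τ h
  rcases InfinitePlace.mk_eq_iff.1 h with h | h
  · exact cplx_injective h
  · rw [conj_cplx] at h
    exact cplx_injective h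

theorem exists_signs [NumberField K] (ε : (K →+* ℝ) → ℤ) (hε : ∀ ρ, ε ρ = 1 ∨ ε ρ = -1) :
    ∃ w : K, ∀ ρ : K →+* ℝ, 0 < (ε ρ : ℝ) * ρ w := by
  classical
  let t : InfinitePlace K → ℤ := fun v =>
    if h : ∃ ρ : K →+* ℝ, InfinitePlace.mk (cplx ρ) = v then ε h.choose else 1
  have ht : ∀ ρ : K →+* ℝ, t (InfinitePlace.mk (cplx ρ)) = ε ρ := by
    intro ρ
    have h : ∃ ρ' : K →+* ℝ, InfinitePlace.mk (cplx ρ') = InfinitePlace.mk (cplx ρ) := ⟨ρ, rfl⟩
    simp only [t, dif_pos h]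
    rw [mk_cplx_injective h.choose_spec]
  obtain ⟨w, hw⟩ := (Metric.denseRange_iff.1 (InfinitePlace.denseRange_algebraMap_pi K))
    (fun v => WithAbs.toAbs v.1 (t v : K)) 1 one_pos
  refine ⟨w, fun ρ => ?_⟩
  have h1 : dist (WithAbs.toAbs (InfinitePlace.mk (cplx ρ)).1 ((t (InfinitePlace.mk (cplx ρ)) : ℤ) : K))
      (WithAbs.toAbs (InfinitePlace.mk (cplx ρ)).1 w) < 1 := by
    refine lt_of_le_of_lt ?_ hw
    exact dist_le_pi_dist (fun v : InfinitePlace K => WithAbs.toAbs v.1 ((t v : ℤ) : K))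
      (algebraMap K ((v : InfinitePlace K) → WithAbs v.1) w) (InfinitePlace.mk (cplx ρ))
  rw [dist_eq_norm, ← WithAbs.toAbs_sub, WithAbs.norm_toAbs_eq, ht] at h1
  have h2 : (InfinitePlace.mk (cplx ρ)).1 ((ε ρ : K) - w) = |(ε ρ : ℝ) - ρ w| := by
    change ‖cplx ρ ((ε ρ : K) - w)‖ = _
    simp only [cplx, RingHom.comp_apply, Complex.ofRealHom_eq_coe, map_sub, map_intCast]
    rw [show ((ε ρ : ℤ) : ℂ) - (ρ w : ℂ) = (((ε ρ : ℝ) - ρ w : ℝ) : ℂ) by push_cast; rfl,
      Complex.norm_real, Real.norm_eq_abs]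
  rw [h2, abs_lt] at h1
  rcases hε ρ with h | h <;> rw [h] at h1 ⊢ <;> push_cast at h1 ⊢ <;> linarith [h1.1, h1.2]

end Pool.Agent.H60.UDef
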