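import Pool.Agent.Lib.H60.UDef.Tern

/-!
The `p`-adically small rationals are sums of two elements of the ternary sets.
-/

set_option autoImplicit false

namespace Pool.Agent.H60.UDef

/-- Solvability of the auxiliary quaternary equations. -/
def AuxPrime (p l : ℕ) : Prop :=
  ∀ m n : ℤ, IsCoprime n ((p : ℤ) * l) →
    ∃ α β γ : ℚ, (n : ℚ) ^ 2 + p * l * (m : ℚ) ^ 2 + γ ^ 2 = l * α ^ 2 + p * β ^ 2

theorem AuxPrime.tern {p l : ℕ} (hp : p.Prime) (h : AuxPrime p l) (m n : ℤ)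
    (hn : IsCoprime n ((p : ℤ) * l)) : Tern p l ((p * l * m / n : ℚ)) := by
  have hn0 : (n : ℚ) ≠ 0 := by
    intro h0
    have h1 : n = 0 := by exact_mod_cast h0
    rw [h1, isCoprime_zero_left] at hn
    have h2 : IsUnit (p : ℤ) := isUnit_of_mul_isUnit_left hn
    rw [Int.isUnit_iff] at h2
    have := hp.one_lt
    omega
  obtain ⟨α, β, γ, h⟩ := h m n hn
  refine ⟨l * α / n, p * β / n, γ / n, ?_⟩
  field_simp
  linear_combination (p : ℚ) * l * h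

theorem AuxPrime.add {p l₁ l₂ : ℕ} (hp : Fact p.Prime) (h₁ : AuxPrime p l₁) (h₂ : AuxPrime p l₂)
    (hl₁ : l₁.Prime) (hl₂ : l₂.Prime) (hne : l₁ ≠ l₂) (q : ℚ) (hq : ‖(q : ℚ_[p])‖ < 1) :
    ∃ u v : ℚ, Tern p l₁ u ∧ Tern p l₂ v ∧ q = u + v := by
  have hpp := hp.out
  -- numerator divisible by `p`, denominator prime to `p`
  have hpd : ¬ p ∣ q.den := by
    intro h
    have h1 : ¬ (p : ℤ) ∣ q.num := by
      intro h2
      have h3 : p ∣ q.num.natAbs := Int.natCast_dvd.1 h2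
      have h4 := Nat.dvd_gcd h3 h
      have h5 : Nat.gcd q.num.natAbs q.den = 1 := q.reduced
      rw [h5] at h4
      exact hpp.one_lt.ne' (Nat.dvd_one.1 h4)
    have h2 : ‖((q.num : ℤ) : ℚ_[p])‖ = 1 := by
      have h3 : ¬ ‖((q.num : ℤ) : ℚ_[p])‖ < 1 := by
        rw [Padic.norm_intCast_lt_one_iff]; exact h1
      exact le_antisymm (Padic.norm_int_le_one _) (not_lt.1 h3)
    have h3 : ‖((q.den : ℤ) : ℚ_[p])‖ < 1 := by
      rw [Padic.norm_intCast_lt_one_iff]; exact_mod_cast h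
    have h4 : (q : ℚ_[p]) * (q.den : ℚ_[p]) = (q.num : ℚ_[p]) := by
      exact_mod_cast congrArg (fun z : ℚ => (z : ℚ_[p])) (Rat.mul_den_eq_num q)
    have h5 := congrArg norm h4
    rw [norm_mul, h2] at h5
    rw [Int.cast_natCast] at h3
    have h6 : ‖(q : ℚ_[p])‖ * ‖(q.den : ℚ_[p])‖ < 1 := by
      have := norm_nonneg (q : ℚ_[p])
      have := norm_nonneg (q.den : ℚ_[p])
      nlinarith
    linarith
  have hpn : (p : ℤ) ∣ q.num := by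
    have h4 : (q : ℚ_[p]) * (q.den : ℚ_[p]) = (q.num : ℚ_[p]) := by
      exact_mod_cast congrArg (fun z : ℚ => (z : ℚ_[p])) (Rat.mul_den_eq_num q)
    rw [← Padic.norm_intCast_lt_one_iff, ← h4, norm_mul]
    have h5 : ‖((q.den : ℤ) : ℚ_[p])‖ ≤ 1 := Padic.norm_int_le_one _
    rw [Int.cast_natCast] at h5
    have := norm_nonneg (q : ℚ_[p])
    have := norm_nonneg (q.den : ℚ_[p])
    nlinarith
  obtain ⟨a, ha⟩ := hpn
  have hden : q.den ≠ 0 := q.den_ne_zero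
  obtain ⟨i, c, hc, hic⟩ := Nat.exists_eq_pow_mul_and_not_dvd hden l₁ hl₁.ne_one
  obtain ⟨j, d, hd, hjd⟩ := Nat.exists_eq_pow_mul_and_not_dvd hden l₂ hl₂.ne_one
  have hcop : IsCoprime ((l₁ : ℤ) ^ (i + 1)) ((l₂ : ℤ) ^ (j + 1)) := by
    apply IsCoprime.pow
    rw [Nat.isCoprime_iff_coprime]
    exact (Nat.coprime_primes hl₁ hl₂).2 hne
  obtain ⟨x, y, hxy⟩ := hcop
  have hpc : ¬ p ∣ c := fun h => hpd (hic ▸ h.mul_left _)
  have hpd' : ¬ p ∣ d := fun h => hpd (hjd ▸ h.mul_left _)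
  have hc0 : c ≠ 0 := by rintro rfl; exact hpc (dvd_zero p)
  have hd0 : d ≠ 0 := by rintro rfl; exact hpd' (dvd_zero p)
  have hcc : IsCoprime (c : ℤ) ((p : ℤ) * l₁) := by
    refine IsCoprime.mul_right ?_ ?_
    · rw [Nat.isCoprime_iff_coprime, Nat.coprime_comm]
      exact (Nat.Prime.coprime_iff_not_dvd hpp).2 hpc
    · rw [Nat.isCoprime_iff_coprime, Nat.coprime_comm]
      exact (Nat.Prime.coprime_iff_not_dvd hl₁).2 hc
  have hdd : IsCoprime (d : ℤ) ((p : ℤ) * l₂) := by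
    refine IsCoprime.mul_right ?_ ?_
    · rw [Nat.isCoprime_iff_coprime, Nat.coprime_comm]
      exact (Nat.Prime.coprime_iff_not_dvd hpp).2 hpd'
    · rw [Nat.isCoprime_iff_coprime, Nat.coprime_comm]
      exact (Nat.Prime.coprime_iff_not_dvd hl₂).2 hd
  refine ⟨_, _, h₁.tern hpp (a * x) c hcc, h₂.tern hpp (a * y) d hdd, ?_⟩
  have hq1 : q * (q.den : ℚ) = p * a := by
    rw [Rat.mul_den_eq_num]; exact_mod_cast ha
  have hxy' : (x : ℚ) * (l₁ : ℚ) ^ (i + 1) + y * (l₂ : ℚ) ^ (j + 1) = 1 := by exact_mod_cast hxy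
  have hic' : (q.den : ℚ) = (l₁ : ℚ) ^ i * c := by exact_mod_cast hic
  have hjd' : (q.den : ℚ) = (l₂ : ℚ) ^ j * d := by exact_mod_cast hjd
  have hc1 : (c : ℚ) ≠ 0 := by exact_mod_cast hc0
  have hd1 : (d : ℚ) ≠ 0 := by exact_mod_cast hd0
  have hden1 : (q.den : ℚ) ≠ 0 := by exact_mod_cast hden
  have hl1 : (l₁ : ℚ) ≠ 0 := by exact_mod_cast hl₁.ne_zero
  have hl2 : (l₂ : ℚ) ≠ 0 := by exact_mod_cast hl₂.ne_zero
  push_cast
  have e1 : (p : ℚ) * l₁ * (a * x) / c = q * (x * (l₁ : ℚ) ^ (i + 1)) := by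
    rw [div_eq_iff hc1]
    have : q * (x * (l₁ : ℚ) ^ (i + 1)) * c = q * ((l₁ : ℚ) ^ i * c) * (x * l₁) := by ring
    rw [this, ← hic', hq1]; ring
  have e2 : (p : ℚ) * l₂ * (a * y) / d = q * (y * (l₂ : ℚ) ^ (j + 1)) := by
    rw [div_eq_iff hd1]
    have : q * (y * (l₂ : ℚ) ^ (j + 1)) * d = q * ((l₂ : ℚ) ^ j * d) * (y * l₂) := by ring
    rw [this, ← hjd', hq1]; ring
  rw [e1, e2, ← mul_add, hxy', mul_one]

/-- The set of sums. -/
def Tern2 {K : Type} [Field K] (p l₁ l₂ : ℕ) (x : K) : Prop :=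
  ∃ u v : K, Tern p l₁ u ∧ Tern p l₂ v ∧ x = u + v

/-- Data of a prime with two auxiliary primes. -/
structure GoodPrime (p l₁ l₂ : ℕ) : Prop where
  sound₁ : ∀ z : ZMod p, z ^ 2 ≠ (l₁ : ZMod p)
  sound₂ : ∀ z : ZMod p, z ^ 2 ≠ (l₂ : ZMod p)
  aux₁ : AuxPrime p l₁
  aux₂ : AuxPrime p l₂
  prime₁ : l₁.Prime
  prime₂ : l₂.Prime
  ne : l₁ ≠ l₂

theorem Tern2.norm_lt {K : Type} [Field K] {p l₁ l₂ : ℕ} [hp : Fact p.Prime]
    (hg : GoodPrime p l₁ l₂) {x : K} (h : Tern2 p l₁ l₂ x) (σ : K →+* ℚ_[p]) : ‖σ x‖ < 1 := by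
  obtain ⟨u, v, hu, hv, rfl⟩ := h
  rw [map_add]
  refine (IsUltrametricDist.norm_add_le_max _ _).trans_lt (max_lt ?_ ?_)
  · exact (hu.map σ).norm_lt hg.sound₁
  · exact (hv.map σ).norm_lt hg.sound₂

theorem Tern2.of_rat {K : Type} [Field K] [CharZero K] {p l₁ l₂ : ℕ} [hp : Fact p.Prime]
    (hg : GoodPrime p l₁ l₂) {q : ℚ} (hq : ‖(q : ℚ_[p])‖ < 1) : Tern2 p l₁ l₂ (q : K) := by
  obtain ⟨u, v, hu, hv, h⟩ := hg.aux₁.add hp hg.aux₂ hg.prime₁ hg.prime₂ hg.ne q hq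
  refine ⟨u, v, hu.map (Rat.castHom K), hv.map (Rat.castHom K), ?_⟩
  rw [h]; push_cast; ring

theorem dio_tern2 {K : Type} [Field K] (p l₁ l₂ : ℕ) :
    Dio K (fun v : Fin 1 → K => Tern2 p l₁ l₂ (v 0)) := by
  have h1 : Dio K (fun v : Fin 1 ⊕ Fin 2 → K => Tern p l₁ (v (Sum.inr 0))) :=
    (dio_tern p l₁).comp (fun _ : Fin 1 => (Sum.inr 0 : Fin 1 ⊕ Fin 2))
  have h2 : Dio K (fun v : Fin 1 ⊕ Fin 2 → K => Tern p l₂ (v (Sum.inr 1))) :=
    (dio_tern p l₂).comp (fun _ : Fin 1 => (Sum.inr 1 : Fin 1 ⊕ Fin 2))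
  have h3 : Dio K (fun v : Fin 1 ⊕ Fin 2 → K => v (Sum.inl 0) = v (Sum.inr 0) + v (Sum.inr 1)) :=
    (Dio.eq (K := K) (FreeCommRing.of (Sum.inl 0))
      (FreeCommRing.of (Sum.inr 0) + FreeCommRing.of (Sum.inr 1) :
        FreeCommRing (Fin 1 ⊕ Fin 2))).congr fun v => by simp
  refine (h1.and (h2.and h3)).exFin.congr fun v => ?_
  constructor
  · rintro ⟨w, h⟩
    exact ⟨w 0, w 1, h⟩
  · rintro ⟨a, b, h⟩
    exact ⟨![a, b], h⟩

end Pool.Agent.H60.UDef
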