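import Pool.Agent.Lib.H60.UDef.ParamRel
import Pool.Agent.Lib.H60.UDef.TernComplete

/-!
The valuation rings of the places of degree one above a completely split prime are Diophantine.
-/

set_option autoImplicit false

open Module

namespace Pool.Agent.H60.UDef

section

variable {K : Type} [Field K] [NumberField K] {p l₁ l₂ : ℕ} [hp : Fact p.Prime]

theorem norm_eq_one_of_sub {a b : ℚ_[p]} (h : ‖a - b‖ < ‖b‖) : ‖a‖ = ‖b‖ := by
  have e : a = (a - b) + b := by ring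
  rw [e, IsUltrametricDist.norm_add_eq_max_of_norm_ne_norm h.ne, max_eq_right h.le]

theorem le_norm_of_one_lt {a : ℚ_[p]} (h : 1 < ‖a‖) : (p : ℝ) ≤ ‖a‖ := by
  have ha : a ≠ 0 := by rintro rfl; rw [norm_zero] at h; linarith
  have hp0 : (0 : ℝ) < p := by exact_mod_cast hp.out.pos
  have hp1 : (1 : ℝ) < p := by exact_mod_cast hp.out.one_lt
  rw [Padic.norm_eq_zpow_neg_valuation ha] at h ⊢
  have h2 : 0 < -a.valuation := by
    by_contra hle
    push Not at hle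
    have : (p : ℝ) ^ (-a.valuation) ≤ 1 := zpow_le_one_of_nonpos₀ hp1.le hle
    linarith
  calc (p : ℝ) = (p : ℝ) ^ (1 : ℤ) := (zpow_one _).symm
    _ ≤ (p : ℝ) ^ (-a.valuation) := zpow_le_zpow_right₀ hp1.le (by omega)

theorem norm_le_inv_of_lt_one {a : ℚ_[p]} (h : ‖a‖ < 1) : ‖a‖ ≤ (p : ℝ)⁻¹ := by
  by_cases ha : a = 0
  · subst ha; rw [norm_zero]; positivity
  · have h1 : 1 < ‖a⁻¹‖ := by rw [norm_inv]; exact (one_lt_inv₀ (norm_pos_iff.2 ha)).2 h
    have h2 := le_norm_of_one_lt h1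
    rw [norm_inv] at h2
    have hp0 : (0 : ℝ) < p := by exact_mod_cast hp.out.pos
    exact (le_inv_comm₀ hp0 (norm_pos_iff.2 ha)).1 h2

theorem dioP_integral (hs : Splits p K) (hg : GoodPrime p l₁ l₂) :
    DioP K (fun y => ∀ σ : K →+* ℚ_[p], ‖σ y‖ ≤ 1) := by
  classical
  have hp0 : (0 : ℝ) < p := by exact_mod_cast hp.out.pos
  have hp1 : (1 : ℝ) < p := by exact_mod_cast hp.out.one_lt
  have := Fintype.ofFinite (K →+* ℚ_[p])
  obtain ⟨C, hC⟩ := hs.bounded
  obtain ⟨N, hN⟩ := pow_unbounded_of_one_lt C hp1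
  set B : ℝ := ∑ σ : K →+* ℚ_[p], ∑ j, ‖σ (finBasis ℚ K j)‖ with hB
  obtain ⟨k, hk⟩ := pow_unbounded_of_one_lt (B * (p : ℝ) ^ N) hp1
  set D2 : K → Prop := fun y => ∃ d : Fin (finrank ℚ K) → K, (∀ j, Tern2 p l₁ l₂ (d j)) ∧
    (p : K) ^ N * y = ∑ j, d j * finBasis ℚ K j with hD2
  have hdio : DioR K (fun v : Fin 1 → K => D2 (v 0)) := by
    have h1 : DioR K (fun v : Fin 1 ⊕ Fin (finrank ℚ K) → K =>
        ∀ j, Tern2 p l₁ l₂ (v (Sum.inr j))) := by
      refine DioR.forall_fintype fun j => ?_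
      exact (dio_tern2 p l₁ l₂).dioR.comp (fun _ : Fin 1 => (Sum.inr j : Fin 1 ⊕ Fin (finrank ℚ K)))
    have h2 : DioR K (fun v : Fin 1 ⊕ Fin (finrank ℚ K) → K =>
        (p : K) ^ N * v (Sum.inl 0) = ∑ j, v (Sum.inr j) * finBasis ℚ K j) :=
      DioR.eq ((PF.const _).mul (PF.var _))
        (PF.sum _ fun j => (PF.var _).mul (PF.const _))
    exact (h1.and h2).ex
  have hsound : ∀ y, D2 y → ∀ σ : K →+* ℚ_[p], ‖σ y‖ ≤ B * (p : ℝ) ^ N := by
    rintro y ⟨d, hd, he⟩ σ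
    have h1 := congrArg (fun z => ‖σ z‖) he
    simp only [map_mul, map_pow, map_natCast, norm_mul, norm_pow, Padic.norm_p, map_sum] at h1
    have h2 : ‖∑ j, σ (d j) * σ (finBasis ℚ K j)‖ ≤ B := by
      refine (norm_sum_le _ _).trans ?_
      refine le_trans (Finset.sum_le_sum (g := fun j => ‖σ (finBasis ℚ K j)‖) fun j _ => ?_) ?_
      · rw [norm_mul]
        exact mul_le_of_le_one_left (norm_nonneg _) ((hd j).norm_lt hg σ).le
      · exact Finset.single_le_sum (f := fun σ : K →+* ℚ_[p] => ∑ j, ‖σ (finBasis ℚ K j)‖)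
          (fun σ _ => Finset.sum_nonneg fun j _ => norm_nonneg _) (Finset.mem_univ σ)
    rw [← h1] at h2
    rw [inv_pow, inv_mul_le_iff₀ (by positivity)] at h2
    linarith
  have hcomplete : ∀ y : K, (∀ σ : K →+* ℚ_[p], ‖σ y‖ ≤ 1) → D2 y := by
    intro y hy
    refine ⟨fun j => (((p : ℚ) ^ N * (finBasis ℚ K).repr y j : ℚ) : K), fun j => ?_, ?_⟩
    · refine Tern2.of_rat hg ?_
      have h1 := hC y hy j
      push_cast
      rw [norm_mul, norm_pow, Padic.norm_p, inv_pow, inv_mul_lt_iff₀ (by positivity), mul_one]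
      exact h1.trans_lt hN
    · conv_lhs => rw [← (finBasis ℚ K).sum_repr y]
      rw [Finset.mul_sum]
      refine Finset.sum_congr rfl fun j _ => ?_
      rw [Algebra.smul_def]
      push_cast
      simp only [eq_ratCast]
      ring
  have hfin : DioR K (fun v : Fin 1 → K => D2 (v 0 ^ k)) :=
    hdio.subst (φ := fun _ v => v 0 ^ k) fun _ => (PF.var 0).pow k
  refine hfin.dioP.congr fun y => ?_
  constructor
  · intro h σ
    by_contra hlt
    push Not at hlt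
    have h1 := le_norm_of_one_lt hlt
    have h2 := hsound _ h σ
    rw [map_pow, norm_pow] at h2
    have h3 : (p : ℝ) ^ k ≤ ‖σ y‖ ^ k := pow_le_pow_left₀ hp0.le h1 k
    linarith
  · intro h
    refine hcomplete _ fun σ => ?_
    rw [map_pow, norm_pow]
    exact pow_le_one₀ (norm_nonneg _) (h σ)

theorem dioP_val (hs : Splits p K) (hg : GoodPrime p l₁ l₂) (σ₀ : K →+* ℚ_[p]) :
    DioP K (fun y => ‖σ₀ y‖ ≤ 1) := by
  classical
  have hp0 : (0 : ℝ) < p := by exact_mod_cast hp.out.pos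
  have hp1 : (1 : ℝ) < p := by exact_mod_cast hp.out.one_lt
  have hpinv : (p : ℝ)⁻¹ < 1 := inv_lt_one_of_one_lt₀ hp1
  have hpinv0 : (0 : ℝ) < (p : ℝ)⁻¹ := by positivity
  have := Fintype.ofFinite (K →+* ℚ_[p])
  have hO := dioP_integral hs hg
  obtain ⟨w, hw⟩ := hs.approx (fun σ => if σ = σ₀ then (p : ℚ_[p]) else 1) hpinv0
  have hw0 : ‖σ₀ w‖ = (p : ℝ)⁻¹ := by
    have h1 := hw σ₀
    rw [if_pos rfl] at h1
    rw [← Padic.norm_p]
    exact norm_eq_one_of_sub (by rw [Padic.norm_p]; exact h1)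
  have hw1 : ∀ σ, σ ≠ σ₀ → ‖σ w‖ = 1 := by
    intro σ hσ
    have h1 := hw σ
    rw [if_neg hσ] at h1
    have := norm_eq_one_of_sub (a := σ w) (b := 1) (by rw [norm_one]; linarith)
    rw [this, norm_one]
  have hwne : w ≠ 0 := by
    rintro rfl
    rw [map_zero, norm_zero] at hw0
    linarith
  have h1 : DioR K (fun v : Fin 1 ⊕ Fin 3 → K => v (Sum.inl 0) * v (Sum.inr 1) = v (Sum.inr 0)) :=
    DioR.eq ((PF.var _).mul (PF.var _)) (PF.var _)
  have h2 : DioR K (fun v : Fin 1 ⊕ Fin 3 → K => ∀ σ : K →+* ℚ_[p], ‖σ (v (Sum.inr 0))‖ ≤ 1) :=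
    DioR.app hO (PF.var _)
  have h3 : DioR K (fun v : Fin 1 ⊕ Fin 3 → K => ∀ σ : K →+* ℚ_[p], ‖σ (v (Sum.inr 1))‖ ≤ 1) :=
    DioR.app hO (PF.var _)
  have h4 : DioR K (fun v : Fin 1 ⊕ Fin 3 → K => ∀ σ : K →+* ℚ_[p], ‖σ (v (Sum.inr 2))‖ ≤ 1) :=
    DioR.app hO (PF.var _)
  have h5 : DioR K (fun v : Fin 1 ⊕ Fin 3 → K => v (Sum.inr 1) - 1 = w * v (Sum.inr 2)) :=
    DioR.eq ((PF.var _).sub (PF.const _)) ((PF.const _).mul (PF.var _))
  refine ((h1.and (h2.and (h3.and (h4.and h5)))).ex).dioP.congr fun y => ?_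
  simp only [Sum.elim_inl, Sum.elim_inr]
  constructor
  · rintro ⟨z, e1, e2, e3, e4, e5⟩
    have h6 : ‖σ₀ (z 1) - 1‖ < ‖(1 : ℚ_[p])‖ := by
      have := congrArg (fun t => ‖σ₀ t‖) e5
      simp only [map_sub, map_one, map_mul, norm_mul] at this
      rw [this, norm_one, hw0]
      have := e4 σ₀
      nlinarith
    have h7 := norm_eq_one_of_sub h6
    rw [norm_one] at h7
    have h8 := congrArg (fun t => ‖σ₀ t‖) e1
    simp only [map_mul, norm_mul, h7, mul_one] at h8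
    rw [h8]
    exact e2 σ₀
  · intro hy
    set S : ℝ := ∑ σ : K →+* ℚ_[p], ‖σ y‖ with hS
    have hS0 : 0 ≤ S := by positivity
    have hε : 0 < (p : ℝ)⁻¹ * (1 + S)⁻¹ := by positivity
    have hSinv : (1 + S)⁻¹ ≤ 1 := inv_le_one_of_one_le₀ (by linarith)
    have hSinv0 : 0 < (1 + S)⁻¹ := by positivity
    obtain ⟨y2, hy2⟩ := hs.approx (fun σ => if σ = σ₀ then (1 : ℚ_[p]) else 0) hε
    have ha : ‖σ₀ y2 - 1‖ < (p : ℝ)⁻¹ := by
      have h1 := hy2 σ₀
      rw [if_pos rfl] at h1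
      nlinarith
    have ha' : ‖σ₀ y2‖ = 1 := by
      have := norm_eq_one_of_sub (a := σ₀ y2) (b := 1) (by rw [norm_one]; linarith)
      rw [this, norm_one]
    have hb : ∀ σ, σ ≠ σ₀ → ‖σ y2‖ < (1 + S)⁻¹ := by
      intro σ hσ
      have h1 := hy2 σ
      rw [if_neg hσ, sub_zero] at h1
      nlinarith
    have hyS : ∀ σ : K →+* ℚ_[p], ‖σ y‖ ≤ S := fun σ =>
      Finset.single_le_sum (f := fun σ : K →+* ℚ_[p] => ‖σ y‖) (fun σ _ => norm_nonneg _)
        (Finset.mem_univ σ)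
    refine ⟨![y * y2, y2, (y2 - 1) / w], rfl, ?_, ?_, ?_, ?_⟩
    · intro σ
      simp only [Matrix.cons_val_zero, map_mul, norm_mul]
      by_cases hσ : σ = σ₀
      · subst hσ; rw [ha', mul_one]; exact hy
      · have h1 := hb σ hσ
        have h2 := hyS σ
        calc ‖σ y‖ * ‖σ y2‖ ≤ S * (1 + S)⁻¹ :=
              mul_le_mul h2 h1.le (norm_nonneg _) hS0
          _ ≤ 1 := by rw [← div_eq_mul_inv, div_le_one (by linarith)]; linarith
    · intro σ
      simp only [Matrix.cons_val_one, Matrix.cons_val_zero]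
      by_cases hσ : σ = σ₀
      · subst hσ; rw [ha']
      · exact (hb σ hσ).le.trans hSinv
    · intro σ
      simp only [Matrix.cons_val, map_div₀, norm_div, map_sub, map_one]
      by_cases hσ : σ = σ₀
      · subst hσ
        rw [hw0, div_le_one hpinv0]
        exact ha.le
      · rw [hw1 σ hσ, div_one, sub_eq_add_neg]
        refine (IsUltrametricDist.norm_add_le_max _ _).trans (max_le ?_ ?_)
        · exact (hb σ hσ).le.trans hSinv
        · rw [norm_neg, norm_one]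
    · simp only [Matrix.cons_val, Matrix.cons_val_one, Matrix.cons_val_zero]
      rw [mul_div_cancel₀ _ hwne]

end

end Pool.Agent.H60.UDef
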