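import Pool.Agent.Lib.H60.UDef.Chain
import Pool.Agent.Lib.H60.UDef.NormRatio
import Pool.Agent.Lib.H60.UDef.ValRing

/-!
The complement of a rank-stable subfield is Diophantine (given a good split prime).
-/

set_option autoImplicit false

open WeierstrassCurve WeierstrassCurve.Affine Module

namespace Pool.Agent.H60.UDef

/-- x-coordinates of `(k + 1)`-multiples (generic chains). -/
def XSet {K : Type} [Field K] (A B : K) (k : ℕ) (s : K) : Prop :=
  ∃ x₁ y₁ y' : K, y₁ ^ 2 = x₁ ^ 3 + A * x₁ + B ∧ MulRel A k x₁ y₁ s y'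

/-- Differences of two ratios. -/
def RSet {K : Type} [Field K] (X : K → Prop) (r : K) : Prop :=
  ∃ s₁ t₁ s₂ t₂ : K, X s₁ ∧ X t₁ ∧ X s₂ ∧ X t₂ ∧ t₁ ≠ 0 ∧ t₂ ≠ 0 ∧
    r * (t₁ * t₂) = s₁ * t₂ - s₂ * t₁

theorem dioP_xSet {K : Type} [Field K] (A B : K) (k : ℕ) : DioP K (XSet A B k) := by
  have h1 : DioR K (fun v : Fin 1 ⊕ Fin 3 → K =>
      v (Sum.inr 1) ^ 2 = v (Sum.inr 0) ^ 3 + A * v (Sum.inr 0) + B) :=
    DioR.eq ((PF.var _).pow 2)
      ((((PF.var _).pow 3).add ((PF.const _).mul (PF.var _))).add (PF.const _))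
  have h2 : DioR K (fun v : Fin 1 ⊕ Fin 3 → K =>
      MulRel A k (v (Sum.inr 0)) (v (Sum.inr 1)) (v (Sum.inl 0)) (v (Sum.inr 2))) := by
    have h3 := (dio_mulRel (K := K) k).dioR.subst
      (φ := (![fun _ => A, fun v => v (Sum.inr 0), fun v => v (Sum.inr 1),
        fun v => v (Sum.inl 0), fun v => v (Sum.inr 2)] :
        Fin 5 → (Fin 1 ⊕ Fin 3 → K) → K)) (by
      intro b
      fin_cases b
      · exact PF.const A
      · exact PF.var _
      · exact PF.var _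
      · exact PF.var _
      · exact PF.var _)
    exact h3
  refine ((h1.and h2).ex).dioP.congr fun s => ?_
  simp only [Sum.elim_inl, Sum.elim_inr]
  constructor
  · rintro ⟨w, h⟩
    exact ⟨w 0, w 1, w 2, h⟩
  · rintro ⟨a, b, c, h⟩
    exact ⟨![a, b, c], h⟩

theorem dioP_rSet {K : Type} [Field K] {X : K → Prop} (hX : DioP K X) : DioP K (RSet X) := by
  have a1 : DioR K (fun v : Fin 1 ⊕ Fin 4 → K => X (v (Sum.inr 0))) := DioR.app hX (PF.var _)
  have a2 : DioR K (fun v : Fin 1 ⊕ Fin 4 → K => X (v (Sum.inr 1))) := DioR.app hX (PF.var _)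
  have a3 : DioR K (fun v : Fin 1 ⊕ Fin 4 → K => X (v (Sum.inr 2))) := DioR.app hX (PF.var _)
  have a4 : DioR K (fun v : Fin 1 ⊕ Fin 4 → K => X (v (Sum.inr 3))) := DioR.app hX (PF.var _)
  have a5 : DioR K (fun v : Fin 1 ⊕ Fin 4 → K => v (Sum.inr 1) ≠ 0) := DioR.ne0 (PF.var _)
  have a6 : DioR K (fun v : Fin 1 ⊕ Fin 4 → K => v (Sum.inr 3) ≠ 0) := DioR.ne0 (PF.var _)
  have a7 : DioR K (fun v : Fin 1 ⊕ Fin 4 → K =>
      v (Sum.inl 0) * (v (Sum.inr 1) * v (Sum.inr 3))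
        = v (Sum.inr 0) * v (Sum.inr 3) - v (Sum.inr 2) * v (Sum.inr 1)) :=
    DioR.eq ((PF.var _).mul ((PF.var _).mul (PF.var _)))
      (((PF.var _).mul (PF.var _)).sub ((PF.var _).mul (PF.var _)))
  refine ((a1.and (a2.and (a3.and (a4.and (a5.and (a6.and a7)))))).ex).dioP.congr fun s => ?_
  simp only [Sum.elim_inl, Sum.elim_inr]
  constructor
  · rintro ⟨w, h⟩
    exact ⟨w 0, w 1, w 2, w 3, h⟩
  · rintro ⟨a, b, c, d, h⟩
    exact ⟨![a, b, c, d], h⟩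

section

variable {F K : Type} [Field F] [Field K] [Algebra F K]

theorem RSet.mem {X : K → Prop} (hX : ∀ s, X s → ∃ c : F, algebraMap F K c = s) {r : K}
    (h : RSet X r) : ∃ c : F, algebraMap F K c = r := by
  obtain ⟨s₁, t₁, s₂, t₂, h1, h2, h3, h4, h5, h6, h7⟩ := h
  obtain ⟨a, rfl⟩ := hX _ h1
  obtain ⟨b, rfl⟩ := hX _ h2
  obtain ⟨c, rfl⟩ := hX _ h3
  obtain ⟨d, rfl⟩ := hX _ h4
  refine ⟨(a * d - c * b) / (b * d), ?_⟩
  rw [map_div₀, map_mul, map_sub, map_mul, map_mul, ← h7, mul_div_cancel_right₀]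
  exact mul_ne_zero h5 h6

open scoped Classical in
theorem XSet.mem [CharZero K] {a b : F} (hab : 4 * a ^ 3 + 27 * b ^ 2 ≠ 0) {k : ℕ}
    (hm : ∀ P : ((shortW a b)⁄K).Point, ∃ Q : ((shortW a b)⁄F).Point,
      (k + 1) • P = Point.baseChange F K Q) {s : K}
    (h : XSet (algebraMap F K a) (algebraMap F K b) k s) : ∃ c : F, algebraMap F K c = s := by
  obtain ⟨x₁, y₁, y', h1, h2⟩ := h
  obtain ⟨P, hP⟩ := isAt_of_eqn hab h1
  have h3 := MulRel.sound hP k h2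
  obtain ⟨Q, hQ⟩ := hm P
  rw [hQ] at h3
  cases Q with
  | zero => exact absurd rfl h3.ne_zero
  | some c d hcd =>
    rw [Point.baseChange, Point.map_some] at h3
    obtain ⟨h4, h5⟩ := h3
    have h6 := Point.some.inj h5
    exact ⟨c, h6.1⟩

open scoped Classical in
theorem XSet.of_multiple [CharZero K] {a b : F} (k : ℕ)
    {P : ((shortW a b)⁄F).Point} (hP : ∀ n : ℕ, 0 < n → n • P ≠ 0) {n : ℕ} (hn : 0 < n) {c d : F}
    (hcd : IsAt (n • ((k + 1) • P)) c d) :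
    XSet (algebraMap F K a) (algebraMap F K b) k (algebraMap F K c) := by
  set P' : ((shortW a b)⁄K).Point := Point.baseChange F K (n • P) with hP'
  have hinf : ∀ j : ℕ, 0 < j → j • P' ≠ 0 := by
    intro j hj h0
    rw [hP', ← map_nsmul, smul_smul] at h0
    have h1 : Point.baseChange F K ((j * n) • P) = Point.baseChange F K (0 : ((shortW a b)⁄F).Point) := by
      rw [h0, map_zero]
    exact hP _ (Nat.mul_pos hj hn) (Point.map_injective _ h1)
  have h1 : P' ≠ 0 := by simpa using hinf 1 one_pos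
  obtain ⟨x₁, y₁, hxy⟩ := exists_isAt h1
  obtain ⟨x', y', hr⟩ := MulRel.exists hinf hxy k
  have h2 := MulRel.sound hxy k hr
  have h3 : (k + 1) • P' = Point.baseChange F K (n • ((k + 1) • P)) := by
    rw [hP', ← map_nsmul, smul_smul, smul_smul, mul_comm]
  rw [h3] at h2
  obtain ⟨h4, h5⟩ := hcd
  have h6 : IsAt (Point.baseChange F K (n • ((k + 1) • P))) (algebraMap F K c) (algebraMap F K d) := by
    rw [h5, Point.baseChange, Point.map_some]
    exact ⟨_, rfl⟩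
  have h7 := (h2.unique h6).1
  rw [h7] at hr
  exact ⟨x₁, y₁, y', hxy.eqn, hr⟩

variable [NumberField K] {p l₁ l₂ : ℕ} [hp : Fact p.Prime]

theorem RankStable.dioP_aux (hRS : RankStable F K) (hs : Splits p K) (hg : GoodPrime p l₁ l₂) :
    DioP K (fun x => ¬ ∃ c : F, algebraMap F K c = x) := by
  classical
  obtain ⟨a, b, hab, ⟨P₀, hP₀⟩, m, hm, hstab⟩ := hRS
  obtain ⟨k, rfl⟩ : ∃ k, m = k + 1 := ⟨m - 1, by omega⟩
  set X : K → Prop := XSet (algebraMap F K a) (algebraMap F K b) k with hX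
  have hXmem : ∀ s, X s → ∃ c : F, algebraMap F K c = s := fun s hs => XSet.mem hab hstab hs
  have hp0 : (0 : ℝ) < p := by exact_mod_cast hp.out.pos
  have hp1 : (1 : ℝ) < p := by exact_mod_cast hp.out.one_lt
  have hpK : (p : K) ≠ 0 := by exact_mod_cast hp.out.ne_zero
  -- the certificate
  have hcert : DioP K (fun x => ∃ (στ : {στ : (K →+* ℚ_[p]) × (K →+* ℚ_[p]) //
      ∀ c : F, στ.1 (algebraMap F K c) = στ.2 (algebraMap F K c)}),
      ∃ w : Fin 4 → K, RSet X (w 0) ∧ RSet X (w 1) ∧ ‖στ.1.1 (w 2)‖ ≤ 1 ∧ ‖στ.1.2 (w 3)‖ ≤ 1 ∧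
        w 1 * (x - w 0) = p * w 2 ∧ w 1 * (x - w 0) * w 3 = 1) := by
    refine DioP.exists_fintype fun στ => ?_
    have a1 : DioR K (fun v : Fin 1 ⊕ Fin 4 → K => RSet X (v (Sum.inr 0))) :=
      DioR.app (dioP_rSet (dioP_xSet _ _ k)) (PF.var _)
    have a2 : DioR K (fun v : Fin 1 ⊕ Fin 4 → K => RSet X (v (Sum.inr 1))) :=
      DioR.app (dioP_rSet (dioP_xSet _ _ k)) (PF.var _)
    have a3 : DioR K (fun v : Fin 1 ⊕ Fin 4 → K => ‖στ.1.1 (v (Sum.inr 2))‖ ≤ 1) :=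
      DioR.app (dioP_val hs hg στ.1.1) (PF.var _)
    have a4 : DioR K (fun v : Fin 1 ⊕ Fin 4 → K => ‖στ.1.2 (v (Sum.inr 3))‖ ≤ 1) :=
      DioR.app (dioP_val hs hg στ.1.2) (PF.var _)
    have a5 : DioR K (fun v : Fin 1 ⊕ Fin 4 → K =>
        v (Sum.inr 1) * (v (Sum.inl 0) - v (Sum.inr 0)) = (p : K) * v (Sum.inr 2)) :=
      DioR.eq ((PF.var _).mul ((PF.var _).sub (PF.var _))) ((PF.const _).mul (PF.var _))
    have a6 : DioR K (fun v : Fin 1 ⊕ Fin 4 → K =>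
        v (Sum.inr 1) * (v (Sum.inl 0) - v (Sum.inr 0)) * v (Sum.inr 3) = 1) :=
      DioR.eq (((PF.var _).mul ((PF.var _).sub (PF.var _))).mul (PF.var _)) (PF.const _)
    exact ((a1.and (a2.and (a3.and (a4.and (a5.and a6))))).ex).dioP
  refine hcert.congr fun x => ?_
  constructor
  · -- soundness
    rintro ⟨⟨⟨σ, τ⟩, hστ⟩, w, h1, h2, h3, h4, h5, h6⟩ ⟨c, rfl⟩
    dsimp only at hστ h3 h4
    obtain ⟨r, hr⟩ := RSet.mem hXmem h1
    obtain ⟨s, hs'⟩ := RSet.mem hXmem h2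
    rw [← hr, ← hs', ← map_sub, ← map_mul] at h5 h6
    have e1 := congrArg (fun t => ‖σ t‖) h5
    have e2 := congrArg (fun t => ‖τ t‖) h6
    simp only [map_mul τ, norm_mul, map_one, norm_one] at e2
    simp only [map_mul σ, norm_mul, map_natCast, Padic.norm_p] at e1
    have e3 : ‖σ (algebraMap F K (s * (c - r)))‖ ≤ (p : ℝ)⁻¹ := by
      rw [e1]; exact mul_le_of_le_one_right (by positivity) h3
    rw [hστ] at e3
    have hpinv : (p : ℝ)⁻¹ < 1 := inv_lt_one_of_one_lt₀ hp1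
    have := norm_nonneg (τ (algebraMap F K (s * (c - r))))
    nlinarith [norm_nonneg (τ (w 3))]
  · -- completeness
    intro hx
    obtain ⟨σ, τ, hστ, hne⟩ := hs.exists_pair x hx
    set ρ : F →+* ℚ_[p] := σ.comp (algebraMap F K) with hρ
    have hρτ : ∀ c, τ (algebraMap F K c) = ρ c := fun c => (hστ c).symm
    have hρσ : ∀ c, σ (algebraMap F K c) = ρ c := fun c => rfl
    have hQ : ∀ n : ℕ, 0 < n → n • ((k + 1) • P₀) ≠ 0 := by
      intro n hn
      rw [smul_smul]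
      exact hP₀ _ (Nat.mul_pos hn k.succ_pos)
    have hdense : ∀ (u : ℚ_[p]) (ε : ℝ), 0 < ε → ∃ c : F, RSet X (algebraMap F K c) ∧
        ‖ρ c - u‖ < ε := by
      intro u ε hε
      obtain ⟨s₁, h1, t₁, h2, s₂, h3, t₂, h4, h5, h6, h7⟩ :=
        dense_diff_ratio ρ (Padic.denseRange_ratCast p) hab ((k + 1) • P₀) hQ
          {c | X (algebraMap F K c)} (fun n hn x y hxy => XSet.of_multiple k hP₀ hn hxy) u hε
      refine ⟨s₁ / t₁ - s₂ / t₂, ⟨_, _, _, _, h1, h2, h3, h4, ?_, ?_, ?_⟩, h7⟩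
      · exact (map_ne_zero _).2 h5
      · exact (map_ne_zero _).2 h6
      · rw [← map_mul, ← map_mul, ← map_mul, ← map_mul, ← map_sub]
        congr 1
        field_simp
    set η : ℝ := ‖τ x - σ x‖ with hη
    have hη0 : 0 < η := norm_pos_iff.2 (sub_ne_zero.2 (Ne.symm hne))
    obtain ⟨r, hr1, hr2⟩ := hdense (σ x) (η * (p : ℝ)⁻¹) (by positivity)
    have hτx : τ x - σ x ≠ 0 := sub_ne_zero.2 (Ne.symm hne)
    have hu0 : 0 < ‖(τ x - σ x)⁻¹‖ := norm_pos_iff.2 (inv_ne_zero hτx)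
    obtain ⟨s, hs1, hs2⟩ := hdense (τ x - σ x)⁻¹ _ hu0
    have hsn : ‖ρ s‖ = η⁻¹ := by
      rw [norm_eq_one_of_sub hs2, norm_inv]
    have hpinv : (p : ℝ)⁻¹ < 1 := inv_lt_one_of_one_lt₀ hp1
    have hσr : ‖σ x - ρ r‖ < η * (p : ℝ)⁻¹ := by rw [norm_sub_rev]; exact hr2
    have hτr : ‖τ x - ρ r‖ = η := by
      have e : τ x - ρ r = (τ x - σ x) + (σ x - ρ r) := by ring
      have h1 : ‖(τ x - ρ r) - (τ x - σ x)‖ < ‖τ x - σ x‖ := by
        have e2 : (τ x - ρ r) - (τ x - σ x) = σ x - ρ r := by ring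
        rw [e2]
        refine hσr.trans ?_
        nlinarith
      exact norm_eq_one_of_sub h1
    set y : K := algebraMap F K s * (x - algebraMap F K r) with hy
    have hτy : ‖τ y‖ = 1 := by
      rw [hy, map_mul, map_sub, hρτ, hρτ, norm_mul, hsn, hτr, inv_mul_cancel₀ hη0.ne']
    have hy0 : y ≠ 0 := by
      intro h
      rw [h, map_zero, norm_zero] at hτy
      exact zero_ne_one hτy
    have hσy : ‖σ y‖ ≤ (p : ℝ)⁻¹ := by
      rw [hy, map_mul, map_sub, hρσ, hρσ, norm_mul, hsn, inv_mul_le_iff₀ hη0]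
      exact hσr.le
    refine ⟨⟨(σ, τ), hστ⟩, ![algebraMap F K r, algebraMap F K s, y / p, y⁻¹], ?_, ?_, ?_, ?_, ?_, ?_⟩
    · exact hr1
    · exact hs1
    · simp only [Matrix.cons_val]
      rw [map_div₀, map_natCast, norm_div, Padic.norm_p, div_le_one (by positivity)]
      exact hσy
    · simp only [Matrix.cons_val]
      rw [map_inv₀, norm_inv, hτy, inv_one]
    · simp only [Matrix.cons_val, Matrix.cons_val_one, Matrix.cons_val_zero]
      rw [mul_div_cancel₀ _ hpK]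
    · simp only [Matrix.cons_val, Matrix.cons_val_one, Matrix.cons_val_zero]
      exact mul_inv_cancel₀ hy0

end

end Pool.Agent.H60.UDef
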