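import Pool.Agent.Lib.H60.UDef.PadicEmb
import Pool.Agent.Lib.H60.UDef.Dio

/-!
The ternary form attached to a quaternion algebra ramified at `p`: local obstruction at `p`.
-/

set_option autoImplicit false

namespace Pool.Agent.H60.UDef

/-- `x² + p l` is represented by `⟨p, l, -p l⟩`. -/
def Tern {K : Type} [Field K] (p l : ℕ) (x : K) : Prop :=
  ∃ α β γ : K, x ^ 2 + p * l = p * α ^ 2 + l * β ^ 2 - p * l * γ ^ 2

theorem Tern.map {K L : Type} [Field K] [Field L] (f : K →+* L) {p l : ℕ} {x : K}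
    (h : Tern p l x) : Tern p l (f x) := by
  obtain ⟨α, β, γ, h⟩ := h
  refine ⟨f α, f β, f γ, ?_⟩
  have := congrArg f h
  simpa using this

section

variable {p : ℕ} [hp : Fact p.Prime]

theorem norm_nonres {l : ℕ} (hl : ∀ z : ZMod p, z ^ 2 ≠ (l : ZMod p)) (X Y : ℚ_[p]) :
    ‖X ^ 2 - l * Y ^ 2‖ = max ‖X‖ ‖Y‖ ^ 2 := by
  have hl1 : ‖(l : ℚ_[p])‖ = 1 := by
    have h1 : ¬ ‖((l : ℤ) : ℚ_[p])‖ < 1 := by
      rw [Padic.norm_intCast_lt_one_iff]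
      intro h
      apply hl 0
      rw [zero_pow two_ne_zero]
      exact ((ZMod.natCast_eq_zero_iff l p).2 (by exact_mod_cast h)).symm
    rw [Int.cast_natCast] at h1
    have h2 : ‖((l : ℤ) : ℚ_[p])‖ ≤ 1 := Padic.norm_int_le_one _
    rw [Int.cast_natCast] at h2
    exact le_antisymm h2 (not_lt.1 h1)
  have hl2 : ‖(l : ℚ_[p]) * Y ^ 2‖ = ‖Y‖ ^ 2 := by rw [norm_mul, hl1, one_mul, norm_pow]
  by_cases hXY : ‖X‖ = ‖Y‖
  · rw [hXY, max_self]
    by_cases hY : Y = 0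
    · subst hY
      rw [norm_zero, norm_eq_zero] at hXY
      rw [hXY]; simp
    · have hYn : 0 < ‖Y‖ := norm_pos_iff.2 hY
      set u : ℚ_[p] := X / Y with hu
      have hu1 : ‖u‖ = 1 := by rw [hu, norm_div, hXY, div_self hYn.ne']
      have hX : X = u * Y := by rw [hu, div_mul_cancel₀ _ hY]
      have e : X ^ 2 - l * Y ^ 2 = (u ^ 2 - l) * Y ^ 2 := by rw [hX]; ring
      rw [e, norm_mul, norm_pow]
      have h3 : ‖u ^ 2 - (l : ℚ_[p])‖ = 1 := by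
        have hle : ‖u ^ 2 - (l : ℚ_[p])‖ ≤ 1 := by
          rw [sub_eq_add_neg]
          refine (IsUltrametricDist.norm_add_le_max _ _).trans ?_
          rw [norm_pow, norm_neg, hu1, hl1]; simp
        refine le_antisymm hle ?_
        by_contra hlt
        push Not at hlt
        let u' : ℤ_[p] := ⟨u, hu1.le⟩
        have h4 : ‖u' ^ 2 - (l : ℤ_[p])‖ < 1 := by
          rw [PadicInt.norm_def]
          push_cast
          exact hlt
        have h5 : u' ^ 2 - (l : ℤ_[p]) ∈ IsLocalRing.maximalIdeal ℤ_[p] := by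
          rw [PadicInt.maximalIdeal_eq_span_p, Ideal.mem_span_singleton]
          exact (PadicInt.norm_lt_one_iff_dvd _).1 h4
        rw [← PadicInt.ker_toZMod, RingHom.mem_ker, map_sub, map_pow, map_natCast] at h5
        exact hl _ (sub_eq_zero.1 h5)
      rw [h3, one_mul]
  · have hne : ‖X ^ 2‖ ≠ ‖-((l : ℚ_[p]) * Y ^ 2)‖ := by
      rw [norm_neg, hl2, norm_pow]
      intro h
      exact hXY ((pow_left_inj₀ (norm_nonneg _) (norm_nonneg _) two_ne_zero).1 h)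
    rw [sub_eq_add_neg, IsUltrametricDist.norm_add_eq_max_of_norm_ne_norm hne, norm_neg, hl2,
      norm_pow]
    rcases le_total ‖X‖ ‖Y‖ with h | h
    · rw [max_eq_right h, max_eq_right (pow_le_pow_left₀ (norm_nonneg _) h 2)]
    · rw [max_eq_left h, max_eq_left (pow_le_pow_left₀ (norm_nonneg _) h 2)]

theorem norm_sq_ne (w z : ℚ_[p]) (hw : w ≠ 0) (hz : z ≠ 0) : ‖w‖ ^ 2 ≠ (p : ℝ)⁻¹ * ‖z‖ ^ 2 := by
  intro h
  rw [Padic.norm_eq_zpow_neg_valuation hw, Padic.norm_eq_zpow_neg_valuation hz] at h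
  have hp0 : (0 : ℝ) < p := by exact_mod_cast hp.out.pos
  have hp1 : (1 : ℝ) < p := by exact_mod_cast hp.out.one_lt
  rw [← zpow_natCast, ← zpow_natCast, ← zpow_mul, ← zpow_mul, ← zpow_neg_one, ← zpow_add₀ hp0.ne'] at h
  have h2 := zpow_right_injective₀ hp0 hp1.ne' h
  push_cast at h2
  omega

theorem Tern.norm_lt {l : ℕ} (hl : ∀ z : ZMod p, z ^ 2 ≠ (l : ZMod p)) {x : ℚ_[p]}
    (h : Tern p l x) : ‖x‖ < 1 := by
  obtain ⟨α, β, γ, h⟩ := h
  by_contra hx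
  push Not at hx
  have hp1 : (1 : ℝ) < p := by exact_mod_cast hp.out.one_lt
  have hpinv : (p : ℝ)⁻¹ < 1 := inv_lt_one_of_one_lt₀ hp1
  have hpinv0 : (0 : ℝ) < (p : ℝ)⁻¹ := by positivity
  have e : x ^ 2 - l * β ^ 2 = p * (α ^ 2 - l * γ ^ 2) + -(p * l) := by linear_combination h
  have e1 := norm_nonres hl x β
  have e2 : ‖(p : ℚ_[p]) * (α ^ 2 - l * γ ^ 2)‖ = (p : ℝ)⁻¹ * max ‖α‖ ‖γ‖ ^ 2 := by
    rw [norm_mul, Padic.norm_p, norm_nonres hl]
  have e3 : ‖-((p : ℚ_[p]) * l)‖ ≤ (p : ℝ)⁻¹ := by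
    rw [norm_neg, norm_mul, Padic.norm_p]
    have h2 : ‖((l : ℤ) : ℚ_[p])‖ ≤ 1 := Padic.norm_int_le_one _
    rw [Int.cast_natCast] at h2
    exact mul_le_of_le_one_right hpinv0.le h2
  have hM1 : 1 ≤ max ‖x‖ ‖β‖ ^ 2 := one_le_pow₀ (hx.trans (le_max_left _ _))
  rw [e] at e1
  rcases le_or_gt (max ‖α‖ ‖γ‖) 1 with hM2 | hM2
  · have h4 : ‖(p : ℚ_[p]) * (α ^ 2 - l * γ ^ 2)‖ ≤ (p : ℝ)⁻¹ := by
      rw [e2]
      refine mul_le_of_le_one_right hpinv0.le (pow_le_one₀ ?_ hM2)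
      exact (norm_nonneg _).trans (le_max_left _ _)
    have h5 := (IsUltrametricDist.norm_add_le_max ((p : ℚ_[p]) * (α ^ 2 - l * γ ^ 2))
      (-((p : ℚ_[p]) * l))).trans (max_le h4 e3)
    rw [e1] at h5
    linarith
  · have h6 : (p : ℝ)⁻¹ < ‖(p : ℚ_[p]) * (α ^ 2 - l * γ ^ 2)‖ := by
      rw [e2]
      have : 1 < max ‖α‖ ‖γ‖ ^ 2 := one_lt_pow₀ hM2 two_ne_zero
      nlinarith
    have h7 : ‖(p : ℚ_[p]) * (α ^ 2 - l * γ ^ 2)‖ ≠ ‖-((p : ℚ_[p]) * l)‖ := by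
      intro h8; rw [h8] at h6; linarith
    rw [IsUltrametricDist.norm_add_eq_max_of_norm_ne_norm h7, max_eq_left (by linarith), e2] at e1
    obtain ⟨w, hw1, hw2⟩ : ∃ w : ℚ_[p], ‖w‖ = max ‖x‖ ‖β‖ ∧ w ≠ 0 := by
      rcases le_total ‖x‖ ‖β‖ with h9 | h9
      · refine ⟨β, (max_eq_right h9).symm, ?_⟩
        intro h0; rw [h0, norm_zero] at h9; linarith
      · refine ⟨x, (max_eq_left h9).symm, ?_⟩
        intro h0; rw [h0, norm_zero] at hx; linarith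
    obtain ⟨z, hz1, hz2⟩ : ∃ z : ℚ_[p], ‖z‖ = max ‖α‖ ‖γ‖ ∧ z ≠ 0 := by
      rcases le_total ‖α‖ ‖γ‖ with h9 | h9
      · refine ⟨γ, (max_eq_right h9).symm, ?_⟩
        intro h0
        rw [max_eq_right h9, h0, norm_zero] at hM2; linarith
      · refine ⟨α, (max_eq_left h9).symm, ?_⟩
        intro h0
        rw [max_eq_left h9, h0, norm_zero] at hM2; linarith
    rw [← hw1, ← hz1] at e1
    exact norm_sq_ne w z hw2 hz2 e1.symm

end

open FreeCommRing in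
theorem dio_tern {K : Type} [Field K] (p l : ℕ) : Dio K (fun v : Fin 1 → K => Tern p l (v 0)) := by
  have h : Dio K (fun v : Fin 1 ⊕ Fin 3 → K => v (Sum.inl 0) ^ 2 + p * l
      = p * v (Sum.inr 0) ^ 2 + l * v (Sum.inr 1) ^ 2 - p * l * v (Sum.inr 2) ^ 2) :=
    (Dio.eq (K := K) (of (Sum.inl 0) ^ 2 + (p : FreeCommRing (Fin 1 ⊕ Fin 3)) *
        (l : FreeCommRing (Fin 1 ⊕ Fin 3)))
      ((p : FreeCommRing (Fin 1 ⊕ Fin 3)) * of (Sum.inr 0) ^ 2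
        + (l : FreeCommRing (Fin 1 ⊕ Fin 3)) * of (Sum.inr 1) ^ 2
        - (p : FreeCommRing (Fin 1 ⊕ Fin 3)) * (l : FreeCommRing (Fin 1 ⊕ Fin 3))
          * of (Sum.inr 2) ^ 2)).congr
        fun v => by simp only [map_add, map_sub, map_mul, map_pow, map_natCast, lift_of]
  refine h.exFin.congr fun v => ?_
  constructor
  · rintro ⟨w, h⟩
    exact ⟨w 0, w 1, w 2, h⟩
  · rintro ⟨α, β, γ, h⟩
    exact ⟨![α, β, γ], h⟩

end Pool.Agent.H60.UDef
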